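import Pool.Agent.MP_0f71ae_nt.RegBase

/-!
# `13 r₃(N) ≤ 12 r₃(2N)` for every `N`
-/

set_option autoImplicit false

namespace Pool.Agent.MP_0f71ae_nt.Cnt

open Finset Pool.Agent.MP_0f71ae_nt.Reg

/-- The part of `A` in the window `[s, s+l)`. -/
def win (A : Finset ℕ) (s l : ℕ) : Finset ℕ := A.filter (fun x => s ≤ x ∧ x < s + l)

theorem win_card_le {A : Finset ℕ} (hA : APFree A) (s l : ℕ) : (win A s l).card ≤ r3 l := by
  have h := card_inter_ap_le hA s 1 l le_rfl
  refine le_trans (card_le_card ?_) h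
  intro x hx
  rw [win, mem_filter] at hx
  rw [mem_filter]
  exact ⟨hx.1, x - s, by omega, by omega⟩

/-- Two block construction. -/
theorem two_block {A : Finset ℕ} (hA : APFree A) {M : ℕ} (hAM : A ⊆ Icc 1 M) (s l : ℕ)
    (hs : 1 ≤ s) (hsl : s + l ≤ M + 1) (hl : 3 * l ≤ 2 * M + 2) :
    A.card + (win A s l).card ≤ r3 (2 * M) + (win A (M + 1 - l / 2) (l / 2)).card := by
  set t : ℕ := 2 * M - l + 1 - s with ht
  have hlM : l ≤ M := by omega
  set B : Finset ℕ := (win A s l).image (fun x => x + t) with hB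
  set A' : Finset ℕ := A.filter (fun x => 2 * x + l ≤ 2 * M + 1) with hA'
  have hBc : B.card = (win A s l).card := by
    rw [hB, card_image_of_injective]
    intro x y h
    simpa using h
  have hBmem : ∀ x ∈ B, 2 * M + 1 ≤ x + l ∧ x ≤ 2 * M ∧ x - t ∈ A ∧ t ≤ x := by
    intro x hx
    rw [hB, mem_image] at hx
    obtain ⟨y, hy, rfl⟩ := hx
    rw [win, mem_filter] at hy
    refine ⟨by omega, by omega, ?_, by omega⟩
    rw [Nat.add_sub_cancel]
    exact hy.1
  have hA'mem : ∀ x ∈ A', x ∈ A ∧ 2 * x + l ≤ 2 * M + 1 ∧ 1 ≤ x ∧ x ≤ M := by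
    intro x hx
    rw [hA', mem_filter] at hx
    have := mem_Icc.1 (hAM hx.1)
    exact ⟨hx.1, hx.2, this.1, this.2⟩
  have hdisj : Disjoint A' B := by
    rw [disjoint_left]
    intro x h1 h2
    have a := hA'mem x h1
    have b := hBmem x h2
    omega
  have hsub : A' ∪ B ⊆ Icc 1 (2 * M) := by
    intro x hx
    rw [mem_Icc]
    rcases mem_union.1 hx with h | h
    · have a := hA'mem x h
      omega
    · have b := hBmem x h
      omega
  have hfree : APFree (A' ∪ B) := by
    intro a d hd hcon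
    obtain ⟨h0, h1, h2⟩ := hcon
    rw [mem_union] at h0 h1 h2
    rcases h2 with h2 | h2
    · have c2 := hA'mem _ h2
      have h1' : a + d ∈ A' := by
        rcases h1 with h1 | h1
        · exact h1
        · have := hBmem _ h1
          omega
      have h0' : a ∈ A' := by
        rcases h0 with h0 | h0
        · exact h0
        · have := hBmem _ h0
          omega
      exact hA a d hd ⟨(hA'mem _ h0').1, (hA'mem _ h1').1, c2.1⟩
    · have c2 := hBmem _ h2
      rcases h1 with h1 | h1
      · have c1 := hA'mem _ h1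
        rcases h0 with h0 | h0
        · have c0 := hA'mem _ h0
          omega
        · have c0 := hBmem _ h0
          omega
      · have c1 := hBmem _ h1
        rcases h0 with h0 | h0
        · have c0 := hA'mem _ h0
          omega
        · have c0 := hBmem _ h0
          refine hA (a - t) d hd ⟨c0.2.2.1, ?_, ?_⟩
          · have e : a - t + d = a + d - t := by omega
            rw [e]; exact c1.2.2.1
          · have e : a - t + 2 * d = a + 2 * d - t := by omega
            rw [e]; exact c2.2.2.1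
  have h1 := card_le_r3 hsub hfree
  rw [card_union_of_disjoint hdisj, hBc] at h1
  have h2 : A.card ≤ A'.card + (win A (M + 1 - l / 2) (l / 2)).card := by
    rw [← card_union_of_disjoint]
    · apply card_le_card
      intro x hx
      have hxM := mem_Icc.1 (hAM hx)
      rw [mem_union, hA', mem_filter, win, mem_filter]
      by_cases h : 2 * x + l ≤ 2 * M + 1
      · exact Or.inl ⟨hx, h⟩
      · exact Or.inr ⟨hx, by omega, by omega⟩
    · rw [disjoint_left]
      intro x h1 h2
      rw [hA', mem_filter] at h1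
      rw [win, mem_filter] at h2
      omega
  omega

theorem r3_two : 2 ≤ r3 2 := by
  have h : (({1, 2} : Finset ℕ)).card ≤ r3 2 := by
    apply card_le_r3
    · decide
    · rw [apFree_iff]
      decide
  simpa using h

theorem r3_five : 4 ≤ r3 5 := by
  have h : (({1, 2, 4, 5} : Finset ℕ)).card ≤ r3 5 := by
    apply card_le_r3
    · decide
    · rw [apFree_iff]
      decide
  simpa using h

theorem r3_eight : r3 8 ≤ 4 := by
  obtain ⟨A, hA, hf, hc⟩ := exists_r3 8
  have key : ∀ B ∈ (Finset.Icc 1 8 : Finset ℕ).powerset, 5 ≤ B.card →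
      ∃ a ∈ Finset.range 9, ∃ d ∈ Finset.Icc 1 4, a ∈ B ∧ a + d ∈ B ∧ a + 2 * d ∈ B := by
    decide +kernel
  by_contra hcon
  obtain ⟨a, _, d, hd, h⟩ := key A (mem_powerset.2 hA) (by omega)
  exact hf a d (mem_Icc.1 hd).1 h

theorem r3_twelve : r3 12 ≤ 7 := by
  have h1 : r3 4 ≤ 3 := by
    obtain ⟨A, hA, hf, hc⟩ := exists_r3 4
    have key : ∀ B ∈ (Finset.Icc 1 4 : Finset ℕ).powerset, 4 ≤ B.card →
        ∃ a ∈ Finset.range 5, ∃ d ∈ Finset.Icc 1 2, a ∈ B ∧ a + d ∈ B ∧ a + 2 * d ∈ B := by
      decide +kernel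
    by_contra hcon
    obtain ⟨a, _, d, hd, h⟩ := key A (mem_powerset.2 hA) (by omega)
    exact hf a d (mem_Icc.1 hd).1 h
  have h2 := r3_add_le 8 4
  have h3 := r3_eight
  norm_num at h2
  omega

theorem growth_one {N : ℕ} (hN : 1 ≤ N) : r3 N + 1 ≤ r3 (2 * N) := by
  obtain ⟨A, hAN, hA, hc⟩ := exists_r3 N
  have hpos := r3_pos hN
  obtain ⟨s, hs⟩ : A.Nonempty := by
    rw [← card_pos]; omega
  have hsN := mem_Icc.1 (hAN hs)
  have h := two_block hA hAN s 1 hsN.1 (by omega) (by omega)
  have h1 : 1 ≤ (win A s 1).card := by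
    rw [Nat.succ_le_iff, card_pos]
    exact ⟨s, by rw [win, mem_filter]; exact ⟨hs, le_rfl, by omega⟩⟩
  have h2 : (win A (N + 1 - 1 / 2) (1 / 2)).card = 0 := by
    rw [card_eq_zero, win, filter_eq_empty_iff]
    intro x _ hx
    omega
  omega

/-- `r₃(2N) ≥ (1 + 1/7) r₃(N)` for every `N`. -/
theorem growth (N : ℕ) : 8 * r3 N ≤ 7 * r3 (2 * N) := by
  rcases Nat.eq_zero_or_pos N with rfl | hN0
  · simp [r3_zero]
  rcases lt_or_ge N 13 with hN | hN
  · have h1 := growth_one hN0
    have h2 : r3 N ≤ r3 12 := r3_mono (by omega)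
    have h3 := r3_twelve
    omega
  obtain ⟨A, hAN, hA, hc⟩ := exists_r3 N
  set h := 2 * N / 3 with hh
  set l := 2 * N / 9 with hl
  have a1 := two_block hA hAN 1 (2 * l + 1) le_rfl (by omega) (by omega)
  have a2 := two_block hA hAN (N + 1 - (2 * l + 1)) (2 * l + 1) (by omega) (by omega) (by omega)
  have e : (2 * l + 1) / 2 = l := by omega
  rw [e] at a1 a2
  have b1 := win_card_le hA (N + 1 - l) l
  have b2 : 4 * r3 l ≤ r3 (2 * N) := by
    have h := r3_mul_ge 5 l (by norm_num)
    have h2 : r3 ((2 * 5 - 1) * l) ≤ r3 (2 * N) := r3_mono (by omega)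
    calc 4 * r3 l ≤ r3 5 * r3 l := Nat.mul_le_mul_right _ r3_five
      _ ≤ _ := h.trans h2
  have b3 : 2 * r3 h ≤ r3 (2 * N) := by
    have h1 := r3_mul_ge 2 h (by norm_num)
    have h2 : r3 ((2 * 2 - 1) * h) ≤ r3 (2 * N) := r3_mono (by omega)
    calc 2 * r3 h ≤ r3 2 * r3 h := Nat.mul_le_mul_right _ r3_two
      _ ≤ _ := h1.trans h2
  have c1 := win_card_le hA 1 h
  have c2 := win_card_le hA (N + 1 - h) h
  have c3 : A.card + (win A (N + 1 - h) (2 * h - N)).card ≤
      (win A 1 h).card + (win A (N + 1 - h) h).card := by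
    rw [← card_union_add_card_inter (win A 1 h) (win A (N + 1 - h) h)]
    refine Nat.add_le_add (card_le_card ?_) (card_le_card ?_)
    · intro x hx
      have hxM := mem_Icc.1 (hAN hx)
      rw [mem_union, win, win, mem_filter, mem_filter]
      by_cases hx2 : x < 1 + h
      · exact Or.inl ⟨hx, by omega, hx2⟩
      · exact Or.inr ⟨hx, by omega, by omega⟩
    · intro x hx
      rw [win, mem_filter] at hx
      rw [mem_inter, win, win, mem_filter, mem_filter]
      exact ⟨⟨hx.1, by omega, by omega⟩, ⟨hx.1, by omega, by omega⟩⟩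
  have c4 : A.card ≤ (win A 1 (2 * l + 1)).card + (win A (N + 1 - (2 * l + 1)) (2 * l + 1)).card +
      (win A (N + 1 - h) (2 * h - N)).card := by
    refine le_trans (card_le_card ?_) ((card_union_le _ _).trans
      (Nat.add_le_add_right (card_union_le _ _) _))
    intro x hx
    have hxM := mem_Icc.1 (hAN hx)
    rw [mem_union, mem_union, win, win, win, mem_filter, mem_filter, mem_filter]
    by_cases h1 : x < 1 + (2 * l + 1)
    · exact Or.inl (Or.inl ⟨hx, by omega, h1⟩)
    · by_cases h2 : N + 1 - (2 * l + 1) ≤ x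
      · exact Or.inl (Or.inr ⟨hx, h2, by omega⟩)
      · exact Or.inr ⟨hx, by omega, by omega⟩
  omega

end Pool.Agent.MP_0f71ae_nt.Cnt
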