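import Pool.Agent.MP_0f71ae_nt.Cnt.Rounds
import Pool.Agent.MP_0f71ae_nt.Cnt.Growth
import Mathlib.NumberTheory.Chebyshev

/-!
# Bounds valid for every `N`
-/

set_option autoImplicit false

namespace Pool.Agent.MP_0f71ae_nt.Cnt

open Finset Pool.Agent.MP_0f71ae_nt.Reg

/-- Primes up to `y`. -/
def pr (y : ℕ) : Finset ℕ := (Finset.range (y + 1)).filter Nat.Prime

theorem pr_card (y : ℕ) : (pr y).card = Nat.primeCounting y := by
  rw [Nat.primeCounting, Nat.primeCounting', Nat.count_eq_card_filter_range, pr]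

theorem pr_prime (y : ℕ) : ∀ p ∈ pr y, p.Prime := by
  intro p hp
  rw [pr, mem_filter] at hp
  exact hp.2

theorem pr_le (y : ℕ) : ∀ p ∈ pr y, p ≤ y := by
  intro p hp
  rw [pr, mem_filter, mem_range] at hp
  omega

/-- `π(y) log y ≥ y/4` for `y ≥ 4`. -/
theorem pr_ge (y : ℕ) (hy : 4 ≤ y) : (y : ℝ) / 4 ≤ (pr y).card * Real.log y := by
  have h := Chebyshev.pi_ge y
  rw [pr_card]
  have hy4 : (4 : ℝ) ≤ y := by exact_mod_cast hy
  have hlog : 0 < Real.log y := Real.log_pos (by linarith)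
  rw [div_le_iff₀ hlog] at h
  have h2 : Real.log (y + 1) ≤ 2 * Real.log 2 + (((y : ℝ) + 1) / 4 - 1) := by
    have e : Real.log ((y : ℝ) + 1) = Real.log 4 + Real.log (((y : ℝ) + 1) / 4) := by
      rw [← Real.log_mul (by norm_num) (by positivity)]
      congr 1; ring
    have e4 : Real.log 4 = 2 * Real.log 2 := by
      rw [show (4 : ℝ) = 2 ^ 2 by norm_num, Real.log_pow]; norm_num
    rw [e, e4]
    have := Real.log_le_sub_one_of_pos (x := ((y : ℝ) + 1) / 4) (by positivity)
    linarith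
  have hl1 := Real.log_two_lt_d9
  have hl2 := Real.log_two_gt_d9
  nlinarith

/-- The primes up to `m ^ 8` are at least `16 m ^ 5` in number, for `m ≥ 23`. -/
theorem pr_pow (m : ℕ) (hm : 23 ≤ m) : 16 * m ^ 5 ≤ (pr (m ^ 8)).card := by
  have hm' : (23 : ℝ) ≤ m := by exact_mod_cast hm
  have hm0 : (0 : ℝ) < m := by linarith
  have h4 : 4 ≤ m ^ 8 := by
    calc 4 ≤ 23 ^ 8 := by norm_num
      _ ≤ m ^ 8 := Nat.pow_le_pow_left hm 8
  have h := pr_ge (m ^ 8) h4
  have hlog : Real.log ((m ^ 8 : ℕ) : ℝ) ≤ 8 * m := by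
    push_cast
    rw [Real.log_pow]
    have := Real.log_le_sub_one_of_pos hm0
    push_cast
    linarith
  have hc0 : (0 : ℝ) ≤ ((pr (m ^ 8)).card : ℝ) := by positivity
  have h2 : ((m ^ 8 : ℕ) : ℝ) / 4 ≤ ((pr (m ^ 8)).card : ℝ) * (8 * m) :=
    h.trans (mul_le_mul_of_nonneg_left hlog hc0)
  push_cast at h2
  have h3 : (m : ℝ) ^ 7 / 32 ≤ ((pr (m ^ 8)).card : ℝ) := by
    have e : (m : ℝ) ^ 8 / 4 = (m : ℝ) ^ 7 / 32 * (8 * m) := by ring
    rw [e] at h2
    exact le_of_mul_le_mul_right h2 (by positivity)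
  have h5 : (16 : ℝ) * m ^ 5 ≤ (m : ℝ) ^ 7 / 32 := by
    have e : (m : ℝ) ^ 7 / 32 = (m : ℝ) ^ 5 * ((m : ℝ) ^ 2 / 32) := by ring
    rw [e, mul_comm]
    apply mul_le_mul_of_nonneg_left _ (by positivity)
    nlinarith
  exact_mod_cast h5.trans h3

theorem pow8_le (n : ℕ) (hn : 64 ≤ n) : (n + 1) ^ 8 ≤ 2 ^ n := by
  induction n, hn using Nat.le_induction with
  | base => norm_num
  | succ n hn ih =>
    have h1 : (n + 1 + 1) ^ 8 ≤ 2 * (n + 1) ^ 8 := by
      have h2 : 32 * (n + 2) ≤ 33 * (n + 1) := by omega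
      have h3 : (32 * (n + 2)) ^ 8 ≤ (33 * (n + 1)) ^ 8 := Nat.pow_le_pow_left h2 8
      rw [mul_pow, mul_pow] at h3
      have h4 : 33 ^ 8 * (n + 1) ^ 8 ≤ 32 ^ 8 * (2 * (n + 1) ^ 8) := by
        have : (33 : ℕ) ^ 8 ≤ 32 ^ 8 * 2 := by norm_num
        calc 33 ^ 8 * (n + 1) ^ 8 ≤ (32 ^ 8 * 2) * (n + 1) ^ 8 := Nat.mul_le_mul_right _ this
          _ = _ := by ring
      exact Nat.le_of_mul_le_mul_left (h3.trans h4) (by norm_num)
    calc (n + 1 + 1) ^ 8 ≤ 2 * (n + 1) ^ 8 := h1
      _ ≤ 2 * 2 ^ n := Nat.mul_le_mul_left _ ih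
      _ = 2 ^ (n + 1) := by ring

/-- Comparison of the density at the scales `N` and `M = N / L`, valid for all `N ≥ L`. -/
theorem r3_scale (N L : ℕ) (hL : 1 ≤ L) (hN : L ≤ N) :
    (N : ℝ) * r3 (N / L) ≤ (N / L : ℕ) * (4 * Real.exp (4 * √(Real.log L)) * r3 N) := by
  set M := N / L with hM
  have hM1 : 1 ≤ M := by rw [hM]; exact Nat.div_pos hN (by omega)
  set a := (L + 1) / 2 with ha
  have ha1 : 1 ≤ a := by omega
  have haL : a ≤ L := by omega
  have h1 : r3 a * r3 M ≤ r3 N := by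
    refine (r3_mul_ge a M ha1).trans (r3_mono ?_)
    calc (2 * a - 1) * M ≤ L * M := Nat.mul_le_mul_right _ (by omega)
      _ ≤ N := Nat.mul_div_le N L
  have hL' : (1 : ℝ) ≤ L := by exact_mod_cast hL
  have ha' : (1 : ℝ) ≤ a := by exact_mod_cast ha1
  have h2 : (L : ℝ) / 2 * Real.exp (-(4 * √(Real.log L))) ≤ r3 a := by
    refine le_trans ?_ (behrend a)
    have e1 : (L : ℝ) / 2 ≤ a := by
      have : L ≤ 2 * a := by omega
      have : (L : ℝ) ≤ 2 * a := by exact_mod_cast this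
      linarith
    have e2 : Real.exp (-(4 * √(Real.log L))) ≤ Real.exp (-4 * √(Real.log a)) := by
      apply Real.exp_le_exp.2
      have : √(Real.log a) ≤ √(Real.log L) := by
        apply Real.sqrt_le_sqrt
        apply Real.log_le_log (by linarith)
        exact_mod_cast haL
      linarith
    exact mul_le_mul e1 e2 (Real.exp_pos _).le (by linarith)
  have h3 : (L : ℝ) * r3 M ≤ 2 * Real.exp (4 * √(Real.log L)) * r3 N := by
    have h4 : ((r3 a : ℝ)) * r3 M ≤ r3 N := by exact_mod_cast h1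
    have h5 : (L : ℝ) / 2 * Real.exp (-(4 * √(Real.log L))) * r3 M ≤ r3 N :=
      (mul_le_mul_of_nonneg_right h2 (by positivity)).trans h4
    have h6 : (2 * Real.exp (4 * √(Real.log L))) *
        ((L : ℝ) / 2 * Real.exp (-(4 * √(Real.log L))) * r3 M) = L * r3 M := by
      have : Real.exp (4 * √(Real.log L)) * Real.exp (-(4 * √(Real.log L))) = 1 := by
        rw [← Real.exp_add]; simp
      calc (2 * Real.exp (4 * √(Real.log L))) *
          ((L : ℝ) / 2 * Real.exp (-(4 * √(Real.log L))) * r3 M)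
          = L * r3 M * (Real.exp (4 * √(Real.log L)) * Real.exp (-(4 * √(Real.log L)))) := by
            ring
        _ = L * r3 M := by rw [this, mul_one]
    rw [← h6]
    exact mul_le_mul_of_nonneg_left h5 (by positivity)
  have h7 : (N : ℝ) ≤ 2 * (L * M) := by
    have e1 : N < L * M + L := by
      have e0 := Nat.lt_div_mul_add (a := N) (b := L) (by omega)
      rw [← hM, mul_comm] at e0
      exact e0
    have e2 : L ≤ L * M := Nat.le_mul_of_pos_right _ hM1
    have : N ≤ 2 * (L * M) := by omega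
    exact_mod_cast this
  calc (N : ℝ) * r3 M ≤ 2 * (L * M) * r3 M := mul_le_mul_of_nonneg_right h7 (by positivity)
    _ = 2 * M * (L * r3 M) := by ring
    _ ≤ 2 * M * (2 * Real.exp (4 * √(Real.log L)) * r3 N) :=
        mul_le_mul_of_nonneg_left h3 (by positivity)
    _ = M * (4 * Real.exp (4 * √(Real.log L)) * r3 N) := by ring

/-- Counting bound for `N ≥ 2 ^ 64`, explicit form. -/
theorem count_all_large (N : ℕ) (hN : 2 ^ 64 ≤ N) :
    (apCount N : ℝ) ≤ (2 : ℝ) ^ (90 * Real.exp (4 * √(8 * Real.log ((Nat.log 2 N + 1 : ℕ) : ℝ))) *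
      (r3 N : ℝ)) := by
  set n := Nat.log 2 N with hn
  set m := n + 1 with hm
  have hN0 : N ≠ 0 := by
    have : 0 < 2 ^ 64 := by positivity
    omega
  have hn64 : 64 ≤ n := by
    rw [hn]
    exact (Nat.le_log_iff_pow_le (by norm_num) hN0).2 hN
  have h2n : 2 ^ n ≤ N := Nat.pow_log_le_self 2 hN0
  have hNlt : N < 2 ^ m := Nat.lt_pow_succ_log_self (by norm_num) N
  set L := m ^ 8 with hL
  have hL1 : 1 ≤ L := Nat.one_le_pow _ _ (by omega)
  have hLN : L ≤ N := (pow8_le n hn64).trans h2n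
  set M := N / L with hM
  have hM1 : 1 ≤ M := Nat.div_pos hLN (by omega)
  set E : ℝ := Real.exp (4 * √(Real.log L)) with hE
  have hE1 : 1 ≤ E := Real.one_le_exp (by positivity)
  have hscale := r3_scale N L hL1 hLN
  rw [← hM, ← hE] at hscale
  set s : ℕ := ⌈8 * E * r3 N⌉₊ with hs
  have hr1 : 1 ≤ r3 N := r3_pos (by omega)
  have hr1' : (1 : ℝ) ≤ r3 N := by exact_mod_cast hr1
  have hs1 : 1 ≤ s := by
    rw [hs]
    apply Nat.one_le_iff_ne_zero.2
    rw [Ne, Nat.ceil_eq_zero, not_le]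
    positivity
  have hsle : (s : ℝ) ≤ 9 * E * r3 N := by
    have := (Nat.ceil_lt_add_one (a := 8 * E * r3 N) (by positivity)).le
    have h1 : (1 : ℝ) ≤ E * r3 N := by nlinarith
    rw [← hs] at this
    nlinarith
  have hsat : ∀ A ⊆ Icc 1 N, A.card = 2 * s → 4 * (m ^ 2) * (m ^ 2 + 1) * (2 * s) ≤
      (aps A).card := by
    intro A hA hc
    have h1 := supersat N M s (pr L) (pr_prime L) hM1 (by
      intro d hd
      have hdL := pr_le L d hd
      have e1 : (N + d * M) * r3 M ≤ (2 * N) * r3 M := by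
        apply Nat.mul_le_mul_right
        have : d * M ≤ L * M := Nat.mul_le_mul_right _ hdL
        have : L * M ≤ N := Nat.mul_div_le N L
        omega
      refine e1.trans ?_
      have e2 : ((2 * N * r3 M : ℕ) : ℝ) ≤ ((M * s : ℕ) : ℝ) := by
        push_cast
        have e3 : (8 * E * r3 N : ℝ) ≤ s := Nat.le_ceil _
        calc (2 : ℝ) * N * r3 M = 2 * (N * r3 M) := by ring
          _ ≤ 2 * (M * (4 * E * r3 N)) := mul_le_mul_of_nonneg_left hscale (by norm_num)
          _ = M * (8 * E * r3 N) := by ring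
          _ ≤ M * s := mul_le_mul_of_nonneg_left e3 (by positivity)
      exact_mod_cast e2) A hA
    rw [hc, show 2 * s - s = s by omega, ← hn] at h1
    have h2 := pr_pow m (by omega)
    rw [← hL] at h2
    by_contra hcon
    push Not at hcon
    have h3 : n * (aps A).card < n * (4 * (m ^ 2) * (m ^ 2 + 1) * (2 * s)) :=
      Nat.mul_lt_mul_of_pos_left hcon (by omega)
    have h4 : n * (4 * (m ^ 2) * (m ^ 2 + 1) * (2 * s)) ≤ (16 * m ^ 5) * s := by
      have e1 : n * (4 * (m ^ 2) * (m ^ 2 + 1) * (2 * s)) =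
          (8 * (m ^ 2) * (n * (m ^ 2 + 1))) * s := by ring
      rw [e1]
      apply Nat.mul_le_mul_right
      have e2 : n * (m ^ 2 + 1) ≤ 2 * m ^ 3 := by
        have : n ≤ m := by omega
        calc n * (m ^ 2 + 1) ≤ m * (m ^ 2 + m ^ 2) :=
              Nat.mul_le_mul this (by nlinarith)
          _ = 2 * m ^ 3 := by ring
      calc 8 * m ^ 2 * (n * (m ^ 2 + 1)) ≤ 8 * m ^ 2 * (2 * m ^ 3) := Nat.mul_le_mul_left _ e2
        _ = 16 * m ^ 5 := by ring
    have h5 : (16 * m ^ 5) * s ≤ (pr L).card * s := Nat.mul_le_mul_right _ h2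
    omega
  have hcount := count_le N (2 * s) (m ^ 2) _ (by nlinarith) (by omega) le_rfl hsat
  -- simplify the exponent
  have h1 : (N + 1) ^ ((n + 1) * (4 * (2 * s) / m ^ 2)) ≤ 2 ^ (8 * s) := by
    calc (N + 1) ^ ((n + 1) * (4 * (2 * s) / m ^ 2))
        ≤ (2 ^ m) ^ ((n + 1) * (4 * (2 * s) / m ^ 2)) := Nat.pow_le_pow_left (by omega) _
      _ = 2 ^ (m * (m * (4 * (2 * s) / m ^ 2))) := by rw [← pow_mul, ← hm]
      _ ≤ 2 ^ (8 * s) := by
        apply Nat.pow_le_pow_right (by norm_num)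
        calc m * (m * (4 * (2 * s) / m ^ 2)) = m ^ 2 * (4 * (2 * s) / m ^ 2) := by ring
          _ ≤ 4 * (2 * s) := Nat.mul_div_le _ _
          _ = 8 * s := by ring
  have h2 : apCount N ≤ 2 ^ (10 * s) := by
    calc apCount N ≤ (N + 1) ^ ((n + 1) * (4 * (2 * s) / m ^ 2)) * 2 ^ (2 * s) := hcount
      _ ≤ 2 ^ (8 * s) * 2 ^ (2 * s) := Nat.mul_le_mul_right _ h1
      _ = 2 ^ (10 * s) := by rw [← pow_add]; congr 1; ring
  have h3 : (apCount N : ℝ) ≤ (2 : ℝ) ^ ((10 * s : ℕ) : ℝ) := by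
    rw [Real.rpow_natCast]
    exact_mod_cast h2
  refine h3.trans (Real.rpow_le_rpow_of_exponent_le (by norm_num) ?_)
  have e : Real.log ((L : ℕ) : ℝ) = 8 * Real.log ((m : ℕ) : ℝ) := by
    rw [hL]; push_cast; rw [Real.log_pow]; push_cast; ring
  rw [hE, e] at hsle
  push_cast
  linarith

/-- For every `N ≥ 3` the number of AP-free subsets is at most
`2 ^ (r₃(N) exp(C √(log log N)))`. -/
theorem count_all : ∃ C : ℝ, 0 < C ∧ ∀ N : ℕ, 3 ≤ N →
    (apCount N : ℝ) ≤ (2 : ℝ) ^ ((r3 N : ℝ) * Real.exp (C * √(Real.log (Real.log N)))) := by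
  refine ⟨200, by norm_num, ?_⟩
  intro N hN3
  have hN3' : (3 : ℝ) ≤ N := by exact_mod_cast hN3
  have hr1 : 1 ≤ r3 N := r3_pos (by omega)
  have hr1' : (1 : ℝ) ≤ r3 N := by exact_mod_cast hr1
  rcases Nat.lt_or_ge N (2 ^ 64) with hN | hN
  · -- small `N`
    have h1 : (apCount N : ℝ) ≤ (2 : ℝ) ^ ((N : ℕ) : ℝ) := by
      rw [Real.rpow_natCast]
      have : apCount N ≤ 2 ^ N := by
        rw [apCount_eq]
        refine (nI_le_two_pow _ _).trans ?_
        rw [Nat.card_Icc, Nat.add_sub_cancel]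
      exact_mod_cast this
    refine h1.trans (Real.rpow_le_rpow_of_exponent_le (by norm_num) ?_)
    have hl3 : (1.09 : ℝ) ≤ Real.log N := by
      have h3 : Real.log 3 ≤ Real.log N := Real.log_le_log (by norm_num) hN3'
      have h4 : (1.09 : ℝ) ≤ Real.log 3 := by
        rw [Real.le_log_iff_exp_le (by norm_num)]
        have e1 : Real.exp 1.09 = Real.exp 1 * Real.exp 0.09 := by
          rw [← Real.exp_add]; norm_num
        have e2 := Real.exp_one_lt_d9
        have e3 : Real.exp 0.09 ≤ 1.0945 := by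
          have := Real.exp_bound' (x := 0.09) (by norm_num) (by norm_num) (n := 3) (by norm_num)
          norm_num [Finset.sum_range_succ, Nat.factorial] at this
          linarith
        rw [e1]
        have e4 := Real.exp_pos 0.09
        nlinarith
      linarith
    have hll : (0.08 : ℝ) ≤ Real.log (Real.log N) := by
      have h3 : Real.log 1.09 ≤ Real.log (Real.log N) := Real.log_le_log (by norm_num) hl3
      have h4 : (0.08 : ℝ) ≤ Real.log 1.09 := by
        have := Real.one_sub_inv_le_log_of_pos (x := 1.09) (by norm_num)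
        norm_num at this
        linarith
      linarith
    have hsq : (0.28 : ℝ) ≤ √(Real.log (Real.log N)) := by
      apply Real.le_sqrt_of_sq_le
      norm_num
      linarith
    have hexp : (2 : ℝ) ^ 64 ≤ Real.exp (200 * √(Real.log (Real.log N))) := by
      have h3 : Real.exp (64 * 0.7) ≤ Real.exp (200 * √(Real.log (Real.log N))) := by
        apply Real.exp_le_exp.2
        linarith
      refine le_trans ?_ h3
      have e1 : Real.exp (64 * 0.7) = (Real.exp 0.7) ^ 64 := by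
        rw [← Real.exp_nat_mul]
        norm_num
      rw [e1]
      apply pow_le_pow_left₀ (by norm_num)
      have := Real.log_two_lt_d9
      rw [← Real.exp_log (x := (2 : ℝ)) (by norm_num)]
      apply Real.exp_le_exp.2
      linarith
    have hN' : ((N : ℕ) : ℝ) ≤ 2 ^ 64 := by exact_mod_cast hN.le
    calc ((N : ℕ) : ℝ) ≤ 2 ^ 64 := hN'
      _ ≤ Real.exp (200 * √(Real.log (Real.log N))) := hexp
      _ = 1 * Real.exp (200 * √(Real.log (Real.log N))) := (one_mul _).symm
      _ ≤ (r3 N : ℝ) * Real.exp (200 * √(Real.log (Real.log N))) :=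
          mul_le_mul_of_nonneg_right hr1' (Real.exp_pos _).le
  · refine (count_all_large N hN).trans (Real.rpow_le_rpow_of_exponent_le (by norm_num) ?_)
    rw [mul_comm]
    apply mul_le_mul_of_nonneg_left _ (by linarith)
    have hNr : (2 : ℝ) ^ 64 ≤ N := by exact_mod_cast hN
    have hl2 := Real.log_two_gt_d9
    have hl2' := Real.log_two_lt_d9
    have hlogN : (44 : ℝ) ≤ Real.log N := by
      have h3 : Real.log ((2 : ℝ) ^ 64) ≤ Real.log N := Real.log_le_log (by norm_num) hNr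
      rw [Real.log_pow] at h3
      push_cast at h3
      linarith
    set x := Real.log (Real.log N) with hx
    have hx1 : 1 ≤ x := by
      have h3 : Real.log (Real.exp 1) ≤ x := by
        apply Real.log_le_log (Real.exp_pos _)
        have := Real.exp_one_lt_d9
        linarith
      rwa [Real.log_exp] at h3
    have hm : ((Nat.log 2 N + 1 : ℕ) : ℝ) ≤ 2 * Real.log N := by
      have hN0 : N ≠ 0 := by omega
      have h2n : 2 ^ Nat.log 2 N ≤ N := Nat.pow_log_le_self 2 hN0
      have h3 : Real.log ((2 : ℝ) ^ Nat.log 2 N) ≤ Real.log N :=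
        Real.log_le_log (by positivity) (by exact_mod_cast h2n)
      rw [Real.log_pow] at h3
      push_cast
      nlinarith
    have hlm : Real.log ((Nat.log 2 N + 1 : ℕ) : ℝ) ≤ 2 * x := by
      have h3 : Real.log ((Nat.log 2 N + 1 : ℕ) : ℝ) ≤ Real.log (2 * Real.log N) :=
        Real.log_le_log (by positivity) hm
      rw [Real.log_mul (by norm_num) (by linarith)] at h3
      linarith
    have hs1 : 4 * √(8 * Real.log ((Nat.log 2 N + 1 : ℕ) : ℝ)) ≤ 16 * √x := by
      have h3 : √(8 * Real.log ((Nat.log 2 N + 1 : ℕ) : ℝ)) ≤ √(4 ^ 2 * x) := by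
        apply Real.sqrt_le_sqrt
        linarith
      have h5 : √(4 ^ 2 * x) = 4 * √x := by
        rw [Real.sqrt_mul (by norm_num), Real.sqrt_sq (by norm_num)]
      linarith
    have hsx : 1 ≤ √x := by
      rw [Real.one_le_sqrt]; exact hx1
    have h90 : (90 : ℝ) ≤ Real.exp (5 * √x) := by
      have h3 : Real.exp (5 * 1) ≤ Real.exp (5 * √x) := by
        apply Real.exp_le_exp.2
        linarith
      have h4 : (90 : ℝ) ≤ Real.exp (5 * 1) := by
        have e1 : Real.exp (5 * 1) = (Real.exp 1) ^ 5 := by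
          rw [← Real.exp_nat_mul]; norm_num
        rw [e1]
        have := Real.exp_one_gt_d9
        calc (90 : ℝ) ≤ 2.7 ^ 5 := by norm_num
          _ ≤ _ := pow_le_pow_left₀ (by norm_num) (by linarith) 5
      linarith
    calc 90 * Real.exp (4 * √(8 * Real.log ((Nat.log 2 N + 1 : ℕ) : ℝ)))
        ≤ Real.exp (5 * √x) * Real.exp (16 * √x) := by
          apply mul_le_mul h90 (Real.exp_le_exp.2 hs1) (Real.exp_pos _).le (Real.exp_pos _).le
      _ = Real.exp (21 * √x) := by rw [← Real.exp_add]; congr 1; ring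
      _ ≤ Real.exp (200 * √x) := Real.exp_le_exp.2 (by linarith)

end Pool.Agent.MP_0f71ae_nt.Cnt
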