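import Pool.Agent.MP_0f71ae_nt.Cnt.Sat

/-!
# Cubic growth of the number of progressions
-/

set_option autoImplicit false

namespace Pool.Agent.MP_0f71ae_nt.Cnt

open Finset Pool.Agent.MP_0f71ae_nt.Reg

theorem sum_erase (A : Finset ℕ) :
    ∑ v ∈ A, (aps (A.erase v)).card = (A.card - 3) * (aps A).card := by
  classical
  have h1 : ∀ v ∈ A, (aps (A.erase v)).card =
      ((aps A).filter (fun p => p.1 ≠ v ∧ p.2 ≠ v ∧ 2 * p.2 - p.1 ≠ v)).card := by
    intro v _
    congr 1
    ext p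
    rw [mem_aps, mem_filter, mem_aps, mem_erase, mem_erase, mem_erase]
    tauto
  rw [sum_congr rfl h1]
  simp only [card_filter]
  rw [sum_comm]
  have h2 : ∀ p ∈ aps A, (∑ v ∈ A, if p.1 ≠ v ∧ p.2 ≠ v ∧ 2 * p.2 - p.1 ≠ v then 1 else 0) =
      A.card - 3 := by
    intro p hp
    rw [mem_aps] at hp
    rw [← card_filter]
    have e : A.filter (fun v => p.1 ≠ v ∧ p.2 ≠ v ∧ 2 * p.2 - p.1 ≠ v) =
        ((A.erase p.1).erase p.2).erase (2 * p.2 - p.1) := by
      ext v
      rw [mem_filter, mem_erase, mem_erase, mem_erase]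
      tauto
    rw [e, card_erase_of_mem, card_erase_of_mem, card_erase_of_mem hp.1.1]
    · omega
    · rw [mem_erase]
      exact ⟨by omega, hp.1.2⟩
    · rw [mem_erase, mem_erase]
      exact ⟨by omega, by omega, hp.2.2⟩
  rw [sum_congr rfl h2, sum_const, smul_eq_mul, mul_comm]

/-- If all `b`-subsets of `U` have at least `E` progressions then a subset `A` with
`|A| ≥ b` has at least `E (|A|/b)^3`. -/
theorem amplify (U : Finset ℕ) (b E : ℕ) (hb : 1 ≤ b)
    (h : ∀ A ⊆ U, A.card = b → E ≤ (aps A).card) :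
    ∀ n : ℕ, ∀ A ⊆ U, A.card = b + n → E * A.card ^ 3 ≤ (aps A).card * b ^ 3 := by
  intro n
  induction n with
  | zero =>
    intro A hA hc
    rw [Nat.add_zero] at hc
    rw [hc]
    exact Nat.mul_le_mul_right _ (h A hA hc)
  | succ n ih =>
    intro A hA hc
    set a := A.card with ha
    have h1 : ∀ v ∈ A, E * (a - 1) ^ 3 ≤ (aps (A.erase v)).card * b ^ 3 := by
      intro v hv
      have hce : (A.erase v).card = a - 1 := card_erase_of_mem hv
      have := ih (A.erase v) ((erase_subset _ _).trans hA) (by omega)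
      rw [hce] at this
      exact this
    have h2 : a * (E * (a - 1) ^ 3) ≤ (a - 3) * (aps A).card * b ^ 3 := by
      have h0 : a * (E * (a - 1) ^ 3) = ∑ v ∈ A, E * (a - 1) ^ 3 := by
        rw [sum_const, smul_eq_mul]
      rw [h0, ha, ← sum_erase, sum_mul]
      exact sum_le_sum h1
    clear_value a
    rcases Nat.lt_or_ge 3 a with h3 | h3
    · obtain ⟨m, rfl⟩ : ∃ m, a = m + 4 := ⟨a - 4, by omega⟩
      have e1 : m + 4 - 1 = m + 3 := by omega
      have e2 : m + 4 - 3 = m + 1 := by omega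
      rw [e1, e2] at h2
      have h4 : (m + 1) * (m + 4) ^ 2 ≤ (m + 3) ^ 3 := by nlinarith
      have h5 : (m + 1) * (E * (m + 4) ^ 3) ≤ (m + 1) * ((aps A).card * b ^ 3) := by
        calc (m + 1) * (E * (m + 4) ^ 3) = (m + 4) * E * ((m + 1) * (m + 4) ^ 2) := by ring
          _ ≤ (m + 4) * E * (m + 3) ^ 3 := Nat.mul_le_mul_left _ h4
          _ = (m + 4) * (E * (m + 3) ^ 3) := by ring
          _ ≤ (m + 1) * (aps A).card * b ^ 3 := h2
          _ = (m + 1) * ((aps A).card * b ^ 3) := by ring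
      exact Nat.le_of_mul_le_mul_left h5 (by omega)
    · -- small sets: `E = 0`
      have e : a - 3 = 0 := by omega
      rw [e, zero_mul, zero_mul] at h2
      have h6 : a * (E * (a - 1) ^ 3) = 0 := by omega
      have h7 : 1 ≤ a - 1 := by omega
      have h8 : E = 0 := by
        rcases Nat.mul_eq_zero.1 h6 with h | h
        · omega
        · rcases Nat.mul_eq_zero.1 h with h | h
          · exact h
          · have := pow_eq_zero_iff (n := 3) (by norm_num) |>.1 h
            omega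
      rw [h8, zero_mul]
      exact Nat.zero_le _

theorem amplify' (U : Finset ℕ) (b E : ℕ) (hb : 1 ≤ b)
    (h : ∀ A ⊆ U, A.card = b → E ≤ (aps A).card) (A : Finset ℕ) (hA : A ⊆ U) (i : ℕ)
    (hc : 2 ^ i * b ≤ A.card) : 8 ^ i * E ≤ (aps A).card := by
  have h0 : b ≤ 2 ^ i * b := Nat.le_mul_of_pos_left _ (by positivity)
  have h1 := amplify U b E hb h (A.card - b) A hA (by omega)
  have h2 : E * (2 ^ i * b) ^ 3 ≤ (aps A).card * b ^ 3 :=
    (Nat.mul_le_mul_left _ (Nat.pow_le_pow_left hc 3)).trans h1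
  have h3 : (8 ^ i * E) * b ^ 3 ≤ (aps A).card * b ^ 3 := by
    calc (8 ^ i * E) * b ^ 3 = E * (2 ^ i * b) ^ 3 := by
          rw [mul_pow, ← pow_mul, mul_comm i 3, pow_mul]; norm_num; ring
      _ ≤ _ := h2
  exact Nat.le_of_mul_le_mul_right h3 (by positivity)

end Pool.Agent.MP_0f71ae_nt.Cnt
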