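import Pool.Agent.MP_0f71ae_nt.Cnt.Amp

/-!
# A container bound for sets without three-term progressions, by one binary recursion
-/

set_option autoImplicit false

namespace Pool.Agent.MP_0f71ae_nt.Cnt

open Finset Pool.Agent.MP_0f71ae_nt.Reg

/-- `I` contains no edge of `G`. -/
def Ind (G : SimpleGraph ℕ) (I : Finset ℕ) : Prop := ∀ y ∈ I, ∀ z ∈ I, ¬ G.Adj y z

open Classical in
/-- Number of subsets of `A` which are AP-free and independent in `G`. -/
noncomputable def nI (A : Finset ℕ) (G : SimpleGraph ℕ) : ℕ :=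
  (A.powerset.filter (fun I => APFree I ∧ Ind G I)).card

open Classical in
/-- Neighbours inside `A`. -/
noncomputable def dgS (A : Finset ℕ) (G : SimpleGraph ℕ) (v : ℕ) : Finset ℕ :=
  A.filter (fun w => G.Adj v w)

theorem mem_dgS {A : Finset ℕ} {G : SimpleGraph ℕ} {v w : ℕ} :
    w ∈ dgS A G v ↔ w ∈ A ∧ G.Adj v w := by
  classical
  unfold dgS
  rw [mem_filter]

/-- Degree inside `A`. -/
noncomputable def dg (A : Finset ℕ) (G : SimpleGraph ℕ) (v : ℕ) : ℕ := (dgS A G v).card

open Classical in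
/-- The edges inside `A`. -/
noncomputable def edS (A : Finset ℕ) (G : SimpleGraph ℕ) : Finset (ℕ × ℕ) :=
  (A ×ˢ A).filter (fun p => p.1 < p.2 ∧ G.Adj p.1 p.2)

theorem mem_edS {A : Finset ℕ} {G : SimpleGraph ℕ} {p : ℕ × ℕ} :
    p ∈ edS A G ↔ (p.1 ∈ A ∧ p.2 ∈ A) ∧ p.1 < p.2 ∧ G.Adj p.1 p.2 := by
  classical
  unfold edS
  rw [mem_filter, mem_product]

/-- Number of edges inside `A`. -/
noncomputable def ed (A : Finset ℕ) (G : SimpleGraph ℕ) : ℕ := (edS A G).card

/-- The link graph of `v` (as first term). -/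
def lk (v : ℕ) : SimpleGraph ℕ where
  Adj y z := (v < y ∧ y < z ∧ v + z = 2 * y) ∨ (v < z ∧ z < y ∧ v + y = 2 * z)
  symm := ⟨fun _ _ h => h.symm⟩
  loopless := ⟨by
    intro y h
    omega⟩

theorem nI_le_two_pow (A : Finset ℕ) (G : SimpleGraph ℕ) : nI A G ≤ 2 ^ A.card := by
  classical
  unfold nI
  exact (card_filter_le _ _).trans (by rw [card_powerset])

theorem nI_le_bot (A : Finset ℕ) (G : SimpleGraph ℕ) : nI A G ≤ nI A ⊥ := by
  classical
  unfold nI
  apply card_le_card
  intro I hI
  rw [mem_filter] at hI ⊢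
  exact ⟨hI.1, hI.2.1, by intro y _ z _; simp⟩

/-- Splitting according to whether `v ∈ I`. -/
theorem nI_split {A A' : Finset ℕ} {G G' : SimpleGraph ℕ} {v : ℕ}
    (h : ∀ I ⊆ A, v ∈ I → APFree I → Ind G I → I.erase v ⊆ A' ∧ Ind G' (I.erase v)) :
    nI A G ≤ nI (A.erase v) G + nI A' G' := by
  classical
  unfold nI
  set S := A.powerset.filter (fun I => APFree I ∧ Ind G I) with hS
  have h1 : S.card = (S.filter (fun I => v ∉ I)).card + (S.filter (fun I => ¬ v ∉ I)).card :=
    (card_filter_add_card_filter_not _).symm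
  rw [h1]
  refine Nat.add_le_add (card_le_card ?_) ?_
  · intro I hI
    rw [mem_filter, hS, mem_filter, mem_powerset] at hI
    rw [mem_filter, mem_powerset]
    exact ⟨subset_erase.2 ⟨hI.1.1, hI.2⟩, hI.1.2⟩
  · refine card_le_card_of_injOn (fun I => I.erase v) ?_ ?_
    · intro I hI
      rw [mem_coe, mem_filter, hS, mem_filter, mem_powerset, not_not] at hI
      obtain ⟨⟨hIA, hf, hi⟩, hv⟩ := hI
      obtain ⟨h1, h2⟩ := h I hIA hv hf hi
      rw [mem_coe, mem_filter, mem_powerset]
      refine ⟨h1, ?_, h2⟩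
      intro a d hd hcon
      exact hf a d hd ⟨(mem_erase.1 hcon.1).2, (mem_erase.1 hcon.2.1).2, (mem_erase.1 hcon.2.2).2⟩
    · intro I hI J hJ hIJ
      rw [mem_coe, mem_filter, not_not] at hI hJ
      simp only at hIJ
      rw [← insert_erase hI.2, ← insert_erase hJ.2, hIJ]

theorem ed_le_sdiff (A R : Finset ℕ) (G : SimpleGraph ℕ) :
    ed A G ≤ ed (A \ R) G + ∑ u ∈ R, dg A G u := by
  classical
  unfold ed
  rw [← card_filter_add_card_filter_not (s := edS A G) (fun p : ℕ × ℕ => p.1 ∉ R ∧ p.2 ∉ R)]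
  refine Nat.add_le_add (card_le_card ?_) ?_
  · intro p hp
    rw [mem_filter, mem_edS] at hp
    rw [mem_edS, mem_sdiff, mem_sdiff]
    exact ⟨⟨⟨hp.1.1.1, hp.2.1⟩, hp.1.1.2, hp.2.2⟩, hp.1.2⟩
  · have hsum : ∑ u ∈ R, dg A G u = ((R ×ˢ A).filter (fun p : ℕ × ℕ => G.Adj p.1 p.2)).card := by
      unfold dg dgS
      simp only [card_filter]
      rw [sum_product]
    rw [hsum]
    refine card_le_card_of_injOn (fun p : ℕ × ℕ => if p.1 ∈ R then p else (p.2, p.1)) ?_ ?_
    · intro p hp
      rw [mem_coe, mem_filter, mem_edS] at hp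
      rw [mem_coe, mem_filter, mem_product]
      by_cases h : p.1 ∈ R
      · simp only [h, if_true]
        exact ⟨⟨trivial, hp.1.1.2⟩, hp.1.2.2⟩
      · simp only [h, if_false]
        refine ⟨⟨?_, hp.1.1.1⟩, hp.1.2.2.symm⟩
        by_contra h2
        exact hp.2 ⟨h, h2⟩
    · intro p hp q hq hpq
      rw [mem_coe, mem_filter, mem_edS] at hp hq
      have hp1 := hp.1.2.1
      have hq1 := hq.1.2.1
      simp only at hpq
      by_cases h : p.1 ∈ R
      · by_cases h' : q.1 ∈ R
        · simpa [h, h'] using hpq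
        · rw [if_pos h, if_neg h'] at hpq
          rw [hpq] at hp1
          simp only at hp1
          omega
      · by_cases h' : q.1 ∈ R
        · rw [if_neg h, if_pos h'] at hpq
          rw [← hpq] at hq1
          simp only at hq1
          omega
        · rw [if_neg h, if_neg h'] at hpq
          have := Prod.mk.inj hpq
          exact Prod.ext this.2 this.1

theorem ed_le_mul (A : Finset ℕ) (G : SimpleGraph ℕ) (D : ℕ) (h : ∀ v ∈ A, dg A G v ≤ D) :
    ed A G ≤ A.card * D := by
  classical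
  have h1 := ed_le_sdiff A A G
  have h2 : ed (A \ A) G = 0 := by
    unfold ed
    rw [card_eq_zero, eq_empty_iff_forall_notMem]
    intro p hp
    rw [mem_edS, sdiff_self] at hp
    exact absurd hp.1.1 (notMem_empty _)
  have h3 : ∑ u ∈ A, dg A G u ≤ ∑ u ∈ A, D := sum_le_sum h
  rw [sum_const, smul_eq_mul] at h3
  omega

theorem dg_mono {A B : Finset ℕ} (h : A ⊆ B) (G : SimpleGraph ℕ) (v : ℕ) : dg A G v ≤ dg B G v := by
  classical
  unfold dg
  apply card_le_card
  intro w hw
  rw [mem_dgS] at hw ⊢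
  exact ⟨h hw.1, hw.2⟩

theorem dg_sup_lk (A : Finset ℕ) (G : SimpleGraph ℕ) (v y : ℕ) :
    dg (A.erase v) (G ⊔ lk v) y ≤ dg A G y + 2 := by
  classical
  unfold dg
  have h : dgS (A.erase v) (G ⊔ lk v) y ⊆ dgS A G y ∪ {2 * y - v, (v + y) / 2} := by
    intro w hw
    rw [mem_dgS, mem_erase, SimpleGraph.sup_adj] at hw
    rw [mem_union, mem_dgS, mem_insert, mem_singleton]
    rcases hw.2 with h | h
    · exact Or.inl ⟨hw.1.2, h⟩
    · right
      simp only [lk] at h
      omega
  have h3 : (({2 * y - v, (v + y) / 2} : Finset ℕ)).card ≤ 2 := card_le_two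
  have h4 := card_le_card h
  have h5 := card_union_le (dgS A G y) ({2 * y - v, (v + y) / 2} : Finset ℕ)
  omega

/-- Many new link edges at some vertex. -/
theorem exists_new {A : Finset ℕ} {G : SimpleGraph ℕ} {a0 β g e0 : ℕ} (hA0 : A.card ≤ a0)
    (hne : A.Nonempty) (he : e0 ≤ (aps A).card) (h2 : 2 * a0 * β ≤ e0) (hg : 2 * g * a0 ≤ e0)
    (hdeg : ∀ v ∈ A, dg A G v < β) :
    ∃ v ∈ A, ed (A.erase v) G + g ≤ ed (A.erase v) (G ⊔ lk v) := by
  classical
  set bad := (aps A).filter (fun p => G.Adj p.2 (2 * p.2 - p.1)) with hbad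
  set good := (aps A).filter (fun p => ¬ G.Adj p.2 (2 * p.2 - p.1)) with hgood
  have hsum : bad.card + good.card = (aps A).card := card_filter_add_card_filter_not _
  have hbadc : bad.card ≤ ed A G := by
    unfold ed
    refine card_le_card_of_injOn (fun p => (p.2, 2 * p.2 - p.1)) ?_ ?_
    · intro p hp
      rw [mem_coe, hbad, mem_filter, mem_aps] at hp
      rw [mem_coe, mem_edS]
      exact ⟨⟨hp.1.1.2, hp.1.2.2⟩, by simp only; omega, hp.2⟩
    · intro p hp q hq hpq
      rw [mem_coe, hbad, mem_filter, mem_aps] at hp hq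
      have h := Prod.mk.inj hpq
      exact Prod.ext (by omega) (by omega)
  have hed : ed A G ≤ A.card * β := ed_le_mul A G β (fun v hv => (hdeg v hv).le)
  have hed2 : A.card * β ≤ a0 * β := Nat.mul_le_mul_right _ hA0
  have hgoodc : A.card * g ≤ good.card := by
    have h3 : A.card * g ≤ a0 * g := Nat.mul_le_mul_right _ hA0
    have e1 : 2 * a0 * β = 2 * (a0 * β) := by ring
    have e2 : 2 * g * a0 = 2 * (a0 * g) := by ring
    rw [e1] at h2
    rw [e2] at hg
    omega
  obtain ⟨v, hv, hfib⟩ := exists_le_card_fiber_of_mul_le_card_of_maps_to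
    (s := good) (t := A) (f := Prod.fst) (n := g)
    (by
      intro p hp
      rw [hgood, mem_filter, mem_aps] at hp
      exact hp.1.1.1) hne hgoodc
  refine ⟨v, hv, ?_⟩
  unfold ed
  set F := (good.filter (fun p => p.1 = v)).image (fun p => (p.2, 2 * p.2 - p.1)) with hF
  have hFc : F.card = (good.filter (fun p => p.1 = v)).card := by
    rw [hF]
    apply card_image_of_injOn
    intro p hp q hq hpq
    rw [mem_coe, mem_filter, hgood, mem_filter, mem_aps] at hp hq
    have h := Prod.mk.inj hpq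
    exact Prod.ext (by omega) (by omega)
  have hFmem : ∀ r ∈ F, r.1 ∈ A.erase v ∧ r.2 ∈ A.erase v ∧ r.1 < r.2 ∧ (lk v).Adj r.1 r.2 ∧
      ¬ G.Adj r.1 r.2 := by
    intro r hr
    rw [hF, mem_image] at hr
    obtain ⟨p, hp, rfl⟩ := hr
    rw [mem_filter, hgood, mem_filter, mem_aps] at hp
    obtain ⟨⟨⟨⟨h1, h2⟩, h3, h4⟩, h5⟩, h6⟩ := hp
    refine ⟨mem_erase.2 ⟨by omega, h2⟩, mem_erase.2 ⟨by omega, h4⟩, by simp only; omega, ?_, h5⟩
    simp only [lk]
    left
    omega
  have hdisj : Disjoint (edS (A.erase v) G) F := by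
    rw [disjoint_left]
    intro r h1 h2
    rw [mem_edS] at h1
    exact (hFmem r h2).2.2.2.2 h1.2.2
  calc (edS (A.erase v) G).card + g ≤ (edS (A.erase v) G).card + F.card := by
        rw [hFc]; exact Nat.add_le_add_left hfib _
    _ = (edS (A.erase v) G ∪ F).card := (card_union_of_disjoint hdisj).symm
    _ ≤ (edS (A.erase v) (G ⊔ lk v)).card := by
      apply card_le_card
      intro r hr
      rw [mem_edS, SimpleGraph.sup_adj]
      rcases mem_union.1 hr with h | h
      · rw [mem_edS] at h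
        exact ⟨h.1, h.2.1, Or.inl h.2.2⟩
      · have := hFmem r h
        exact ⟨⟨this.1, this.2.1⟩, this.2.2.1, Or.inr this.2.2.2.1⟩

/-- The recursion. -/
theorem recursion (U : Finset ℕ) (s a0 β g e0 X : ℕ) (hs : 1 ≤ s)
    (hbase : ∀ A ⊆ U, A.card < s → nI A ⊥ ≤ X)
    (hsat : ∀ A ⊆ U, s ≤ A.card → e0 ≤ (aps A).card)
    (h2 : 2 * a0 * β ≤ e0) (hg : 2 * g * a0 ≤ e0) :
    ∀ n : ℕ, ∀ A ⊆ U, A.card = n → n ≤ a0 → ∀ G : SimpleGraph ℕ,
      (∀ v ∈ A, dg A G v ≤ β + 1) → ∀ q : ℕ,
      n * (g + β * (β + 1)) < (q + 1) * (β * g) + β * ed A G → nI A G ≤ (n + 1) ^ q * X := by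
  classical
  intro n
  induction n using Nat.strong_induction_on with
  | _ n ih =>
  intro A hAU hc hn G hdeg q hΦ
  rcases Nat.lt_or_ge A.card s with hlt | hge
  · calc nI A G ≤ nI A ⊥ := nI_le_bot A G
      _ ≤ X := hbase A hAU hlt
      _ ≤ (n + 1) ^ q * X := Nat.le_mul_of_pos_left _ (by positivity)
  have hn1 : 1 ≤ n := by omega
  have hne : A.Nonempty := by rw [← card_pos]; omega
  set K := g + β * (β + 1) with hK
  -- conclusion from a right state
  have fin : ∀ (v : ℕ) (A' : Finset ℕ) (G' : SimpleGraph ℕ), v ∈ A → A' ⊆ A.erase v →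
      (∀ w ∈ A', dg A' G' w ≤ β + 1) →
      A'.card * K + β * g < (q + 1) * (β * g) + β * ed A' G' →
      nI A G ≤ nI (A.erase v) G + nI A' G' →
      nI A G ≤ (n + 1) ^ q * X := by
    intro v A' G' hv hA' hdeg' hΦ' hsplit
    have hce : (A.erase v).card = n - 1 := by rw [card_erase_of_mem hv, hc]
    -- left
    have hl : nI (A.erase v) G ≤ n ^ q * X := by
      have := ih (n - 1) (by omega) (A.erase v) ((erase_subset _ _).trans hAU) hce (by omega) G
        (fun w hw => (dg_mono (erase_subset _ _) G w).trans (hdeg w (mem_of_mem_erase hw))) q (by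
          have h1 := ed_le_sdiff A {v} G
          rw [sum_singleton, sdiff_singleton_eq_erase] at h1
          have h3 := hdeg v hv
          have h4 : β * ed A G ≤ β * (ed (A.erase v) G + (β + 1)) :=
            Nat.mul_le_mul_left _ (by omega)
          have h5 : n * K = (n - 1) * K + K := by
            obtain ⟨m, rfl⟩ : ∃ m, n = m + 1 := ⟨n - 1, by omega⟩
            rw [Nat.add_sub_cancel]; ring
          rw [Nat.mul_add] at h4
          omega)
      have e : n - 1 + 1 = n := by omega
      rw [e] at this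
      exact this
    have hcA' : A'.card ≤ n - 1 := hce ▸ card_le_card hA'
    -- `q ≥ 1`
    have hq : 1 ≤ q := by
      by_contra hq0
      have : q = 0 := by omega
      subst this
      have h3 := ed_le_mul A' G' (β + 1) hdeg'
      have h4 : β * ed A' G' ≤ β * (A'.card * (β + 1)) := Nat.mul_le_mul_left _ h3
      have h5 : A'.card * K = A'.card * g + β * (A'.card * (β + 1)) := by rw [hK]; ring
      omega
    obtain ⟨q', rfl⟩ : ∃ q', q = q' + 1 := ⟨q - 1, by omega⟩
    have hr : nI A' G' ≤ n ^ q' * X := by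
      have := ih A'.card (by omega) A' (hA'.trans ((erase_subset _ _).trans hAU)) rfl (by omega) G'
        hdeg' q' (by
          have : (q' + 1 + 1) * (β * g) = (q' + 1) * (β * g) + β * g := by ring
          omega)
      refine this.trans (Nat.mul_le_mul_right _ (Nat.pow_le_pow_left (by omega) _))
    calc nI A G ≤ nI (A.erase v) G + nI A' G' := hsplit
      _ ≤ n ^ (q' + 1) * X + n ^ q' * X := Nat.add_le_add hl hr
      _ = n ^ q' * (n + 1) * X := by ring
      _ ≤ (n + 1) ^ q' * (n + 1) * X := by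
        apply Nat.mul_le_mul_right
        apply Nat.mul_le_mul_right
        exact Nat.pow_le_pow_left (by omega) _
      _ = (n + 1) ^ (q' + 1) * X := by ring
  by_cases hbig : ∃ v ∈ A, β ≤ dg A G v
  · -- type 1
    obtain ⟨v, hv, hvd⟩ := hbig
    set Nv := dgS A G v with hNv
    set R := insert v Nv with hR
    have hvN : v ∉ Nv := by
      rw [hNv, mem_dgS]
      rintro ⟨-, h⟩
      exact G.loopless.irrefl _ h
    have hRc : R.card = Nv.card + 1 := card_insert_of_notMem hvN
    have hRA : R ⊆ A := insert_subset hv (by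
      intro w hw
      rw [hNv, mem_dgS] at hw
      exact hw.1)
    have hNvc : β ≤ Nv.card := by
      have : dg A G v = Nv.card := by unfold dg; rfl
      omega
    refine fin v (A \ R) G hv ?_ ?_ ?_ ?_
    · intro w hw
      rw [mem_sdiff, hR, mem_insert, not_or] at hw
      exact mem_erase.2 ⟨hw.2.1, hw.1⟩
    · intro w hw
      exact (dg_mono sdiff_subset G w).trans (hdeg w (mem_sdiff.1 hw).1)
    · have h1 := ed_le_sdiff A R G
      have h3 : ∑ u ∈ R, dg A G u ≤ R.card * (β + 1) := by
        rw [← smul_eq_mul, ← sum_const]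
        exact sum_le_sum (fun u hu => hdeg u (hRA hu))
      have h4 : (A \ R).card = n - R.card := by rw [card_sdiff_of_subset hRA, hc]
      have h5 : R.card ≤ n := hc ▸ card_le_card hRA
      rw [h4]
      have h6 : n * K = (n - R.card) * K + R.card * K := by
        rw [← Nat.add_mul]; congr 1; omega
      have h7 : β * ed A G ≤ β * (ed (A \ R) G + R.card * (β + 1)) :=
        Nat.mul_le_mul_left _ (by omega)
      have h8 : R.card * K = R.card * g + β * (R.card * (β + 1)) := by rw [hK]; ring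
      have h9 : β * g ≤ R.card * g := Nat.mul_le_mul_right _ (by omega)
      rw [Nat.mul_add] at h7
      omega
    · apply nI_split
      intro I hIA hvI hIf hIi
      refine ⟨?_, ?_⟩
      · intro w hw
        rw [mem_erase] at hw
        rw [mem_sdiff, hR, mem_insert, not_or]
        refine ⟨hIA hw.2, hw.1, ?_⟩
        rw [hNv, mem_dgS]
        rintro ⟨-, h⟩
        exact hIi v hvI w hw.2 h
      · intro y hy z hz
        exact hIi y (mem_of_mem_erase hy) z (mem_of_mem_erase hz)
  · -- type 2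
    push Not at hbig
    obtain ⟨v, hv, hnew⟩ := exists_new (by omega) hne (hsat A hAU hge) h2 hg hbig
    refine fin v (A.erase v) (G ⊔ lk v) hv (Subset.refl _) ?_ ?_ ?_
    · intro w hw
      have h1 := dg_sup_lk A G v w
      have h3 := hbig w (mem_of_mem_erase hw)
      omega
    · have h1 := ed_le_sdiff A {v} G
      rw [sum_singleton, sdiff_singleton_eq_erase] at h1
      have h3 := hbig v hv
      have h4 : β * (ed A G + g) ≤ β * (ed (A.erase v) (G ⊔ lk v) + (β + 1)) :=
        Nat.mul_le_mul_left _ (by omega)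
      have h5 : n * K = (n - 1) * K + K := by
        obtain ⟨m, rfl⟩ : ∃ m, n = m + 1 := ⟨n - 1, by omega⟩
        rw [Nat.add_sub_cancel]; ring
      have hce : (A.erase v).card = n - 1 := by rw [card_erase_of_mem hv, hc]
      rw [hce]
      rw [Nat.mul_add, Nat.mul_add] at h4
      omega
    · apply nI_split
      intro I hIA hvI hIf hIi
      refine ⟨?_, ?_⟩
      · intro w hw
        rw [mem_erase] at hw
        exact mem_erase.2 ⟨hw.1, hIA hw.2⟩
      · intro y hy z hz hyz
        rw [SimpleGraph.sup_adj] at hyz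
        rcases hyz with h | h
        · exact hIi y (mem_of_mem_erase hy) z (mem_of_mem_erase hz) h
        · simp only [lk] at h
          rcases h with ⟨h1, h2, h3⟩ | ⟨h1, h2, h3⟩
          · refine hIf v (y - v) (by omega) ⟨hvI, ?_, ?_⟩
            · have : v + (y - v) = y := by omega
              rw [this]; exact mem_of_mem_erase hy
            · have : v + 2 * (y - v) = z := by omega
              rw [this]; exact mem_of_mem_erase hz
          · refine hIf v (z - v) (by omega) ⟨hvI, ?_, ?_⟩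
            · have : v + (z - v) = z := by omega
              rw [this]; exact mem_of_mem_erase hz
            · have : v + 2 * (z - v) = y := by omega
              rw [this]; exact mem_of_mem_erase hy

end Pool.Agent.MP_0f71ae_nt.Cnt
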