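import Pool.Agent.MP_0f71ae_nt.Cnt.Cont

/-!
# The container recursion with a binomial bound
-/

set_option autoImplicit false

namespace Pool.Agent.MP_0f71ae_nt.Cnt

open Finset Pool.Agent.MP_0f71ae_nt.Reg

/-- The number of subsets of size at most `q` of an `n`-element set. -/
def bs (n q : ℕ) : ℕ := ∑ j ∈ range (q + 1), n.choose j

theorem bs_pos (n q : ℕ) : 0 < bs n q := by
  rw [bs, sum_range_succ']
  simp

theorem bs_mono {m n : ℕ} (q : ℕ) (h : m ≤ n) : bs m q ≤ bs n q := by
  unfold bs
  exact sum_le_sum (fun j _ => Nat.choose_le_choose j h)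

theorem bs_succ (n q : ℕ) : bs (n + 1) (q + 1) = bs n (q + 1) + bs n q := by
  unfold bs
  rw [sum_range_succ' (fun j => (n + 1).choose j) (q + 1), sum_range_succ' (fun j => n.choose j) (q + 1)]
  simp only [Nat.choose_succ_succ, sum_add_distrib, Nat.choose_zero_right]
  ring

/-- `bs n q * x ^ q ≤ (1 + x) ^ n` for `0 ≤ x ≤ 1`. -/
theorem bs_le (n q : ℕ) (x : ℝ) (hx0 : 0 ≤ x) (hx1 : x ≤ 1) : (bs n q : ℝ) * x ^ q ≤ (1 + x) ^ n := by
  have h1 : (bs n q : ℝ) * x ^ q ≤ ∑ j ∈ range (q + 1), (n.choose j : ℝ) * x ^ j := by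
    unfold bs
    push_cast
    rw [sum_mul]
    apply sum_le_sum
    intro j hj
    rw [mem_range] at hj
    apply mul_le_mul_of_nonneg_left _ (by positivity)
    exact pow_le_pow_of_le_one hx0 hx1 (by omega)
  have h2 : (1 + x) ^ n = ∑ j ∈ range (n + 1), (n.choose j : ℝ) * x ^ j := by
    have h3 : (1 + x) = (x + 1) := by ring
    rw [h3, add_pow]
    exact sum_congr rfl (fun j _ => by rw [one_pow]; ring)
  refine h1.trans ?_
  rw [h2]
  rcases le_total (q + 1) (n + 1) with h | h
  · apply sum_le_sum_of_subset_of_nonneg (range_subset_range.2 h)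
    intro j _ _
    positivity
  · apply le_of_eq
    symm
    apply sum_subset (range_subset_range.2 h)
    intro j _ hj
    rw [mem_range, not_lt] at hj
    rw [Nat.choose_eq_zero_of_lt (by omega)]
    simp

/-- The recursion. -/
theorem recursion_bs (U : Finset ℕ) (s a0 β g e0 X : ℕ) (hs : 1 ≤ s)
    (hbase : ∀ A ⊆ U, A.card < s → nI A ⊥ ≤ X)
    (hsat : ∀ A ⊆ U, s ≤ A.card → e0 ≤ (aps A).card)
    (h2 : 2 * a0 * β ≤ e0) (hg : 2 * g * a0 ≤ e0) :
    ∀ n : ℕ, ∀ A ⊆ U, A.card = n → n ≤ a0 → ∀ G : SimpleGraph ℕ,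
      (∀ v ∈ A, dg A G v ≤ β + 1) → ∀ q : ℕ,
      n * (g + β * (β + 1)) < (q + 1) * (β * g) + β * ed A G → nI A G ≤ bs n q * X := by
  classical
  intro n
  induction n using Nat.strong_induction_on with
  | _ n ih =>
  intro A hAU hc hn G hdeg q hΦ
  rcases Nat.lt_or_ge A.card s with hlt | hge
  · calc nI A G ≤ nI A ⊥ := nI_le_bot A G
      _ ≤ X := hbase A hAU hlt
      _ ≤ bs n q * X := Nat.le_mul_of_pos_left _ (bs_pos n q)
  have hn1 : 1 ≤ n := by omega
  have hne : A.Nonempty := by rw [← card_pos]; omega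
  set K := g + β * (β + 1) with hK
  -- conclusion from a right state
  have fin : ∀ (v : ℕ) (A' : Finset ℕ) (G' : SimpleGraph ℕ), v ∈ A → A' ⊆ A.erase v →
      (∀ w ∈ A', dg A' G' w ≤ β + 1) →
      A'.card * K + β * g < (q + 1) * (β * g) + β * ed A' G' →
      nI A G ≤ nI (A.erase v) G + nI A' G' →
      nI A G ≤ bs n q * X := by
    intro v A' G' hv hA' hdeg' hΦ' hsplit
    have hce : (A.erase v).card = n - 1 := by rw [card_erase_of_mem hv, hc]
    -- left
    have hl : nI (A.erase v) G ≤ bs (n - 1) q * X := by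
      exact ih (n - 1) (by omega) (A.erase v) ((erase_subset _ _).trans hAU) hce (by omega) G
        (fun w hw => (dg_mono (erase_subset _ _) G w).trans (hdeg w (mem_of_mem_erase hw))) q (by
          have h1 := ed_le_sdiff A {v} G
          rw [sum_singleton, sdiff_singleton_eq_erase] at h1
          have h3 := hdeg v hv
          have h4 : β * ed A G ≤ β * (ed (A.erase v) G + (β + 1)) :=
            Nat.mul_le_mul_left _ (by omega)
          have h5 : n * K = (n - 1) * K + K := by
            obtain ⟨m, rfl⟩ : ∃ m, n = m + 1 := ⟨n - 1, by omega⟩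
            rw [Nat.add_sub_cancel]; ring
          rw [Nat.mul_add] at h4
          omega)
    have hcA' : A'.card ≤ n - 1 := hce ▸ card_le_card hA'
    -- `q ≥ 1`
    have hq : 1 ≤ q := by
      by_contra hq0
      have : q = 0 := by omega
      subst this
      have h3 := ed_le_mul A' G' (β + 1) hdeg'
      have h4 : β * ed A' G' ≤ β * (A'.card * (β + 1)) := Nat.mul_le_mul_left _ h3
      have h5 : A'.card * K = A'.card * g + β * (A'.card * (β + 1)) := by rw [hK]; ring
      omega
    obtain ⟨q', rfl⟩ : ∃ q', q = q' + 1 := ⟨q - 1, by omega⟩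
    have hr : nI A' G' ≤ bs (n - 1) q' * X := by
      have := ih A'.card (by omega) A' (hA'.trans ((erase_subset _ _).trans hAU)) rfl (by omega) G'
        hdeg' q' (by
          have : (q' + 1 + 1) * (β * g) = (q' + 1) * (β * g) + β * g := by ring
          omega)
      exact this.trans (Nat.mul_le_mul_right _ (bs_mono q' hcA'))
    calc nI A G ≤ nI (A.erase v) G + nI A' G' := hsplit
      _ ≤ bs (n - 1) (q' + 1) * X + bs (n - 1) q' * X := Nat.add_le_add hl hr
      _ = bs n (q' + 1) * X := by
        obtain ⟨m, rfl⟩ : ∃ m, n = m + 1 := ⟨n - 1, by omega⟩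
        rw [Nat.add_sub_cancel, bs_succ]
        ring
  by_cases hbig : ∃ v ∈ A, β ≤ dg A G v
  · -- type 1
    obtain ⟨v, hv, hvd⟩ := hbig
    set Nv := dgS A G v with hNv
    set R := insert v Nv with hR
    have hvN : v ∉ Nv := by
      rw [hNv, mem_dgS]
      rintro ⟨-, h⟩
      exact G.loopless.irrefl _ h
    have hRc : R.card = Nv.card + 1 := card_insert_of_notMem hvN
    have hRA : R ⊆ A := insert_subset hv (by
      intro w hw
      rw [hNv, mem_dgS] at hw
      exact hw.1)
    have hNvc : β ≤ Nv.card := by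
      have : dg A G v = Nv.card := by unfold dg; rfl
      omega
    refine fin v (A \ R) G hv ?_ ?_ ?_ ?_
    · intro w hw
      rw [mem_sdiff, hR, mem_insert, not_or] at hw
      exact mem_erase.2 ⟨hw.2.1, hw.1⟩
    · intro w hw
      exact (dg_mono sdiff_subset G w).trans (hdeg w (mem_sdiff.1 hw).1)
    · have h1 := ed_le_sdiff A R G
      have h3 : ∑ u ∈ R, dg A G u ≤ R.card * (β + 1) := by
        rw [← smul_eq_mul, ← sum_const]
        exact sum_le_sum (fun u hu => hdeg u (hRA hu))
      have h4 : (A \ R).card = n - R.card := by rw [card_sdiff_of_subset hRA, hc]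
      have h5 : R.card ≤ n := hc ▸ card_le_card hRA
      rw [h4]
      have h6 : n * K = (n - R.card) * K + R.card * K := by
        rw [← Nat.add_mul]; congr 1; omega
      have h7 : β * ed A G ≤ β * (ed (A \ R) G + R.card * (β + 1)) :=
        Nat.mul_le_mul_left _ (by omega)
      have h8 : R.card * K = R.card * g + β * (R.card * (β + 1)) := by rw [hK]; ring
      have h9 : β * g ≤ R.card * g := Nat.mul_le_mul_right _ (by omega)
      rw [Nat.mul_add] at h7
      omega
    · apply nI_split
      intro I hIA hvI hIf hIi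
      refine ⟨?_, ?_⟩
      · intro w hw
        rw [mem_erase] at hw
        rw [mem_sdiff, hR, mem_insert, not_or]
        refine ⟨hIA hw.2, hw.1, ?_⟩
        rw [hNv, mem_dgS]
        rintro ⟨-, h⟩
        exact hIi v hvI w hw.2 h
      · intro y hy z hz
        exact hIi y (mem_of_mem_erase hy) z (mem_of_mem_erase hz)
  · -- type 2
    push Not at hbig
    obtain ⟨v, hv, hnew⟩ := exists_new (by omega) hne (hsat A hAU hge) h2 hg hbig
    refine fin v (A.erase v) (G ⊔ lk v) hv (Subset.refl _) ?_ ?_ ?_
    · intro w hw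
      have h1 := dg_sup_lk A G v w
      have h3 := hbig w (mem_of_mem_erase hw)
      omega
    · have h1 := ed_le_sdiff A {v} G
      rw [sum_singleton, sdiff_singleton_eq_erase] at h1
      have h3 := hbig v hv
      have h4 : β * (ed A G + g) ≤ β * (ed (A.erase v) (G ⊔ lk v) + (β + 1)) :=
        Nat.mul_le_mul_left _ (by omega)
      have h5 : n * K = (n - 1) * K + K := by
        obtain ⟨m, rfl⟩ : ∃ m, n = m + 1 := ⟨n - 1, by omega⟩
        rw [Nat.add_sub_cancel]; ring
      have hce : (A.erase v).card = n - 1 := by rw [card_erase_of_mem hv, hc]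
      rw [hce]
      rw [Nat.mul_add, Nat.mul_add] at h4
      omega
    · apply nI_split
      intro I hIA hvI hIf hIi
      refine ⟨?_, ?_⟩
      · intro w hw
        rw [mem_erase] at hw
        exact mem_erase.2 ⟨hw.1, hIA hw.2⟩
      · intro y hy z hz hyz
        rw [SimpleGraph.sup_adj] at hyz
        rcases hyz with h | h
        · exact hIi y (mem_of_mem_erase hy) z (mem_of_mem_erase hz) h
        · simp only [lk] at h
          rcases h with ⟨h1, h2, h3⟩ | ⟨h1, h2, h3⟩
          · refine hIf v (y - v) (by omega) ⟨hvI, ?_, ?_⟩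
            · have : v + (y - v) = y := by omega
              rw [this]; exact mem_of_mem_erase hy
            · have : v + 2 * (y - v) = z := by omega
              rw [this]; exact mem_of_mem_erase hz
          · refine hIf v (z - v) (by omega) ⟨hvI, ?_, ?_⟩
            · have : v + (z - v) = z := by omega
              rw [this]; exact mem_of_mem_erase hz
            · have : v + 2 * (z - v) = y := by omega
              rw [this]; exact mem_of_mem_erase hy

end Pool.Agent.MP_0f71ae_nt.Cnt
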