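import Pool.Agent.MP_0f71ae_nt.RegBase

/-!
# Definitions: progressions in a set, the number of progression-free sets, regular `N`
-/

set_option autoImplicit false

namespace Pool.Agent.MP_0f71ae_nt.Cnt

open Finset Pool.Agent.MP_0f71ae_nt.Reg

/-- The three-term progressions `x < y < 2y - x` in `A`, recorded by their first two terms. -/
def aps (A : Finset ℕ) : Finset (ℕ × ℕ) :=
  (A ×ˢ A).filter (fun p => p.1 < p.2 ∧ 2 * p.2 - p.1 ∈ A)

open Classical in
/-- The number of subsets of `{1, …, N}` which contain no progression `a, a + d, a + 2d`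
with `d ≥ 1`. -/
noncomputable def apCount (N : ℕ) : ℕ :=
  ((Finset.Icc 1 N).powerset.filter (fun A => APFree A)).card

/-- `r₃` is almost linear on `[N / L, L N]`. -/
def LinAt (ε L : ℝ) (N : ℕ) : Prop :=
  ∀ x : ℝ, 1 / L ≤ x → x ≤ L → |(r3 ⌊x * N⌋₊ : ℝ) - x * r3 N| ≤ ε * (x * r3 N)

/-- `N` is regular: `r₃` is almost linear on `[N / L, L N]`, every subset of `{1, …, N}` slightly
larger than `r₃(N)` contains at least `L r₃(N)` progressions, and there are at most
`2 ^ ((1 + ε) r₃(N))` progression-free subsets. -/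
def Regular (ε L : ℝ) (N : ℕ) : Prop :=
  LinAt ε L N ∧
  (∀ A ⊆ Finset.Icc 1 N, (1 + ε) * r3 N ≤ A.card → L * r3 N ≤ (aps A).card) ∧
  (apCount N : ℝ) ≤ (2 : ℝ) ^ ((1 + ε) * (r3 N : ℝ))

open Classical in
/-- The integers `k` in `[a, a + K)` such that `P N` fails for some `N` in
`[2 ^ k, 2 ^ (k + 1))`. -/
noncomputable def badScales (P : ℕ → Prop) (a K : ℕ) : Finset ℕ :=
  (Finset.Ico a (a + K)).filter (fun k => ¬ ∀ N : ℕ, 2 ^ k ≤ N → N < 2 ^ (k + 1) → P N)

end Pool.Agent.MP_0f71ae_nt.Cnt
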