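import Pool.Agent.MP_0f71ae_nt.Cnt.Zp
import Pool.Agent.MP_0f71ae_nt.Cnt.Cont2
import Pool.Agent.MP_0f71ae_nt.Cnt.All

/-!
# Supersaturation and counting for every `N`
-/

set_option autoImplicit false

namespace Pool.Agent.MP_0f71ae_nt.Cnt

open Finset Pool.Agent.MP_0f71ae_nt.Reg

/-- Supersaturation for every `N`: a subset of `{1, …, N}` with at least
`32 exp (4 √(log L)) r₃(N)` elements contains at least `L |A|` progressions. -/
theorem sat_every (N L : ℕ) (hL : 1 ≤ L) (A : Finset ℕ) (hA : A ⊆ Icc 1 N)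
    (h : 32 * Real.exp (4 * √(Real.log L)) * r3 N ≤ A.card) : L * A.card ≤ (aps A).card := by
  have hcA : A.card ≤ N := by
    have := card_le_card hA
    simpa using this
  rcases Nat.eq_zero_or_pos N with hN0 | hN
  · subst hN0
    have : A.card = 0 := by omega
    rw [this]; simp
  rcases Nat.lt_or_ge N L with hlt | hge
  · exfalso
    have hb := behrend N
    have hN' : (1 : ℝ) ≤ N := by exact_mod_cast hN
    have h1 : √(Real.log N) ≤ √(Real.log L) := by
      apply Real.sqrt_le_sqrt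
      apply Real.log_le_log (by linarith)
      exact_mod_cast hlt.le
    have h2 : Real.exp (4 * √(Real.log N)) ≤ Real.exp (4 * √(Real.log L)) :=
      Real.exp_le_exp.2 (by linarith)
    have h3 : (N : ℝ) ≤ Real.exp (4 * √(Real.log N)) * r3 N := by
      have e : Real.exp (4 * √(Real.log N)) * Real.exp (-4 * √(Real.log N)) = 1 := by
        rw [← Real.exp_add]; simp
      calc (N : ℝ) = Real.exp (4 * √(Real.log N)) * (N * Real.exp (-4 * √(Real.log N))) := by
            calc (N : ℝ) = N * 1 := (mul_one _).symm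
              _ = N * (Real.exp (4 * √(Real.log N)) * Real.exp (-4 * √(Real.log N))) := by rw [e]
              _ = _ := by ring
        _ ≤ _ := mul_le_mul_of_nonneg_left hb (Real.exp_pos _).le
    have h4 : Real.exp (4 * √(Real.log N)) * r3 N ≤ Real.exp (4 * √(Real.log L)) * r3 N :=
      mul_le_mul_of_nonneg_right h2 (Nat.cast_nonneg _)
    have h5 : (A.card : ℝ) ≤ N := by exact_mod_cast hcA
    have h6 : 32 * Real.exp (4 * √(Real.log L)) * r3 N =
        32 * (Real.exp (4 * √(Real.log L)) * r3 N) := by ring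
    rw [h6] at h
    linarith
  · have hM1 : 1 ≤ N / L := Nat.div_pos hge (by omega)
    have hML : N / L ≤ N := Nat.div_le_self _ _
    have hs := r3_scale N L hL hge
    have h1 : 8 * (N * r3 (N / L)) ≤ (N / L) * A.card := by
      have h2 : (8 : ℝ) * (N * r3 (N / L)) ≤ (N / L : ℕ) * A.card := by
        calc (8 : ℝ) * (N * r3 (N / L))
            ≤ 8 * ((N / L : ℕ) * (4 * Real.exp (4 * √(Real.log L)) * r3 N)) :=
              mul_le_mul_of_nonneg_left hs (by norm_num)
          _ = (N / L : ℕ) * (32 * Real.exp (4 * √(Real.log L)) * r3 N) := by ring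
          _ ≤ (N / L : ℕ) * A.card := mul_le_mul_of_nonneg_left h (Nat.cast_nonneg _)
      exact_mod_cast h2
    have h2 := supersat_prime N (N / L) hN hM1 hML A hA h1
    have h3 : L * (N / L) ≤ N := Nat.mul_div_le N L
    have h4 : (N / L) * (L * A.card) ≤ (N / L) * (aps A).card := by
      calc (N / L) * (L * A.card) = (L * (N / L)) * A.card := by ring
        _ ≤ N * A.card := Nat.mul_le_mul_right _ h3
        _ ≤ _ := h2
    exact Nat.le_of_mul_le_mul_left h4 (by omega)

/-- One round. -/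
theorem round_b (b i s0 : ℕ) (hb : 1 ≤ b) :
    (bs (2 ^ (i + 1) * s0) (4 * 2 ^ i * s0 / (b * 4 ^ i)) : ℝ) ≤
      Real.exp (s0 / b * ((2 + 4 * Real.log b + 4 * Real.log 4 * i) / 2 ^ i)) := by
  set q := 4 * 2 ^ i * s0 / (b * 4 ^ i) with hq
  set n := 2 ^ (i + 1) * s0 with hn
  have hb1 : (1 : ℝ) ≤ b := by exact_mod_cast hb
  have hb0 : (0 : ℝ) < b := by linarith
  set z : ℝ := b * 4 ^ i with hz
  have hz1 : 1 ≤ z := by
    have : (1 : ℝ) ≤ 4 ^ i := one_le_pow₀ (by norm_num)
    nlinarith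
  set x : ℝ := 1 / z with hx
  have hx0 : 0 < x := by positivity
  have hx1 : x ≤ 1 := by rw [hx, div_le_one (by linarith)]; exact hz1
  have h1 := bs_le n q x hx0.le hx1
  have h2 : (1 + x) ^ n ≤ Real.exp (n * x) := by
    calc (1 + x) ^ n ≤ (Real.exp x) ^ n := by
          apply pow_le_pow_left₀ (by linarith)
          have := Real.add_one_le_exp x
          linarith
      _ = Real.exp (n * x) := by rw [← Real.exp_nat_mul]
  have e2 : (2 : ℝ) ^ i * 2 ^ i = 4 ^ i := by rw [← mul_pow]; norm_num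
  have hnx : (n : ℝ) * x = 2 * (s0 / b / 2 ^ i) := by
    rw [hn, hx, hz, ← e2]
    push_cast
    rw [pow_succ]
    field_simp
  have hqle : (q : ℝ) ≤ 4 * (s0 / b / 2 ^ i) := by
    have h3 : (b * 4 ^ i) * q ≤ 4 * 2 ^ i * s0 := Nat.mul_div_le _ _
    have h4 : (b * (4 : ℝ) ^ i) * q ≤ 4 * 2 ^ i * s0 := by exact_mod_cast h3
    rw [← e2] at h4
    have h5 : (b * (2 : ℝ) ^ i * 2 ^ i) * q ≤ (b * (2 : ℝ) ^ i * 2 ^ i) * (4 * (s0 / b / 2 ^ i)) := by
      have e : (b * (2 : ℝ) ^ i * 2 ^ i) * (4 * (s0 / b / 2 ^ i)) = 4 * 2 ^ i * s0 := by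
        field_simp
      rw [e]
      linarith
    exact le_of_mul_le_mul_left h5 (by positivity)
  have h3 : (bs n q : ℝ) ≤ Real.exp (n * x) * z ^ q := by
    have h4 : x ^ q * z ^ q = 1 := by
      rw [← mul_pow, hx, one_div_mul_cancel (by linarith), one_pow]
    calc (bs n q : ℝ) = ((bs n q : ℝ) * x ^ q) * z ^ q := by
          rw [mul_assoc, h4, mul_one]
      _ ≤ Real.exp (n * x) * z ^ q :=
          mul_le_mul_of_nonneg_right (h1.trans h2) (by positivity)
  refine h3.trans ?_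
  have h4 : z ^ q = Real.exp (q * Real.log z) := by
    rw [Real.exp_nat_mul, Real.exp_log (by linarith)]
  rw [h4, ← Real.exp_add]
  apply Real.exp_le_exp.2
  have hlz : Real.log z = Real.log b + i * Real.log 4 := by
    rw [hz, Real.log_mul hb0.ne' (by positivity), Real.log_pow]
  have hlz0 : 0 ≤ Real.log z := Real.log_nonneg hz1
  have h5 : (q : ℝ) * Real.log z ≤ 4 * (s0 / b / 2 ^ i) * (Real.log b + i * Real.log 4) := by
    rw [← hlz]
    exact mul_le_mul_of_nonneg_right hqle hlz0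
  rw [hnx]
  have h6 : (s0 : ℝ) / b * ((2 + 4 * Real.log b + 4 * Real.log 4 * i) / 2 ^ i) =
      2 * (s0 / b / 2 ^ i) + 4 * (s0 / b / 2 ^ i) * (Real.log b + i * Real.log 4) := by ring
  rw [h6]
  linarith

theorem rounds_b (N s0 b : ℕ) (X0 : ℝ) (hs0 : 1 ≤ s0) (hb : 1 ≤ b)
    (hbase : ∀ A ⊆ Icc 1 N, A.card < s0 → (nI A ⊥ : ℝ) ≤ X0)
    (hsat : ∀ i : ℕ, ∀ A ⊆ Icc 1 N, 2 ^ i * s0 ≤ A.card →
      4 * ((b * 4 ^ i) * (b * 4 ^ i + 1)) * (2 ^ i * s0) ≤ (aps A).card) (i : ℕ) :
    ∀ A ⊆ Icc 1 N, A.card < 2 ^ i * s0 →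
      (nI A ⊥ : ℝ) ≤ Real.exp (s0 / b * ((4 + 8 * Real.log b + 8 * Real.log 4) -
        (4 + 8 * Real.log b + 8 * Real.log 4 * (i + 1)) / 2 ^ i)) * X0 := by
  have hX0 : 0 ≤ X0 := (Nat.cast_nonneg _).trans (hbase ∅ (empty_subset _)
    (by rw [card_empty]; omega))
  induction i with
  | zero =>
    intro A hA hc
    rw [pow_zero, one_mul] at hc
    refine (hbase A hA hc).trans ?_
    apply le_mul_of_one_le_left hX0
    apply Real.one_le_exp
    norm_num
  | succ i ih =>
    intro A hA hc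
    set F : ℝ := Real.exp (s0 / b * ((4 + 8 * Real.log b + 8 * Real.log 4) -
        (4 + 8 * Real.log b + 8 * Real.log 4 * (i + 1)) / 2 ^ i)) * X0 with hF
    have hF0 : 0 ≤ F := by positivity
    set β := b * 4 ^ i with hβ
    have hβ1 : 1 ≤ β := Nat.mul_pos hb (by positivity)
    set q := 4 * 2 ^ i * s0 / β with hq
    have key := recursion_bs (Icc 1 N) (2 ^ i * s0) (2 * 2 ^ i * s0) β (β * (β + 1))
      (4 * (β * (β + 1)) * (2 ^ i * s0)) ⌊F⌋₊
      (Nat.mul_pos Nat.one_le_two_pow hs0)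
      (by
        intro A hA hc
        exact Nat.le_floor (ih A hA hc))
      (hsat i)
      (by
        have h1 : 2 * (2 * 2 ^ i * s0) * β = 4 * β * (2 ^ i * s0) := by ring
        rw [h1]
        apply Nat.mul_le_mul_right
        apply Nat.mul_le_mul_left
        exact Nat.le_mul_of_pos_right _ (Nat.succ_pos _))
      (by
        apply le_of_eq
        ring)
      A.card A hA rfl (by
        have : 2 ^ (i + 1) * s0 = 2 * 2 ^ i * s0 := by rw [pow_succ]; ring
        omega) ⊥ (by intro v _; rw [dg_bot]; exact Nat.zero_le _) q (by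
        have h1 : 4 * 2 ^ i * s0 < (q + 1) * β := by
          rw [hq]
          have := Nat.lt_div_mul_add (a := 4 * 2 ^ i * s0) (b := β) (by omega)
          rw [Nat.add_mul, one_mul]
          exact this
        have h2 : 2 * A.card ≤ 4 * 2 ^ i * s0 := by
          rw [pow_succ] at hc
          have : 4 * 2 ^ i * s0 = 2 * (2 ^ i * 2 * s0) := by ring
          omega
        have hG : 0 < β * (β + 1) := by positivity
        have h3 : (2 * A.card) * (β * (β + 1)) < ((q + 1) * β) * (β * (β + 1)) :=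
          Nat.mul_lt_mul_of_pos_right (by omega) hG
        have h4 : A.card * (β * (β + 1) + β * (β + 1)) = (2 * A.card) * (β * (β + 1)) := by ring
        have h5 : (q + 1) * (β * (β * (β + 1))) = ((q + 1) * β) * (β * (β + 1)) := by ring
        rw [h4, h5]
        omega)
    have h1 : (nI A ⊥ : ℝ) ≤ (bs (2 ^ (i + 1) * s0) q : ℝ) * F := by
      calc (nI A ⊥ : ℝ) ≤ ((bs A.card q * ⌊F⌋₊ : ℕ) : ℝ) := by exact_mod_cast key
        _ = (bs A.card q : ℝ) * (⌊F⌋₊ : ℝ) := by push_cast; rfl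
        _ ≤ (bs (2 ^ (i + 1) * s0) q : ℝ) * F := by
            apply mul_le_mul _ (Nat.floor_le hF0) (Nat.cast_nonneg _) (Nat.cast_nonneg _)
            exact_mod_cast bs_mono q hc.le
    have h2 := round_b b i s0 hb
    rw [← hβ, ← hq] at h2
    calc (nI A ⊥ : ℝ) ≤ (bs (2 ^ (i + 1) * s0) q : ℝ) * F := h1
      _ ≤ Real.exp (s0 / b * ((2 + 4 * Real.log b + 4 * Real.log 4 * i) / 2 ^ i)) * F :=
          mul_le_mul_of_nonneg_right h2 hF0
      _ = _ := by
        rw [hF, ← mul_assoc, ← Real.exp_add]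
        congr 2
        rw [pow_succ]
        push_cast
        field_simp
        ring

/-- From supersaturation to counting. -/
theorem count_b (N s0 b : ℕ) (X0 : ℝ) (hs0 : 1 ≤ s0) (hb : 1 ≤ b)
    (hbase : ∀ A ⊆ Icc 1 N, A.card < s0 → (nI A ⊥ : ℝ) ≤ X0)
    (hsat : ∀ i : ℕ, ∀ A ⊆ Icc 1 N, 2 ^ i * s0 ≤ A.card →
      4 * ((b * 4 ^ i) * (b * 4 ^ i + 1)) * (2 ^ i * s0) ≤ (aps A).card) :
    (apCount N : ℝ) ≤ Real.exp (s0 / b * (4 + 8 * Real.log b + 8 * Real.log 4)) * X0 := by
  have hX0 : 0 ≤ X0 := (Nat.cast_nonneg _).trans (hbase ∅ (empty_subset _)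
    (by rw [card_empty]; omega))
  have h1 := rounds_b N s0 b X0 hs0 hb hbase hsat (Nat.log 2 N + 1) (Icc 1 N) (Subset.refl _) (by
    rw [Nat.card_Icc, Nat.add_sub_cancel]
    calc N < 2 ^ (Nat.log 2 N + 1) := Nat.lt_pow_succ_log_self (by norm_num) N
      _ ≤ 2 ^ (Nat.log 2 N + 1) * s0 := Nat.le_mul_of_pos_right _ hs0)
  rw [← apCount_eq] at h1
  refine h1.trans ?_
  apply mul_le_mul_of_nonneg_right _ hX0
  apply Real.exp_le_exp.2
  apply mul_le_mul_of_nonneg_left _ (by positivity)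
  have hb1 : (1 : ℝ) ≤ b := by exact_mod_cast hb
  have h2 : 0 ≤ Real.log b := Real.log_nonneg hb1
  have h3 : 0 ≤ Real.log 4 := Real.log_nonneg (by norm_num)
  have h4 : 0 ≤ (4 + 8 * Real.log b + 8 * Real.log 4 * ((Nat.log 2 N + 1 : ℕ) + 1)) /
      2 ^ (Nat.log 2 N + 1) := by positivity
  linarith

/-- The trivial bound for small sets: AP-free sets have at most `r₃(N)` elements. -/
theorem nI_le_bs (N : ℕ) (A : Finset ℕ) (hA : A ⊆ Icc 1 N) : nI A ⊥ ≤ bs A.card (r3 N) := by
  classical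
  unfold nI bs
  have h1 : A.powerset.filter (fun I => APFree I ∧ Ind ⊥ I) ⊆
      (range (r3 N + 1)).biUnion (fun j => A.powersetCard j) := by
    intro I hI
    rw [mem_filter, mem_powerset] at hI
    rw [mem_biUnion]
    refine ⟨I.card, ?_, ?_⟩
    · rw [mem_range]
      have := card_le_r3 (hI.1.trans hA) hI.2.1
      omega
    · rw [mem_powersetCard]
      exact ⟨hI.1, rfl⟩
  refine (card_le_card h1).trans (card_biUnion_le.trans ?_)
  apply le_of_eq
  exact sum_congr rfl (fun j _ => card_powersetCard j A)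

/-- `4 √y ≤ y / t + 4 t`. -/
theorem four_sqrt_le {y t : ℝ} (hy : 0 ≤ y) (ht : 0 < t) : 4 * √y ≤ y / t + 4 * t := by
  have h1 : √y * √y = y := Real.mul_self_sqrt hy
  rw [div_add' _ _ _ ht.ne', le_div_iff₀ ht]
  nlinarith [sq_nonneg (√y - 2 * t)]

/-- For every `N` the number of progression-free subsets of `{1, …, N}` is at most
`2 ^ (67 r₃(N))`. -/
theorem count_every (N : ℕ) : apCount N ≤ 2 ^ (67 * r3 N) := by
  rcases Nat.eq_zero_or_pos N with rfl | hN
  · have h1 : apCount 0 ≤ 1 := by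
      rw [apCount_eq]
      refine (nI_le_two_pow _ _).trans ?_
      simp
    exact h1.trans Nat.one_le_two_pow
  have hr : 1 ≤ r3 N := r3_pos hN
  have hr' : (0 : ℝ) < r3 N := by exact_mod_cast hr
  have hl2 := Real.log_two_gt_d9
  have hl2' := Real.log_two_lt_d9
  have h := count_b N (2 ^ 63 * r3 N) (2 ^ 71) (Real.exp (r3 N * (1 + 63 * Real.log 2)))
    (Nat.mul_pos (by positivity) hr) (by norm_num) (by
      intro A hA hc
      have h1 : (nI A ⊥ : ℝ) ≤ bs (2 ^ 63 * r3 N) (r3 N) := by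
        exact_mod_cast (nI_le_bs N A hA).trans (bs_mono _ hc.le)
      refine h1.trans ?_
      have h2 := bs_le (2 ^ 63 * r3 N) (r3 N) (1 / 2 ^ 63) (by positivity) (by norm_num)
      have h3 : (1 + 1 / 2 ^ 63 : ℝ) ^ (2 ^ 63 * r3 N) ≤ Real.exp (r3 N) := by
        calc (1 + 1 / 2 ^ 63 : ℝ) ^ (2 ^ 63 * r3 N) ≤ (Real.exp (1 / 2 ^ 63)) ^ (2 ^ 63 * r3 N) := by
              apply pow_le_pow_left₀ (by positivity)
              have := Real.add_one_le_exp (1 / 2 ^ 63 : ℝ)
              linarith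
          _ = Real.exp (r3 N) := by
              rw [← Real.exp_nat_mul]
              congr 1
              push_cast
              field_simp
              norm_num
      have h4 : ((2 : ℝ) ^ 63) ^ (r3 N) = Real.exp (r3 N * (63 * Real.log 2)) := by
        rw [← pow_mul]
        have : (2 : ℝ) ^ (63 * r3 N) = Real.exp ((63 * r3 N : ℕ) * Real.log 2) := by
          rw [Real.exp_nat_mul, Real.exp_log (by norm_num)]
        rw [this]
        congr 1
        push_cast
        ring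
      have h5 : (1 / 2 ^ 63 : ℝ) ^ (r3 N) * ((2 : ℝ) ^ 63) ^ (r3 N) = 1 := by
        rw [← mul_pow, one_div_mul_cancel (by positivity), one_pow]
      calc (bs (2 ^ 63 * r3 N) (r3 N) : ℝ)
          = ((bs (2 ^ 63 * r3 N) (r3 N) : ℝ) * (1 / 2 ^ 63 : ℝ) ^ (r3 N)) *
              ((2 : ℝ) ^ 63) ^ (r3 N) := by rw [mul_assoc, h5, mul_one]
        _ ≤ Real.exp (r3 N) * ((2 : ℝ) ^ 63) ^ (r3 N) :=
            mul_le_mul_of_nonneg_right (h2.trans h3) (by positivity)
        _ = _ := by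
            rw [h4, ← Real.exp_add]
            congr 1
            ring) (by
    intro i A hA hc
    have h1 : (8 * 2 ^ (142 + 4 * i)) * A.card ≤ (aps A).card := by
      apply sat_every N (8 * 2 ^ (142 + 4 * i)) (by
        have : 0 < 2 ^ (142 + 4 * i) := by positivity
        omega) A hA
      have h2 : (2 : ℝ) ^ i * (2 ^ 63 * r3 N) ≤ A.card := by exact_mod_cast hc
      refine le_trans ?_ h2
      have h3 : 32 * Real.exp (4 * √(Real.log ((8 * 2 ^ (142 + 4 * i) : ℕ) : ℝ))) ≤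
          2 ^ i * 2 ^ 63 := by
        have h4 : Real.log ((8 * 2 ^ (142 + 4 * i) : ℕ) : ℝ) = (145 + 4 * i) * Real.log 2 := by
          have : ((8 * 2 ^ (142 + 4 * i) : ℕ) : ℝ) = 2 ^ (145 + 4 * i) := by
            push_cast
            rw [show 145 + 4 * i = 3 + (142 + 4 * i) by ring, pow_add (2 : ℝ) 3]
            norm_num
          rw [this, Real.log_pow]
          push_cast
          ring
        rw [h4]
        have h5 := four_sqrt_le (y := (145 + 4 * i) * Real.log 2) (t := 5) (by positivity)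
          (by norm_num)
        have h6 : (145 + 4 * (i : ℝ)) * Real.log 2 / 5 + 4 * 5 ≤ (i + 58) * Real.log 2 := by
          have : (0 : ℝ) ≤ i := Nat.cast_nonneg _
          nlinarith
        have h7 : Real.exp (4 * √((145 + 4 * i) * Real.log 2)) ≤ 2 ^ (i + 58) := by
          have h8 : (2 : ℝ) ^ (i + 58) = Real.exp ((i + 58 : ℕ) * Real.log 2) := by
            rw [Real.exp_nat_mul, Real.exp_log (by norm_num)]
          rw [h8]
          apply Real.exp_le_exp.2
          push_cast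
          linarith
        calc 32 * Real.exp (4 * √((145 + 4 * i) * Real.log 2)) ≤ 32 * 2 ^ (i + 58) :=
              mul_le_mul_of_nonneg_left h7 (by norm_num)
          _ = 2 ^ i * 2 ^ 63 := by rw [pow_add]; ring
      calc 32 * Real.exp (4 * √(Real.log ((8 * 2 ^ (142 + 4 * i) : ℕ) : ℝ))) * r3 N
          ≤ (2 ^ i * 2 ^ 63) * r3 N := mul_le_mul_of_nonneg_right h3 (Nat.cast_nonneg _)
        _ = 2 ^ i * (2 ^ 63 * r3 N) := by ring
    refine le_trans ?_ h1
    apply Nat.mul_le_mul _ hc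
    set β := 2 ^ 71 * 4 ^ i with hβ
    have e1 : 2 ^ (142 + 4 * i) = β * β := by
      have e0 : (4 : ℕ) ^ i = 2 ^ (2 * i) := by rw [pow_mul]; norm_num
      rw [hβ, e0, ← pow_add, ← pow_add]
      congr 1
      ring
    have e2 : 1 ≤ β := Nat.mul_pos (by positivity) (by positivity)
    have e3 : β * 1 ≤ β * β := Nat.mul_le_mul_left _ e2
    rw [e1, Nat.mul_add]
    omega)
  have h2 : (apCount N : ℝ) ≤ ((2 ^ (67 * r3 N) : ℕ) : ℝ) := by
    refine h.trans ?_
    have h3 : ((2 ^ (67 * r3 N) : ℕ) : ℝ) = Real.exp ((67 * r3 N : ℕ) * Real.log 2) := by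
      push_cast
      rw [← Real.exp_log (show (0 : ℝ) < 2 by norm_num), ← Real.exp_nat_mul, Real.log_exp]
      push_cast
      ring_nf
    rw [h3, ← Real.exp_add]
    apply Real.exp_le_exp.2
    have h4 : Real.log ((2 ^ 71 : ℕ) : ℝ) = 71 * Real.log 2 := by
      rw [Nat.cast_pow, Nat.cast_ofNat, Real.log_pow]
      norm_num
    have h5 : Real.log 4 = 2 * Real.log 2 := by
      rw [show (4 : ℝ) = 2 ^ 2 by norm_num, Real.log_pow]; norm_num
    have h6 : ((2 ^ 63 * r3 N : ℕ) : ℝ) / ((2 ^ 71 : ℕ) : ℝ) = r3 N / 256 := by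
      push_cast
      field_simp
      norm_num
    rw [h4, h5, h6]
    push_cast
    have h7 : (r3 N : ℝ) / 256 * (4 + 8 * (71 * Real.log 2) + 8 * (2 * Real.log 2)) +
        r3 N * (1 + 63 * Real.log 2) = r3 N * ((4 + 584 * Real.log 2) / 256 + 1 + 63 * Real.log 2) := by
      ring
    have h8 : 67 * (r3 N : ℝ) * Real.log 2 = r3 N * (67 * Real.log 2) := by ring
    rw [h7, h8]
    apply mul_le_mul_of_nonneg_left _ hr'.le
    linarith
  exact_mod_cast h2

end Pool.Agent.MP_0f71ae_nt.Cnt
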