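import Pool.Agent.MP_0f71ae_nt.Cnt.Rounds

/-!
# Containers for sets without three-term progressions, from supersaturation
-/

set_option autoImplicit false

namespace Pool.Agent.MP_0f71ae_nt.Cnt

open Finset Pool.Agent.MP_0f71ae_nt.Reg

/-- At most `M` subsets of `A` of size at most `c` cover all progression-free subsets of `A` which
are independent in `G`. -/
def Cov (A : Finset ℕ) (G : SimpleGraph ℕ) (M c : ℕ) : Prop :=
  ∃ F : Finset (Finset ℕ), F.card ≤ M ∧ (∀ C ∈ F, C ⊆ A ∧ C.card ≤ c) ∧
    ∀ I ⊆ A, APFree I → Ind G I → ∃ C ∈ F, I ⊆ C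

theorem Cov.mono {A : Finset ℕ} {G : SimpleGraph ℕ} {M M' c c' : ℕ} (h : Cov A G M c)
    (hM : M ≤ M') (hc : c ≤ c') : Cov A G M' c' := by
  obtain ⟨F, h1, h2, h3⟩ := h
  exact ⟨F, h1.trans hM, fun C hC => ⟨(h2 C hC).1, (h2 C hC).2.trans hc⟩, h3⟩

theorem Cov.of_bot {A : Finset ℕ} {M c : ℕ} (h : Cov A ⊥ M c) (G : SimpleGraph ℕ) :
    Cov A G M c := by
  obtain ⟨F, h1, h2, h3⟩ := h
  exact ⟨F, h1, h2, fun I hI hf _ => h3 I hI hf (by intro y _ z _; simp)⟩

theorem cov_self (A : Finset ℕ) (G : SimpleGraph ℕ) : Cov A G 1 A.card :=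
  ⟨{A}, by simp, by simp, fun I hI _ _ => ⟨A, by simp, hI⟩⟩

theorem Cov.split {A A' : Finset ℕ} {G G' : SimpleGraph ℕ} {v M1 M2 c : ℕ} (hv : v ∈ A)
    (hA' : A' ⊆ A)
    (h : ∀ I ⊆ A, v ∈ I → APFree I → Ind G I → I.erase v ⊆ A' ∧ Ind G' (I.erase v))
    (h1 : Cov (A.erase v) G M1 (c + 1)) (h2 : Cov A' G' M2 c) : Cov A G (M1 + M2) (c + 1) := by
  classical
  obtain ⟨F1, a1, a2, a3⟩ := h1
  obtain ⟨F2, b1, b2, b3⟩ := h2
  refine ⟨F1 ∪ F2.image (fun C => insert v C), ?_, ?_, ?_⟩
  · exact (card_union_le _ _).trans (Nat.add_le_add a1 (card_image_le.trans b1))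
  · intro C hC
    rw [mem_union, mem_image] at hC
    rcases hC with hC | ⟨D, hD, rfl⟩
    · exact ⟨(a2 C hC).1.trans (erase_subset _ _), (a2 C hC).2⟩
    · refine ⟨insert_subset hv ((b2 D hD).1.trans hA'), ?_⟩
      exact (card_insert_le _ _).trans (Nat.succ_le_succ (b2 D hD).2)
  · intro I hI hf hi
    by_cases hvI : v ∈ I
    · obtain ⟨h4, h5⟩ := h I hI hvI hf hi
      obtain ⟨C, hC, hIC⟩ := b3 (I.erase v) h4
        (fun a d hd hh => hf a d hd ⟨mem_of_mem_erase hh.1, mem_of_mem_erase hh.2.1,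
          mem_of_mem_erase hh.2.2⟩) h5
      refine ⟨insert v C, mem_union_right _ (mem_image.2 ⟨C, hC, rfl⟩), ?_⟩
      intro w hw
      rw [mem_insert]
      by_cases hwv : w = v
      · exact Or.inl hwv
      · exact Or.inr (hIC (mem_erase.2 ⟨hwv, hw⟩))
    · obtain ⟨C, hC, hIC⟩ := a3 I (subset_erase.2 ⟨hI, hvI⟩) hf hi
      exact ⟨C, mem_union_left _ hC, hIC⟩

/-- The recursion. -/
theorem recursion_cov (U : Finset ℕ) (s a0 β g e0 X c0 : ℕ) (hs : 1 ≤ s)
    (hbase : ∀ A ⊆ U, A.card < s → Cov A ⊥ X c0)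
    (hsat : ∀ A ⊆ U, s ≤ A.card → e0 ≤ (aps A).card)
    (h2 : 2 * a0 * β ≤ e0) (hg : 2 * g * a0 ≤ e0) :
    ∀ n : ℕ, ∀ A ⊆ U, A.card = n → n ≤ a0 → ∀ G : SimpleGraph ℕ,
      (∀ v ∈ A, dg A G v ≤ β + 1) → ∀ q : ℕ,
      n * (g + β * (β + 1)) < (q + 1) * (β * g) + β * ed A G →
      Cov A G ((n + 1) ^ q * X) (c0 + q) := by
  classical
  intro n
  induction n using Nat.strong_induction_on with
  | _ n ih =>
  intro A hAU hc hn G hdeg q hΦ
  rcases Nat.lt_or_ge A.card s with hlt | hge
  · exact ((hbase A hAU hlt).of_bot G).mono (Nat.le_mul_of_pos_left _ (by positivity)) (by omega)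
  have hn1 : 1 ≤ n := by omega
  have hne : A.Nonempty := by rw [← card_pos]; omega
  set K := g + β * (β + 1) with hK
  -- conclusion from a right state
  have fin : ∀ (v : ℕ) (A' : Finset ℕ) (G' : SimpleGraph ℕ), v ∈ A → A' ⊆ A.erase v →
      (∀ w ∈ A', dg A' G' w ≤ β + 1) →
      A'.card * K + β * g < (q + 1) * (β * g) + β * ed A' G' →
      (∀ I ⊆ A, v ∈ I → APFree I → Ind G I → I.erase v ⊆ A' ∧ Ind G' (I.erase v)) →
      Cov A G ((n + 1) ^ q * X) (c0 + q) := by
    intro v A' G' hv hA' hdeg' hΦ' hsplit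
    have hce : (A.erase v).card = n - 1 := by rw [card_erase_of_mem hv, hc]
    -- left
    have hl : Cov (A.erase v) G (n ^ q * X) (c0 + q) := by
      have := ih (n - 1) (by omega) (A.erase v) ((erase_subset _ _).trans hAU) hce (by omega) G
        (fun w hw => (dg_mono (erase_subset _ _) G w).trans (hdeg w (mem_of_mem_erase hw))) q (by
          have h1 := ed_le_sdiff A {v} G
          rw [sum_singleton, sdiff_singleton_eq_erase] at h1
          have h3 := hdeg v hv
          have h4 : β * ed A G ≤ β * (ed (A.erase v) G + (β + 1)) :=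
            Nat.mul_le_mul_left _ (by omega)
          have h5 : n * K = (n - 1) * K + K := by
            obtain ⟨m, rfl⟩ : ∃ m, n = m + 1 := ⟨n - 1, by omega⟩
            rw [Nat.add_sub_cancel]; ring
          rw [Nat.mul_add] at h4
          omega)
      have e : n - 1 + 1 = n := by omega
      rw [e] at this
      exact this
    have hcA' : A'.card ≤ n - 1 := hce ▸ card_le_card hA'
    -- `q ≥ 1`
    have hq : 1 ≤ q := by
      by_contra hq0
      have : q = 0 := by omega
      subst this
      have h3 := ed_le_mul A' G' (β + 1) hdeg'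
      have h4 : β * ed A' G' ≤ β * (A'.card * (β + 1)) := Nat.mul_le_mul_left _ h3
      have h5 : A'.card * K = A'.card * g + β * (A'.card * (β + 1)) := by rw [hK]; ring
      omega
    obtain ⟨q', rfl⟩ : ∃ q', q = q' + 1 := ⟨q - 1, by omega⟩
    have hr : Cov A' G' (n ^ q' * X) (c0 + q') := by
      have := ih A'.card (by omega) A' (hA'.trans ((erase_subset _ _).trans hAU)) rfl (by omega) G'
        hdeg' q' (by
          have : (q' + 1 + 1) * (β * g) = (q' + 1) * (β * g) + β * g := by ring
          omega)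
      exact this.mono (Nat.mul_le_mul_right _ (Nat.pow_le_pow_left (by omega) _)) le_rfl
    have hAA' : A' ⊆ A := hA'.trans (erase_subset _ _)
    refine (Cov.split (c := c0 + q') hv hAA' hsplit hl hr).mono ?_ le_rfl
    calc n ^ (q' + 1) * X + n ^ q' * X = n ^ q' * (n + 1) * X := by ring
      _ ≤ (n + 1) ^ q' * (n + 1) * X := by
        apply Nat.mul_le_mul_right
        apply Nat.mul_le_mul_right
        exact Nat.pow_le_pow_left (by omega) _
      _ = (n + 1) ^ (q' + 1) * X := by ring
  by_cases hbig : ∃ v ∈ A, β ≤ dg A G v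
  · -- type 1
    obtain ⟨v, hv, hvd⟩ := hbig
    set Nv := dgS A G v with hNv
    set R := insert v Nv with hR
    have hvN : v ∉ Nv := by
      rw [hNv, mem_dgS]
      rintro ⟨-, h⟩
      exact G.loopless.irrefl _ h
    have hRc : R.card = Nv.card + 1 := card_insert_of_notMem hvN
    have hRA : R ⊆ A := insert_subset hv (by
      intro w hw
      rw [hNv, mem_dgS] at hw
      exact hw.1)
    have hNvc : β ≤ Nv.card := by
      have : dg A G v = Nv.card := by unfold dg; rfl
      omega
    refine fin v (A \ R) G hv ?_ ?_ ?_ ?_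
    · intro w hw
      rw [mem_sdiff, hR, mem_insert, not_or] at hw
      exact mem_erase.2 ⟨hw.2.1, hw.1⟩
    · intro w hw
      exact (dg_mono sdiff_subset G w).trans (hdeg w (mem_sdiff.1 hw).1)
    · have h1 := ed_le_sdiff A R G
      have h3 : ∑ u ∈ R, dg A G u ≤ R.card * (β + 1) := by
        rw [← smul_eq_mul, ← sum_const]
        exact sum_le_sum (fun u hu => hdeg u (hRA hu))
      have h4 : (A \ R).card = n - R.card := by rw [card_sdiff_of_subset hRA, hc]
      have h5 : R.card ≤ n := hc ▸ card_le_card hRA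
      rw [h4]
      have h6 : n * K = (n - R.card) * K + R.card * K := by
        rw [← Nat.add_mul]; congr 1; omega
      have h7 : β * ed A G ≤ β * (ed (A \ R) G + R.card * (β + 1)) :=
        Nat.mul_le_mul_left _ (by omega)
      have h8 : R.card * K = R.card * g + β * (R.card * (β + 1)) := by rw [hK]; ring
      have h9 : β * g ≤ R.card * g := Nat.mul_le_mul_right _ (by omega)
      rw [Nat.mul_add] at h7
      omega
    · intro I hIA hvI hIf hIi
      refine ⟨?_, ?_⟩
      · intro w hw
        rw [mem_erase] at hw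
        rw [mem_sdiff, hR, mem_insert, not_or]
        refine ⟨hIA hw.2, hw.1, ?_⟩
        rw [hNv, mem_dgS]
        rintro ⟨-, h⟩
        exact hIi v hvI w hw.2 h
      · intro y hy z hz
        exact hIi y (mem_of_mem_erase hy) z (mem_of_mem_erase hz)
  · -- type 2
    push Not at hbig
    obtain ⟨v, hv, hnew⟩ := exists_new (by omega) hne (hsat A hAU hge) h2 hg hbig
    refine fin v (A.erase v) (G ⊔ lk v) hv (Subset.refl _) ?_ ?_ ?_
    · intro w hw
      have h1 := dg_sup_lk A G v w
      have h3 := hbig w (mem_of_mem_erase hw)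
      omega
    · have h1 := ed_le_sdiff A {v} G
      rw [sum_singleton, sdiff_singleton_eq_erase] at h1
      have h3 := hbig v hv
      have h4 : β * (ed A G + g) ≤ β * (ed (A.erase v) (G ⊔ lk v) + (β + 1)) :=
        Nat.mul_le_mul_left _ (by omega)
      have h5 : n * K = (n - 1) * K + K := by
        obtain ⟨m, rfl⟩ : ∃ m, n = m + 1 := ⟨n - 1, by omega⟩
        rw [Nat.add_sub_cancel]; ring
      have hce : (A.erase v).card = n - 1 := by rw [card_erase_of_mem hv, hc]
      rw [hce]
      rw [Nat.mul_add, Nat.mul_add] at h4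
      omega
    · intro I hIA hvI hIf hIi
      refine ⟨?_, ?_⟩
      · intro w hw
        rw [mem_erase] at hw
        exact mem_erase.2 ⟨hw.1, hIA hw.2⟩
      · intro y hy z hz hyz
        rw [SimpleGraph.sup_adj] at hyz
        rcases hyz with h | h
        · exact hIi y (mem_of_mem_erase hy) z (mem_of_mem_erase hz) h
        · simp only [lk] at h
          rcases h with ⟨h1, h2, h3⟩ | ⟨h1, h2, h3⟩
          · refine hIf v (y - v) (by omega) ⟨hvI, ?_, ?_⟩
            · have : v + (y - v) = y := by omega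
              rw [this]; exact mem_of_mem_erase hy
            · have : v + 2 * (y - v) = z := by omega
              rw [this]; exact mem_of_mem_erase hz
          · refine hIf v (z - v) (by omega) ⟨hvI, ?_, ?_⟩
            · have : v + (z - v) = z := by omega
              rw [this]; exact mem_of_mem_erase hz
            · have : v + 2 * (z - v) = y := by omega
              rw [this]; exact mem_of_mem_erase hy

theorem rounds_cov (N s0 b E0 : ℕ) (hb : 2 ≤ b) (hs0 : 1 ≤ s0) (hE : 4 * b * (b + 1) * s0 ≤ E0)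
    (hsat : ∀ A ⊆ Icc 1 N, A.card = s0 → E0 ≤ (aps A).card) (i : ℕ) :
    ∀ A ⊆ Icc 1 N, A.card < 2 ^ i * s0 →
      Cov A ⊥ ((N + 1) ^ (i * (4 * s0 / b))) (s0 + i * (4 * s0 / b)) := by
  induction i with
  | zero =>
    intro A hA hc
    rw [pow_zero, one_mul] at hc
    rw [zero_mul, pow_zero]
    exact (cov_self A ⊥).mono le_rfl (by omega)
  | succ i ih =>
    intro A hA hc
    set q := 4 * s0 / b with hq
    set X := (N + 1) ^ (i * q) with hX
    set P := 2 ^ i with hP
    have hP1 : 1 ≤ P := Nat.one_le_two_pow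
    have e4 : 4 ^ i = P * P := by
      rw [hP, ← mul_pow]; norm_num
    have e8 : 8 ^ i = P * P * P := by
      rw [hP, ← mul_pow, ← mul_pow]; norm_num
    have e2 : 2 ^ (i + 1) = 2 * P := by rw [hP, pow_succ]; ring
    set G0 := b * (b + 1) with hG0
    have hE' : 4 * (G0 * s0) ≤ E0 := by
      have : 4 * b * (b + 1) * s0 = 4 * (G0 * s0) := by rw [hG0]; ring
      omega
    have hbG : b ≤ G0 := by rw [hG0]; exact Nat.le_mul_of_pos_right _ (by omega)
    have key := recursion_cov (Icc 1 N) (P * s0) (2 * P * s0) (P * b) (P * P * G0)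
      (P * P * P * E0) X (s0 + i * q) (Nat.mul_pos hP1 hs0)
      (by intro A hA hc; exact ih A hA hc)
      (by
        intro A hA hc
        have := amplify' (Icc 1 N) s0 E0 hs0 hsat A hA i hc
        rw [e8] at this
        exact this)
      (by
        have h1 : 2 * (2 * P * s0) * (P * b) = P * P * (4 * (b * s0)) := by ring
        have h2 : 4 * (b * s0) ≤ 4 * (G0 * s0) :=
          Nat.mul_le_mul_left _ (Nat.mul_le_mul_right _ hbG)
        rw [h1]
        calc P * P * (4 * (b * s0)) ≤ P * P * E0 := Nat.mul_le_mul_left _ (h2.trans hE')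
          _ ≤ P * P * P * E0 := Nat.mul_le_mul_right _ (Nat.le_mul_of_pos_right _ hP1))
      (by
        have h1 : 2 * (P * P * G0) * (2 * P * s0) = P * P * P * (4 * (G0 * s0)) := by ring
        rw [h1]
        exact Nat.mul_le_mul_left _ hE')
      A.card A hA rfl (by rw [e2] at hc; omega) ⊥ (by intro v _; rw [dg_bot]; omega) q (by
        rw [e2] at hc
        have h1 : (P * b) * (P * b + 1) ≤ P * P * G0 := by
          have : P * P * G0 = (P * b) * (P * b + P) := by rw [hG0]; ring
          rw [this]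
          exact Nat.mul_le_mul_left _ (by omega)
        have h2 : A.card * (P * P * G0 + P * b * (P * b + 1)) ≤
            (2 * P * s0) * (2 * (P * P * G0)) :=
          Nat.mul_le_mul (by omega) (by omega)
        have h3 : 4 * s0 < (q + 1) * b := by
          rw [hq]
          have := Nat.lt_div_mul_add (a := 4 * s0) (b := b) (by omega)
          rw [Nat.add_mul, one_mul]
          exact this
        have h4 : (2 * P * s0) * (2 * (P * P * G0)) = (4 * s0) * (P * (P * P * G0)) := by ring
        have h5 : (q + 1) * (P * b * (P * P * G0)) = ((q + 1) * b) * (P * (P * P * G0)) := by ring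
        have h6 : 0 < P * (P * P * G0) := by
          have : 0 < G0 := by omega
          positivity
        have h7 := Nat.mul_lt_mul_of_pos_right h3 h6
        rw [h5]
        omega)
    have hAN : A.card ≤ N := by
      have := card_le_card hA
      simpa using this
    refine key.mono ?_ ?_
    · calc (A.card + 1) ^ q * X ≤ (N + 1) ^ q * X :=
            Nat.mul_le_mul_right _ (Nat.pow_le_pow_left (by omega) _)
        _ = (N + 1) ^ ((i + 1) * q) := by
          rw [hX, ← pow_add]
          congr 1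
          ring
    · have : (i + 1) * q = i * q + q := by ring
      omega

/-- Containers: all progression-free subsets of `{1, …, N}` are covered by few sets of size little
more than `s0`. -/
theorem containers (N s0 b E0 : ℕ) (hb : 2 ≤ b) (hs0 : 1 ≤ s0) (hE : 4 * b * (b + 1) * s0 ≤ E0)
    (hsat : ∀ A ⊆ Icc 1 N, A.card = s0 → E0 ≤ (aps A).card) :
    ∃ F : Finset (Finset ℕ), F.card ≤ (N + 1) ^ ((Nat.log 2 N + 1) * (4 * s0 / b)) ∧
      (∀ C ∈ F, C ⊆ Icc 1 N ∧ C.card ≤ s0 + (Nat.log 2 N + 1) * (4 * s0 / b)) ∧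
      ∀ I ⊆ Icc 1 N, APFree I → ∃ C ∈ F, I ⊆ C := by
  obtain ⟨F, h1, h2, h3⟩ := rounds_cov N s0 b E0 hb hs0 hE hsat (Nat.log 2 N + 1) (Icc 1 N)
    (Subset.refl _) (by
      rw [Nat.card_Icc, Nat.add_sub_cancel]
      calc N < 2 ^ (Nat.log 2 N + 1) := Nat.lt_pow_succ_log_self (by norm_num) N
        _ ≤ 2 ^ (Nat.log 2 N + 1) * s0 := Nat.le_mul_of_pos_right _ hs0)
  exact ⟨F, h1, h2, fun I hI hf => h3 I hI hf (by intro y _ z _; simp)⟩

end Pool.Agent.MP_0f71ae_nt.Cnt
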