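import Pool.Agent.MP_0f71ae_nt.Cnt.Growth
import Pool.Agent.MP_0f71ae_nt.RegScales

/-!
# `r₃` has no plateau of ratio larger than the golden ratio
-/

set_option autoImplicit false

namespace Pool.Agent.MP_0f71ae_nt.Cnt

open Finset Filter Topology Pool.Agent.MP_0f71ae_nt.Reg

/-- Two blocks of sizes `c ≤ a` at distance `a`. -/
theorem r3_two_block (a c : ℕ) (h : c ≤ a) : r3 a + r3 c ≤ r3 (2 * a + c) := by
  obtain ⟨A, hA, hAf, hAc⟩ := exists_r3 a
  obtain ⟨B, hB, hBf, hBc⟩ := exists_r3 c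
  set B' := B.image (fun x => x + 2 * a) with hB'
  have hc : B'.card = r3 c := by
    rw [hB', card_image_of_injective, hBc]
    intro x y hxy
    simpa using hxy
  have hAm : ∀ x ∈ A, 1 ≤ x ∧ x ≤ a := fun x hx => mem_Icc.1 (hA hx)
  have hBm : ∀ x ∈ B', 2 * a < x ∧ x ≤ 2 * a + c ∧ x - 2 * a ∈ B := by
    intro x hx
    rw [hB', mem_image] at hx
    obtain ⟨y, hy, rfl⟩ := hx
    have := mem_Icc.1 (hB hy)
    refine ⟨by omega, by omega, ?_⟩
    rw [Nat.add_sub_cancel]; exact hy
  have hdisj : Disjoint A B' := by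
    rw [disjoint_left]
    intro x h1 h2
    have := hAm x h1
    have := hBm x h2
    omega
  rw [← hAc, ← hc, ← card_union_of_disjoint hdisj]
  apply card_le_r3
  · intro x hx
    rw [mem_Icc]
    rcases mem_union.1 hx with h1 | h1
    · have := hAm x h1; omega
    · have := hBm x h1; omega
  · intro x d hd hcon
    obtain ⟨h0, h1, h2⟩ := hcon
    rw [mem_union] at h0 h1 h2
    rcases h2 with h2 | h2
    · have c2 := hAm _ h2
      have h1' : x + d ∈ A := by
        rcases h1 with h1 | h1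
        · exact h1
        · have := hBm _ h1; omega
      have h0' : x ∈ A := by
        rcases h0 with h0 | h0
        · exact h0
        · have := hBm _ h0; omega
      exact hAf x d hd ⟨h0', h1', h2⟩
    · have c2 := hBm _ h2
      rcases h1 with h1 | h1
      · have c1 := hAm _ h1
        rcases h0 with h0 | h0
        · have c0 := hAm _ h0; omega
        · have c0 := hBm _ h0; omega
      · have c1 := hBm _ h1
        rcases h0 with h0 | h0
        · have c0 := hAm _ h0; omega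
        · have c0 := hBm _ h0
          refine hBf (x - 2 * a) d hd ⟨c0.2.2, ?_, ?_⟩
          · have : x - 2 * a + d = x + d - 2 * a := by omega
            rw [this]; exact c1.2.2
          · have : x - 2 * a + 2 * d = x + 2 * d - 2 * a := by omega
            rw [this]; exact c2.2.2

/-- The real variable part. -/
theorem no_plateau (ρ : ℝ → ℝ) (hmono : ∀ x y, 0 < x → x ≤ y → ρ x ≤ ρ y)
    (hsub : ∀ x y, 0 < x → 0 < y → ρ (x + y) ≤ ρ x + ρ y)
    (htwo : ∀ a c, 0 < c → c ≤ a → ρ a + ρ c ≤ ρ (2 * a + c))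
    (hdbl : ∀ x, 0 < x → 8 / 7 * ρ x ≤ ρ (2 * x))
    (hpos : ∀ x, 0 < x → 0 < ρ x) (l : ℝ) (hl : (1 + √5) / 2 < l) (x : ℝ) (hx : 0 < x) :
    ρ x < ρ (l * x) := by
  by_contra hcon
  rw [not_lt] at hcon
  have h5 : √5 * √5 = 5 := Real.mul_self_sqrt (by norm_num)
  have h5' : (2 : ℝ) < √5 := by
    apply Real.lt_sqrt_of_sq_lt
    norm_num
  set S : Set ℝ := {m | 1 ≤ m ∧ ∃ x, 0 < x ∧ ρ (m * x) ≤ ρ x} with hS
  have hlS : l ∈ S := ⟨by linarith, x, hx, hcon⟩
  have hS2 : ∀ m ∈ S, m < 2 := by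
    intro m hm
    obtain ⟨-, y, hy, h⟩ := hm
    by_contra h2
    rw [not_lt] at h2
    have h3 := hmono (2 * y) (m * y) (by linarith) (mul_le_mul_of_nonneg_right h2 hy.le)
    have h4 := hdbl y hy
    have h6 := hpos y hy
    linarith
  have hbdd : BddAbove S := ⟨2, fun m hm => (hS2 m hm).le⟩
  set s := sSup S with hs
  have hls : l ≤ s := le_csSup hbdd hlS
  have hs2 : s ≤ 2 := csSup_le ⟨l, hlS⟩ (fun m hm => (hS2 m hm).le)
  have hsφ : (1 + √5) / 2 < s := lt_of_lt_of_le hl hls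
  have hs1 : 1 < s := by linarith
  have hquad : 0 < s ^ 2 - s - 1 := by nlinarith
  have hlt : (2 * s + 1) / (s + 1) < s := by
    rw [div_lt_iff₀ (by linarith)]
    nlinarith
  obtain ⟨m, hmS, hm⟩ := exists_lt_of_lt_csSup ⟨l, hlS⟩ hlt
  have hm2 := hS2 m hmS
  obtain ⟨hm1, x0, hx0, hpl⟩ := hmS
  have hm' : s * (2 - m) < m - 1 := by
    rw [div_lt_iff₀ (by linarith)] at hm
    nlinarith
  have hm32 : 3 / 2 < m := by
    have : 3 / 2 ≤ (2 * s + 1) / (s + 1) := by
      rw [le_div_iff₀ (by linarith)]; linarith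
    linarith
  -- the key relation
  have hstep : ∀ u, 2 - m < u → u ≤ m / 3 → ρ (u * x0) ≤ ρ ((2 - m + u) / 2 * x0) := by
    intro u hu1 hu2
    set a := (m - u) / 2 with ha
    have ha1 : u ≤ a := by rw [ha]; linarith
    have ha2 : a < 1 := by rw [ha]; linarith
    have h1 := htwo (a * x0) (u * x0) (by nlinarith) (mul_le_mul_of_nonneg_right ha1 hx0.le)
    have e1 : 2 * (a * x0) + u * x0 = m * x0 := by rw [ha]; ring
    rw [e1] at h1
    have h2 := hsub (a * x0) ((1 - a) * x0) (by nlinarith) (by nlinarith)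
    have e2 : a * x0 + (1 - a) * x0 = x0 := by ring
    rw [e2] at h2
    have e3 : (2 - m + u) / 2 = 1 - a := by rw [ha]; ring
    rw [e3]
    linarith
  have hiter : ∀ k : ℕ, ρ (m / 3 * x0) ≤ ρ ((2 - m + (m / 3 - (2 - m)) / 2 ^ k) * x0) := by
    intro k
    induction k with
    | zero => simp
    | succ k ih =>
      refine ih.trans ?_
      have hk : (0 : ℝ) < 2 ^ k := by positivity
      have hk1 : (1 : ℝ) ≤ 2 ^ k := one_le_pow₀ (by norm_num)
      have hd : 0 < m / 3 - (2 - m) := by linarith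
      have h1 := hstep (2 - m + (m / 3 - (2 - m)) / 2 ^ k)
        (by have := div_pos hd hk; linarith)
        (by
          have : (m / 3 - (2 - m)) / 2 ^ k ≤ m / 3 - (2 - m) := div_le_self hd.le hk1
          linarith)
      have e : (2 - m + (2 - m + (m / 3 - (2 - m)) / 2 ^ k)) / 2 =
          2 - m + (m / 3 - (2 - m)) / 2 ^ (k + 1) := by
        rw [pow_succ]
        field_simp
        ring
      rw [e] at h1
      exact h1
  -- lower bound on the plateau
  have hlow : ∀ y, 2 - m < y → ρ (m / 3 * x0) ≤ ρ (y * x0) := by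
    intro y hy
    obtain ⟨k, hk⟩ := exists_pow_lt_of_lt_one (show 0 < (y - (2 - m)) / (m / 3 - (2 - m)) from
      div_pos (by linarith) (by linarith)) (show (1 / 2 : ℝ) < 1 by norm_num)
    refine (hiter k).trans (hmono _ _ ?_ ?_)
    · apply mul_pos _ hx0
      have : 0 < (m / 3 - (2 - m)) / 2 ^ k := div_pos (by linarith) (by positivity)
      linarith
    · apply mul_le_mul_of_nonneg_right _ hx0.le
      rw [lt_div_iff₀ (by linarith)] at hk
      have e : (m / 3 - (2 - m)) / 2 ^ k = (1 / 2) ^ k * (m / 3 - (2 - m)) := by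
        rw [one_div, inv_pow]; field_simp
      rw [e]
      linarith
  have hhalf : ρ x0 ≤ 2 * ρ (m / 3 * x0) := by
    have h1 := hsub (m / 3 * x0) (m / 3 * x0) (by nlinarith) (by nlinarith)
    have h2 := hmono x0 (m / 3 * x0 + m / 3 * x0) hx0 (by nlinarith)
    linarith
  -- a new plateau
  obtain ⟨s', hs1', hs2'⟩ : ∃ s', s < s' ∧ s' * (2 - m) < m - 1 := by
    refine ⟨(s + (m - 1) / (2 - m)) / 2, ?_, ?_⟩
    · have : s < (m - 1) / (2 - m) := by rw [lt_div_iff₀ (by linarith)]; exact hm'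
      linarith
    · have h1 : s < (m - 1) / (2 - m) := by rw [lt_div_iff₀ (by linarith)]; exact hm'
      have h2 : (m - 1) / (2 - m) * (2 - m) = m - 1 := by
        field_simp [show (2 - m) ≠ 0 by linarith]
      have h3 : (s + (m - 1) / (2 - m)) / 2 < (m - 1) / (2 - m) := by linarith
      calc _ < (m - 1) / (2 - m) * (2 - m) := mul_lt_mul_of_pos_right h3 (by linarith)
        _ = m - 1 := h2
  have hs0' : 0 < s' := by linarith
  obtain ⟨y, hy1, hy2⟩ : ∃ y, 2 - m < y ∧ s' * y < m - 1 := by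
    refine ⟨((2 - m) + (m - 1) / s') / 2, ?_, ?_⟩
    · have : 2 - m < (m - 1) / s' := by rw [lt_div_iff₀ hs0']; linarith
      linarith
    · have h1 : 2 - m < (m - 1) / s' := by rw [lt_div_iff₀ hs0']; linarith
      have h3 : ((2 - m) + (m - 1) / s') / 2 < (m - 1) / s' := by linarith
      calc s' * (((2 - m) + (m - 1) / s') / 2) < s' * ((m - 1) / s') :=
            mul_lt_mul_of_pos_left h3 hs0'
        _ = m - 1 := by field_simp
  have hy0 : 0 < y := by linarith
  -- `ρ (s' y x0) ≤ ρ x0 - ρ(m/3 x0) ≤ ρ (m/3 x0) ≤ ρ (y x0)`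
  have hup : ρ (s' * y * x0) ≤ ρ (y * x0) := by
    set a := max (s' * y) (m / 3) with ha
    have ha1 : a < m - 1 := max_lt hy2 (by linarith)
    have ha2 : m / 3 ≤ a := le_max_right _ _
    have hc1 : 2 - m < m - 2 * a := by linarith
    have h1 := htwo (a * x0) ((m - 2 * a) * x0) (mul_pos (by linarith) hx0)
      (mul_le_mul_of_nonneg_right (by linarith) hx0.le)
    have e1 : 2 * (a * x0) + (m - 2 * a) * x0 = m * x0 := by ring
    rw [e1] at h1
    have h2 := hlow (m - 2 * a) hc1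
    have h3 := hlow y hy1
    have h4 : ρ (s' * y * x0) ≤ ρ (a * x0) :=
      hmono _ _ (by positivity) (mul_le_mul_of_nonneg_right (le_max_left _ _) hx0.le)
    linarith
  have hs'S : s' ∈ S := by
    refine ⟨by linarith, y * x0, by positivity, ?_⟩
    rw [← mul_assoc]
    exact hup
  have := le_csSup hbdd hs'S
  linarith

theorem r3_tendsto : Tendsto (fun n : ℕ => (r3 n : ℝ)) atTop atTop := by
  have h : ∀ k : ℕ, k ≤ r3 (2 ^ k) := by
    intro k
    induction k with
    | zero => simp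
    | succ k ih =>
      have := growth_one (N := 2 ^ k) Nat.one_le_two_pow
      rw [pow_succ, mul_comm]
      omega
  apply tendsto_natCast_atTop_atTop.comp
  apply tendsto_atTop_atTop.2
  intro b
  exact ⟨2 ^ b, fun a ha => (h b).trans (r3_mono ha)⟩

/-- `r₃` has no plateau of ratio larger than the golden ratio. -/
theorem golden (l : ℝ) (hl : (1 + √5) / 2 < l) :
    ∃ c : ℝ, 0 < c ∧ ∃ N0 : ℕ, ∀ N : ℕ, N0 ≤ N → (1 + c) * (r3 N : ℝ) ≤ r3 ⌊l * N⌋₊ := by
  by_contra hcon
  push Not at hcon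
  have hl1 : 1 < l := by
    have h5' : (2 : ℝ) < √5 := by
      apply Real.lt_sqrt_of_sq_lt
      norm_num
    linarith
  have h1 : ∀ i : ℕ, ∃ M : ℕ, i + 1 ≤ M ∧
      (r3 ⌊l * M⌋₊ : ℝ) < (1 + 1 / ((i : ℝ) + 1)) * r3 M := by
    intro i
    exact hcon (1 / ((i : ℝ) + 1)) (by positivity) (i + 1)
  choose M hM1 hM2 using h1
  have hMpos : ∀ i, 1 ≤ M i := fun i => by have := hM1 i; omega
  have hrpos : ∀ i, (0 : ℝ) < r3 (M i) := fun i => by
    have := r3_pos (hMpos i)
    exact_mod_cast this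
  have hMtop : Tendsto M atTop atTop :=
    tendsto_atTop_mono (fun i => by have := hM1 i; simp only [id]; omega) tendsto_id
  have hrtop : Tendsto (fun i => (r3 (M i) : ℝ)) (hyperfilter ℕ : Filter ℕ) atTop :=
    (r3_tendsto.comp hMtop).mono_left Nat.hyperfilter_le_atTop
  set f : ℝ → ℕ → ℝ := fun x i => (r3 ⌊x * M i⌋₊ : ℝ) / r3 (M i) with hf
  have hbd : ∀ x i, f x i ∈ Set.Icc 0 (|x| + 1) := by
    intro x i
    refine ⟨by positivity, ?_⟩
    rw [hf]
    simp only
    rw [div_le_iff₀ (hrpos i)]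
    have hMi : (0 : ℝ) < M i := by exact_mod_cast hMpos i
    refine (r3_upper _ _ (hMpos i)).trans ?_
    apply mul_le_mul_of_nonneg_right _ (hrpos i).le
    gcongr
    rw [div_le_iff₀ hMi]
    rcases le_or_gt 0 x with hx | hx
    · exact (Nat.floor_le (by positivity)).trans
        (mul_le_mul_of_nonneg_right (le_abs_self x) hMi.le)
    · rw [Nat.floor_of_nonpos (by nlinarith)]
      simp only [Nat.cast_zero]
      positivity
  have hlim : ∀ x, ∃ r, Tendsto (f x) (hyperfilter ℕ : Filter ℕ) (𝓝 r) := by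
    intro x
    obtain ⟨r, -, hr⟩ := (isCompact_Icc (a := (0 : ℝ)) (b := |x| + 1)).ultrafilter_le_nhds
      ((hyperfilter ℕ).map (f x)) (by
        rw [le_principal_iff, Ultrafilter.coe_map]
        exact Filter.mem_map.2 (Filter.univ_mem' (hbd x)))
    exact ⟨r, hr⟩
  choose ρ hρ using hlim
  have hone : Tendsto (fun i => 1 / (r3 (M i) : ℝ)) (hyperfilter ℕ : Filter ℕ) (𝓝 0) := by
    have h := hrtop.inv_tendsto_atTop
    refine h.congr ?_
    intro i
    simp
  have hmono : ∀ x y, 0 < x → x ≤ y → ρ x ≤ ρ y := by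
    intro x y _ hxy
    apply le_of_tendsto_of_tendsto' (hρ x) (hρ y)
    intro i
    rw [hf]
    simp only
    apply div_le_div_of_nonneg_right _ (hrpos i).le
    exact_mod_cast r3_mono (Nat.floor_mono (mul_le_mul_of_nonneg_right hxy (Nat.cast_nonneg _)))
  have hsub : ∀ x y, 0 < x → 0 < y → ρ (x + y) ≤ ρ x + ρ y := by
    intro x y hx hy
    have h := ((hρ x).add (hρ y)).add hone
    rw [add_zero] at h
    apply le_of_tendsto_of_tendsto' (hρ (x + y)) h
    intro i
    rw [hf]
    simp only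
    rw [← add_div, ← add_div]
    apply div_le_div_of_nonneg_right _ (hrpos i).le
    have hfl : ⌊(x + y) * M i⌋₊ ≤ ⌊x * M i⌋₊ + ⌊y * M i⌋₊ + 1 := by
      have ha := Nat.lt_floor_add_one (x * M i)
      have hb := Nat.lt_floor_add_one (y * M i)
      have : ((x + y) * M i) < (⌊x * M i⌋₊ + ⌊y * M i⌋₊ + 1 + 1 : ℕ) := by
        push_cast
        rw [add_mul]
        linarith
      have h2 := (Nat.floor_lt (by positivity)).2 this
      omega
    have h3 : r3 ⌊(x + y) * M i⌋₊ ≤ r3 ⌊x * M i⌋₊ + r3 ⌊y * M i⌋₊ + 1 :=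
      (r3_mono hfl).trans ((r3_add_le _ _).trans
        (add_le_add (r3_add_le _ _) (r3_le 1)))
    exact_mod_cast h3
  have htwo : ∀ a c, 0 < c → c ≤ a → ρ a + ρ c ≤ ρ (2 * a + c) := by
    intro a c hc hca
    apply le_of_tendsto_of_tendsto' ((hρ a).add (hρ c)) (hρ (2 * a + c))
    intro i
    rw [hf]
    simp only
    rw [← add_div]
    apply div_le_div_of_nonneg_right _ (hrpos i).le
    have h2 : 2 * ⌊a * M i⌋₊ + ⌊c * M i⌋₊ ≤ ⌊(2 * a + c) * M i⌋₊ := by
      apply Nat.le_floor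
      push_cast
      have ha0 : 0 < a := hc.trans_le hca
      have ha := Nat.floor_le (show 0 ≤ a * M i by positivity)
      have hb := Nat.floor_le (show 0 ≤ c * M i by positivity)
      rw [add_mul]
      linarith
    have h3 := (r3_two_block ⌊a * M i⌋₊ ⌊c * M i⌋₊
      (Nat.floor_mono (mul_le_mul_of_nonneg_right hca (Nat.cast_nonneg _)))).trans (r3_mono h2)
    exact_mod_cast h3
  have hdbl : ∀ x, 0 < x → 8 / 7 * ρ x ≤ ρ (2 * x) := by
    intro x hx
    apply le_of_tendsto_of_tendsto' ((hρ x).const_mul (8 / 7)) (hρ (2 * x))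
    intro i
    rw [hf]
    simp only
    rw [← mul_div_assoc]
    apply div_le_div_of_nonneg_right _ (hrpos i).le
    have h2 : 2 * ⌊x * M i⌋₊ ≤ ⌊(2 * x) * M i⌋₊ := by
      apply Nat.le_floor
      push_cast
      have ha := Nat.floor_le (show 0 ≤ x * M i by positivity)
      linarith
    have h3 := (growth ⌊x * M i⌋₊).trans (Nat.mul_le_mul_left 7 (r3_mono h2))
    have h4 : (8 : ℝ) * r3 ⌊x * M i⌋₊ ≤ 7 * r3 ⌊(2 * x) * M i⌋₊ := by exact_mod_cast h3
    linarith
  have hρ1 : ρ 1 = 1 := by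
    refine tendsto_nhds_unique (hρ 1) ?_
    have : f 1 = fun _ => 1 := by
      funext i
      rw [hf]
      simp only [one_mul, Nat.floor_natCast]
      exact div_self (hrpos i).ne'
    rw [this]
    exact tendsto_const_nhds
  have hmul : ∀ x, 0 < x → ∀ k : ℕ, ρ ((k + 1 : ℕ) * x) ≤ (k + 1 : ℕ) * ρ x := by
    intro x hx k
    induction k with
    | zero => simp
    | succ k ih =>
      have h := hsub ((k + 1 : ℕ) * x) x (by positivity) hx
      have e : ((k + 1 + 1 : ℕ) : ℝ) * x = (k + 1 : ℕ) * x + x := by push_cast; ring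
      rw [e]
      push_cast at *
      linarith
  have hpos : ∀ x, 0 < x → 0 < ρ x := by
    intro x hx
    obtain ⟨k, hk⟩ := exists_nat_gt (1 / x)
    have h1 : 1 ≤ ((k + 1 : ℕ) : ℝ) * x := by
      rw [div_lt_iff₀ hx] at hk
      push_cast
      nlinarith
    have h2 := hmono 1 _ one_pos h1
    have h3 := hmul x hx k
    rw [hρ1] at h2
    have h4 : (0 : ℝ) < (k + 1 : ℕ) * ρ x := by linarith
    have h5 : (0 : ℝ) < (k + 1 : ℕ) := by positivity
    by_contra h6
    rw [not_lt] at h6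
    have := mul_nonpos_of_nonneg_of_nonpos h5.le h6
    linarith
  have hfin := no_plateau ρ hmono hsub htwo hdbl hpos l hl 1 one_pos
  rw [mul_one, hρ1] at hfin
  have hle : ρ l ≤ 1 := by
    have hlim1 : Tendsto (fun i : ℕ => 1 + 1 / ((i : ℝ) + 1)) (hyperfilter ℕ : Filter ℕ)
        (𝓝 (1 + 0)) :=
      (tendsto_const_nhds.add tendsto_one_div_add_atTop_nhds_zero_nat).mono_left
        Nat.hyperfilter_le_atTop
    rw [add_zero] at hlim1
    apply le_of_tendsto_of_tendsto' (hρ l) hlim1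
    intro i
    rw [hf]
    simp only
    rw [div_le_iff₀ (hrpos i)]
    exact (hM2 i).le
  linarith

end Pool.Agent.MP_0f71ae_nt.Cnt
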