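import Pool.Agent.MP_0f71ae_nt.RegScales

/-!
# Good scales in arbitrary windows of consecutive scales
-/

set_option autoImplicit false

namespace Pool.Agent.MP_0f71ae_nt.Cnt

open Finset Pool.Agent.MP_0f71ae_nt.Reg

/-- Telescoping over a window. -/
theorem drop_window (b : ℕ → ℝ) (hb : Antitone b) (s a j : ℕ) (hs : s ≤ a) :
    ∑ k ∈ Finset.Ico a (a + j), (b (k - s) - b (k + s)) ≤
      2 * s * (b (a - s) - b (a + j + s)) := by
  have hsum : ∀ j : ℕ, ∑ k ∈ Finset.Ico a (a + j), (b (k - s) - b (k + s)) ≤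
      ∑ i ∈ Finset.Ico (a - s) (a + s), b i - ∑ i ∈ Finset.Ico (a - s + j) (a + s + j), b i := by
    intro j
    induction j with
    | zero =>
      simp
    | succ j ih =>
      rw [← add_assoc, Finset.sum_Ico_succ_top (by omega)]
      have h1 : ∑ i ∈ Finset.Ico (a - s + j) (a + s + j + 1), b i =
          ∑ i ∈ Finset.Ico (a - s + j) (a + s + j), b i + b (a + s + j) :=
        Finset.sum_Ico_succ_top (by omega) _
      have h2 : ∑ i ∈ Finset.Ico (a - s + j) (a + s + j + 1), b i =
          b (a - s + j) + ∑ i ∈ Finset.Ico (a - s + j + 1) (a + s + j + 1), b i :=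
        Finset.sum_eq_sum_Ico_succ_bot (by omega) _
      have h3 : a - s + (j + 1) = a - s + j + 1 := by ring
      have h4 : a + s + (j + 1) = a + s + j + 1 := by ring
      have h5 : a + j - s = a - s + j := by omega
      have h6 : a + j + s = a + s + j := by ring
      rw [h3, h4, h5, h6]
      linarith
  refine (hsum j).trans ?_
  have h1 : ∑ i ∈ Finset.Ico (a - s) (a + s), b i ≤ 2 * s * b (a - s) := by
    have h2 : ∑ i ∈ Finset.Ico (a - s) (a + s), b i ≤ ∑ i ∈ Finset.Ico (a - s) (a + s), b (a - s) := by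
      apply Finset.sum_le_sum
      intro i hi
      exact hb (Finset.mem_Ico.1 hi).1
    rw [Finset.sum_const, Nat.card_Ico, nsmul_eq_mul] at h2
    have h3 : ((a + s - (a - s) : ℕ) : ℝ) = 2 * s := by
      have : a + s - (a - s) = 2 * s := by omega
      rw [this]; push_cast; ring
    rw [h3] at h2
    exact h2
  have h4 : 2 * s * b (a + j + s) ≤ ∑ i ∈ Finset.Ico (a - s + j) (a + s + j), b i := by
    have h2 : ∑ i ∈ Finset.Ico (a - s + j) (a + s + j), b (a + j + s) ≤
        ∑ i ∈ Finset.Ico (a - s + j) (a + s + j), b i := by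
      apply Finset.sum_le_sum
      intro i hi
      apply hb
      have := (Finset.mem_Ico.1 hi).2
      omega
    rw [Finset.sum_const, Nat.card_Ico, nsmul_eq_mul] at h2
    have h3 : ((a + s + j - (a - s + j) : ℕ) : ℝ) = 2 * s := by
      have : a + s + j - (a - s + j) = 2 * s := by omega
      rw [this]; push_cast; ring
    rw [h3] at h2
    exact h2
  have h5 : 2 * s * (b (a - s) - b (a + j + s)) = 2 * s * b (a - s) - 2 * s * b (a + j + s) := by ring
  rw [h5]
  linarith

/-- `log₂`-scale density exponent. -/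
noncomputable def dn (k : ℕ) : ℝ := Real.log (r3 (2 ^ k)) - k * Real.log 2

theorem r3_two_pow_pos (k : ℕ) : (0 : ℝ) < r3 (2 ^ k) := by
  have := r3_pos (N := 2 ^ k) Nat.one_le_two_pow
  exact_mod_cast this

theorem dn_antitone : Antitone dn := by
  apply antitone_nat_of_succ_le
  intro k
  have h2 : (r3 (2 ^ (k + 1)) : ℝ) ≤ 2 * r3 (2 ^ k) := by
    have := r3_mul_le 2 (2 ^ k)
    rw [pow_succ, mul_comm (2 ^ k) 2]
    exact_mod_cast this
  have h3 := Real.log_le_log (r3_two_pow_pos (k + 1)) h2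
  rw [Real.log_mul (by norm_num) (r3_two_pow_pos k).ne'] at h3
  simp only [dn]
  push_cast
  linarith

theorem dn_lower (k : ℕ) : -(4 * √k) ≤ dn k := by
  have h2 := behrend (2 ^ k)
  have h3 : (0 : ℝ) < ((2 ^ k : ℕ) : ℝ) * Real.exp (-4 * √(Real.log ((2 ^ k : ℕ) : ℝ))) := by
    positivity
  have h4 := Real.log_le_log h3 h2
  rw [Real.log_mul (by positivity) (Real.exp_pos _).ne', Real.log_exp] at h4
  push_cast at h4
  rw [Real.log_pow] at h4
  have hl2 : 0 < Real.log 2 := Real.log_pos (by norm_num)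
  have h5 : √((k : ℝ) * Real.log 2) ≤ √k := by
    apply Real.sqrt_le_sqrt
    have := Real.log_two_lt_d9
    have h0 : (0 : ℝ) ≤ k := Nat.cast_nonneg _
    nlinarith
  simp only [dn]
  linarith

/-- The density drops slowly over every window. -/
theorem dn_drop (k m : ℕ) : dn k - dn (k + m) ≤ 5 * √m := by
  rcases Nat.eq_zero_or_pos m with rfl | hm
  · simp
  obtain ⟨n, rfl⟩ : ∃ n, m = n + 1 := ⟨m - 1, by omega⟩
  have h1 : r3 (2 ^ n) * r3 (2 ^ k) ≤ r3 (2 ^ (k + (n + 1))) := by
    refine (r3_mul_ge (2 ^ n) (2 ^ k) Nat.one_le_two_pow).trans (r3_mono ?_)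
    have : 2 ^ (k + (n + 1)) = (2 * 2 ^ n) * 2 ^ k := by rw [pow_add, pow_succ]; ring
    rw [this]
    exact Nat.mul_le_mul_right _ (Nat.sub_le _ _)
  have h2 : (r3 (2 ^ n) : ℝ) * r3 (2 ^ k) ≤ r3 (2 ^ (k + (n + 1))) := by exact_mod_cast h1
  have h3 := Real.log_le_log (mul_pos (r3_two_pow_pos n) (r3_two_pow_pos k)) h2
  rw [Real.log_mul (r3_two_pow_pos n).ne' (r3_two_pow_pos k).ne'] at h3
  have h4 := dn_lower n
  have h5 : √(n : ℝ) ≤ √((n + 1 : ℕ) : ℝ) := by
    apply Real.sqrt_le_sqrt
    push_cast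
    linarith
  have h6 : (1 : ℝ) ≤ √((n + 1 : ℕ) : ℝ) := by
    rw [Real.one_le_sqrt]
    push_cast
    have : (0 : ℝ) ≤ n := Nat.cast_nonneg _
    linarith
  have hl2' := Real.log_two_lt_d9
  simp only [dn] at h4 ⊢
  push_cast at h3 h4 h5 h6 ⊢
  linarith

/-- In every window of `K` consecutive scales at most `(20 / η) s √K` are not good. -/
theorem card_not_good_window (η : ℝ) (h0 : 0 < η) (h1 : η < 1) (s : ℕ) (hs1 : 1 ≤ s) (a K : ℕ)
    (S : Finset ℕ) (hS : S ⊆ Finset.Ico a (a + K)) (hbad : ∀ k ∈ S, ¬ Good s η k) :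
    (S.card : ℝ) ≤ 20 / η * s * √K := by
  classical
  have hηge : 1 ≤ 1 / η := by rw [le_div_iff₀ h0]; linarith
  rcases Nat.eq_zero_or_pos K with rfl | hK
  · have : S = ∅ := by simpa using hS
    rw [this]
    simp
  have hsK : (1 : ℝ) ≤ √(K : ℝ) := by
    rw [Real.one_le_sqrt]
    exact_mod_cast hK
  have hs1r : (1 : ℝ) ≤ s := by exact_mod_cast hs1
  have hKK : (K : ℝ) = √K * √K := (Real.mul_self_sqrt (Nat.cast_nonneg _)).symm
  have hSK : S.card ≤ K := by
    have := Finset.card_le_card hS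
    rw [Nat.card_Ico, Nat.add_sub_cancel_left] at this
    exact this
  have hsq0 : (0 : ℝ) ≤ s * √K := by positivity
  have e20 : 20 / η * s * √K = 20 * (1 / η) * (s * √K) := by ring
  have hbase : s * √K ≤ 1 / η * (s * √K) := le_mul_of_one_le_left hsq0 hηge
  rcases Nat.lt_or_ge K s with hKs | hKs
  · have h2 : (S.card : ℝ) ≤ K := by exact_mod_cast hSK
    have h4 : √(K : ℝ) ≤ s := by
      have h5 : √(K : ℝ) ≤ K := by
        calc √(K : ℝ) = √(K : ℝ) * 1 := (mul_one _).symm
          _ ≤ √(K : ℝ) * √(K : ℝ) := mul_le_mul_of_nonneg_left hsK (Real.sqrt_nonneg _)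
          _ = K := hKK.symm
      have h6 : (K : ℝ) ≤ s := by exact_mod_cast hKs.le
      linarith
    have h7 : (K : ℝ) ≤ s * √K := by
      calc (K : ℝ) = √K * √K := hKK
        _ ≤ s * √K := mul_le_mul_of_nonneg_right h4 (Real.sqrt_nonneg _)
    rw [e20]
    nlinarith
  set κ : ℝ := -Real.log (1 - η) with hκ
  have hκη : η ≤ κ := by
    have := Real.log_le_sub_one_of_pos (show 0 < 1 - η by linarith)
    rw [hκ]
    linarith
  have hκ0 : 0 < κ := by linarith
  set a' := max a s with ha'
  have hsa : s ≤ a' := le_max_right _ _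
  set j := a + K - a' with hj
  have hjK : j ≤ K := by
    have : a ≤ a' := le_max_left _ _
    omega
  set F := (Finset.Ico a' (a' + j)).filter (fun k => κ < dn (k - s) - dn (k + s)) with hF
  have hsub : S ⊆ Finset.range s ∪ F := by
    intro k hk
    rw [Finset.mem_union]
    by_cases hks : k < s
    · left; exact Finset.mem_range.2 hks
    · right
      have hkK := Finset.mem_Ico.1 (hS hk)
      have hak : a' ≤ k := max_le hkK.1 (by omega)
      rw [hF, Finset.mem_filter, Finset.mem_Ico]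
      refine ⟨⟨hak, by omega⟩, ?_⟩
      have h2 := hbad k hk
      unfold Good at h2
      push Not at h2
      have h3 := h2 (by omega)
      have h4 := Real.log_lt_log (r3_two_pow_pos (k + s)) h3
      rw [Real.log_mul (by have := r3_two_pow_pos (k - s); have : (0:ℝ) < 1 - η := by linarith
                           positivity) (r3_two_pow_pos (k - s)).ne',
        Real.log_mul (by linarith) (by positivity), Real.log_pow] at h4
      simp only [dn]
      have h5 : ((k + s : ℕ) : ℝ) = ((k - s : ℕ) : ℝ) + 2 * s := by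
        have : k + s = (k - s) + 2 * s := by omega
        rw [this]; push_cast; ring
      rw [h5]
      push_cast at h4 ⊢
      rw [hκ]
      linarith
  have hFc : (F.card : ℝ) * κ ≤ 2 * s * (5 * √((j + 2 * s : ℕ) : ℝ)) := by
    have h2 : (F.card : ℝ) * κ ≤ ∑ k ∈ Finset.Ico a' (a' + j), (dn (k - s) - dn (k + s)) := by
      rw [← nsmul_eq_mul]
      refine (Finset.card_nsmul_le_sum _ (fun k => dn (k - s) - dn (k + s)) κ ?_).trans ?_
      · intro k hk
        exact (Finset.mem_filter.1 hk).2.le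
      · apply Finset.sum_le_sum_of_subset_of_nonneg (Finset.filter_subset _ _)
        intro k _ _
        have := dn_antitone (show k - s ≤ k + s by omega)
        linarith
    have h3 := drop_window dn dn_antitone s a' j hsa
    have h4 := dn_drop (a' - s) (j + 2 * s)
    have h5 : a' - s + (j + 2 * s) = a' + j + s := by omega
    rw [h5] at h4
    refine h2.trans (h3.trans ?_)
    exact mul_le_mul_of_nonneg_left h4 (by positivity)
  have hsq : √((j + 2 * s : ℕ) : ℝ) ≤ √3 * √(K : ℝ) := by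
    rw [← Real.sqrt_mul (by norm_num)]
    apply Real.sqrt_le_sqrt
    have : j + 2 * s ≤ 3 * K := by omega
    exact_mod_cast this
  have h3 : √3 ≤ (1.8 : ℝ) := by
    rw [Real.sqrt_le_left (by norm_num)]
    norm_num
  have hFc2 : (F.card : ℝ) ≤ 18 * (1 / η) * (s * √K) := by
    have h4 : (F.card : ℝ) * η ≤ 18 * (s * √K) := by
      calc (F.card : ℝ) * η ≤ F.card * κ := mul_le_mul_of_nonneg_left hκη (Nat.cast_nonneg _)
        _ ≤ 2 * s * (5 * √((j + 2 * s : ℕ) : ℝ)) := hFc
        _ ≤ 2 * s * (5 * (√3 * √(K : ℝ))) := by gcongr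
        _ ≤ 2 * s * (5 * (1.8 * √(K : ℝ))) := by gcongr
        _ = 18 * (s * √K) := by ring
    have h5 : 18 * (1 / η) * (s * √K) = 18 * (s * √K) / η := by ring
    rw [h5, le_div_iff₀ h0]
    exact h4
  have hcard2 := (Finset.card_le_card hsub).trans (Finset.card_union_le _ _)
  rw [Finset.card_range] at hcard2
  have hcard3 : (S.card : ℝ) ≤ s + F.card := by exact_mod_cast hcard2
  have h6 : (s : ℝ) ≤ s * √K := le_mul_of_one_le_right (Nat.cast_nonneg _) hsK
  rw [e20]
  nlinarith

end Pool.Agent.MP_0f71ae_nt.Cnt
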