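import Pool.Agent.MP_0f71ae_nt.Cnt.Linear
import Pool.Agent.MP_0f71ae_nt.Cnt.Defs
import Pool.Agent.MP_0f71ae_nt.Cnt.Win

/-!
# Linearity at almost all scales of every window
-/

set_option autoImplicit false

namespace Pool.Agent.MP_0f71ae_nt.Cnt

open Finset Pool.Agent.MP_0f71ae_nt.Reg

theorem lin_of_good {δ η Λ t : ℝ} {s k : ℕ} (hδ0 : 0 < δ) (hδ1 : δ ≤ 1) (hη : η = δ / 12)
    (hΛ : 1 ≤ Λ) (ht : t = (1 / 2) ^ s) (hΛt : Λ * t ≤ δ / 24) (hgood : Good s η k) :
    ∀ N : ℕ, 2 ^ k ≤ N → N < 2 ^ (k + 1) → LinAt δ Λ N := by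
  subst hη
  have hη0 : 0 < δ / 12 := by positivity
  have hΛ0 : 0 < Λ := by linarith
  have ht0 : 0 < t := by rw [ht]; positivity
  have ht1 : t ≤ δ / 24 := (le_mul_of_one_le_left ht0.le hΛ).trans hΛt
  intro N hN hN2 x hx hx2
  obtain ⟨R, hR0, hR1, hup, hlow, hN1⟩ := good_bounds ht hgood hN hN2
  have hNpos : 1 ≤ N := Nat.one_le_two_pow.trans hN
  have hNr : (0 : ℝ) < N := by exact_mod_cast hNpos
  have hx0 : 0 < x := lt_of_lt_of_le (by positivity) hx
  have htx : t ≤ δ / 24 * x := by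
    have h1 : 1 ≤ Λ * x := by
      rw [div_le_iff₀ hΛ0] at hx; linarith
    have h2 : t ≤ t * (Λ * x) := le_mul_of_one_le_right ht0.le h1
    have h3 : t * (Λ * x) = (Λ * t) * x := by ring
    have h4 : (Λ * t) * x ≤ δ / 24 * x := mul_le_mul_of_nonneg_right hΛt hx0.le
    linarith
  set m : ℕ := ⌊x * N⌋₊ with hm
  have hmx : (m : ℝ) ≤ x * N := Nat.floor_le (by positivity)
  have hmx2 : x * N < m + 1 := Nat.lt_floor_add_one _
  have hmN : (m : ℝ) / N ≤ x := by rw [div_le_iff₀ hNr]; exact hmx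
  have hmN2 : (1 - δ / 24) * x ≤ (m : ℝ) / N := by
    have h1 : x < (m : ℝ) / N + 1 / N := by
      rw [← add_div, lt_div_iff₀ hNr]; exact hmx2
    have h2 : (1 - δ / 24) * x = x - δ / 24 * x := by ring
    linarith
  have hrN0 : (0 : ℝ) ≤ r3 N := Nat.cast_nonneg _
  have hrNup : (r3 N : ℝ) ≤ (1 + δ / 24) * R := by
    have h1 := hup N
    rw [div_self hNr.ne'] at h1
    refine h1.trans (mul_le_mul_of_nonneg_right (by linarith) hR0.le)
  have hrNlow : (1 - δ / 12) * R ≤ (1 + δ / 12) * r3 N := by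
    refine hR1.trans (mul_le_mul_of_nonneg_right (by linarith) hrN0)
  have hrm0 : (0 : ℝ) ≤ r3 m := Nat.cast_nonneg _
  have hmup : (r3 m : ℝ) ≤ (1 + δ / 24) * x * R := by
    refine (hup m).trans (mul_le_mul_of_nonneg_right ?_ hR0.le)
    have : (1 + δ / 24) * x = x + δ / 24 * x := by ring
    linarith
  have hmlow : (1 - δ / 12) * ((1 - δ / 24) * x) * R ≤ (1 + δ / 12) * r3 m := by
    have hmpos : 1 ≤ m := by
      by_contra h0
      have h1 : m = 0 := by omega
      rw [h1] at hmN2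
      simp only [Nat.cast_zero, zero_div] at hmN2
      have : 0 < (1 - δ / 24) * x := mul_pos (by linarith) hx0
      linarith
    have h1 := hlow m hmpos
    have h2 : (1 - δ / 12) * ((1 - δ / 24) * x) * R ≤ (1 - δ / 12) * ((m : ℝ) / N) * R := by
      apply mul_le_mul_of_nonneg_right _ hR0.le
      exact mul_le_mul_of_nonneg_left hmN2 (by linarith)
    have h3 : (1 + 2 * t * ((m : ℝ) / N)) * r3 m ≤ (1 + δ / 12) * r3 m := by
      apply mul_le_mul_of_nonneg_right _ hrm0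
      have h4 : t * ((m : ℝ) / N) ≤ t * Λ := mul_le_mul_of_nonneg_left (hmN.trans hx2) ht0.le
      have h5 : t * Λ = Λ * t := mul_comm _ _
      linarith
    linarith
  have hxr : 0 ≤ x * (r3 N : ℝ) := by positivity
  -- upper: r3 m ≤ (1+δ/24) x R,  (1-δ/12) x R ≤ (1+δ/12) x r3 N
  have hA : (1 - δ / 12) * (x * R) ≤ (1 + δ / 12) * (x * r3 N) := by
    have := mul_le_mul_of_nonneg_left hrNlow hx0.le
    calc (1 - δ / 12) * (x * R) = x * ((1 - δ / 12) * R) := by ring
      _ ≤ x * ((1 + δ / 12) * r3 N) := this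
      _ = _ := by ring
  have hB : x * (r3 N : ℝ) ≤ (1 + δ / 24) * (x * R) := by
    have := mul_le_mul_of_nonneg_left hrNup hx0.le
    calc x * (r3 N : ℝ) ≤ x * ((1 + δ / 24) * R) := this
      _ = _ := by ring
  set X : ℝ := x * R with hX
  set Y : ℝ := x * (r3 N : ℝ) with hY
  have hX0 : 0 < X := mul_pos hx0 hR0
  have hmup' : (r3 m : ℝ) ≤ (1 + δ / 24) * X := by
    rw [hX]; linarith [mul_assoc (1 + δ / 24) x R]
  have hmlow' : (1 - δ / 12) * (1 - δ / 24) * X ≤ (1 + δ / 12) * r3 m := by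
    have : (1 - δ / 12) * (1 - δ / 24) * X = (1 - δ / 12) * ((1 - δ / 24) * x) * R := by
      rw [hX]; ring
    rw [this]; exact hmlow
  exact final_ineq hδ0 hδ1 hX0 hxr hA hB hmup' hmlow'


theorem scale_linear_win (ε : ℝ) (hε : 0 < ε) (hε1 : ε ≤ 1) (Λ : ℝ) (hΛ : 1 ≤ Λ) (a K : ℕ) :
    ((badScales (LinAt ε Λ) a K).card : ℝ) ≤ 1680 * (1 + Real.log (Λ / ε)) / ε * √K := by
  have hl2 : 0 < Real.log 2 := Real.log_pos (by norm_num)
  have hΛ0 : 0 < Λ := by linarith
  have hΛε : 1 ≤ Λ / ε := by rw [le_div_iff₀ hε]; linarith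
  have hl0 : 0 ≤ Real.log (Λ / ε) := Real.log_nonneg hΛε
  have h24 : Real.log 24 ≤ 3.5 := by
    have e : Real.log 24 ≤ Real.log 32 := Real.log_le_log (by norm_num) (by norm_num)
    rw [show (32 : ℝ) = 2 ^ 5 by norm_num, Real.log_pow] at e
    have := Real.log_two_lt_d9
    push_cast at e
    linarith
  have h240 : 0 ≤ Real.log 24 := Real.log_nonneg (by norm_num)
  set y : ℝ := Real.log (24 * (Λ / ε)) / Real.log 2 with hy
  have hylog : Real.log (24 * (Λ / ε)) = Real.log 24 + Real.log (Λ / ε) :=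
    Real.log_mul (by norm_num) (by positivity)
  have hy0 : 0 ≤ y := by rw [hy, hylog]; positivity
  set s : ℕ := ⌊y⌋₊ + 1 with hs
  have hs1 : 1 ≤ s := by omega
  have hsC : (s : ℝ) ≤ 7 * (1 + Real.log (Λ / ε)) := by
    have h1 : (s : ℝ) ≤ y + 1 := by
      rw [hs]; push_cast; linarith [Nat.floor_le hy0]
    have h2 : y ≤ (3.5 + Real.log (Λ / ε)) / 0.693 := by
      rw [hy, hylog]
      apply div_le_div₀ (by positivity) (by linarith) (by norm_num)
      have := Real.log_two_gt_d9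
      linarith
    have h3 : (3.5 + Real.log (Λ / ε)) / 0.693 ≤ 5.1 + 1.45 * Real.log (Λ / ε) := by
      rw [div_le_iff₀ (by norm_num)]
      linarith
    linarith
  set t : ℝ := (1 / 2) ^ s with ht
  have ht0 : 0 < t := by positivity
  have hΛt : Λ * t ≤ ε / 24 := by
    have h1 : y < s := by
      rw [hs]; push_cast; exact Nat.lt_floor_add_one y
    have h2 : Real.log (24 * (Λ / ε)) < s * Real.log 2 := by
      rw [hy, div_lt_iff₀ hl2] at h1; exact h1
    have h3 : 24 * (Λ / ε) < 2 ^ s := by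
      have h4 : Real.log (24 * (Λ / ε)) < Real.log (2 ^ s) := by rw [Real.log_pow]; exact h2
      exact (Real.log_lt_log_iff (by positivity) (by positivity)).1 h4
    have h5 : t * 2 ^ s = 1 := by rw [ht, ← mul_pow]; norm_num
    have h6 : 24 * (Λ / ε) * t ≤ 2 ^ s * t := mul_le_mul_of_nonneg_right h3.le ht0.le
    have h7 : 24 * (Λ / ε) * t ≤ 1 := by linarith
    have h8 : Λ * t = ε / 24 * (24 * (Λ / ε) * t) := by field_simp
    rw [h8]
    calc ε / 24 * (24 * (Λ / ε) * t) ≤ ε / 24 * 1 := mul_le_mul_of_nonneg_left h7 (by positivity)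
      _ = ε / 24 := mul_one _
  classical
  have hbs : ∀ k ∈ badScales (LinAt ε Λ) a K, k ∈ Finset.Ico a (a + K) ∧
      ¬ ∀ N : ℕ, 2 ^ k ≤ N → N < 2 ^ (k + 1) → LinAt ε Λ N := by
    intro k hk
    rw [badScales, Finset.mem_filter] at hk
    exact hk
  refine (card_not_good_window (ε / 12) (by positivity) (by linarith) s hs1 a K _
    (fun k hk => (hbs k hk).1) ?_).trans ?_
  · intro k hk hgood
    exact (hbs k hk).2 (lin_of_good hε hε1 rfl hΛ ht hΛt hgood)
  · have e : 20 / (ε / 12) * s * √K = 240 * (s * (1 / ε * √K)) := by field_simp; ring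
    have e2 : 1680 * (1 + Real.log (Λ / ε)) / ε * √K =
        240 * ((7 * (1 + Real.log (Λ / ε))) * (1 / ε * √K)) := by field_simp; ring
    rw [e, e2]
    apply mul_le_mul_of_nonneg_left _ (by norm_num)
    exact mul_le_mul_of_nonneg_right hsC (by positivity)

end Pool.Agent.MP_0f71ae_nt.Cnt
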