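import Pool.Agent.MP_0f71ae_nt.RegScales

/-!
# MP_0f71ae_nt: `r₃(xN) ~ x r₃(N)` at almost all scales
-/

set_option autoImplicit false

namespace Pool.Agent.MP_0f71ae_nt.Cnt

open Pool.Agent.MP_0f71ae_nt.Reg

theorem final_ineq {δ X Y r : ℝ} (hδ0 : 0 < δ) (hδ1 : δ ≤ 1) (hX0 : 0 < X) (hY : 0 ≤ Y)
    (hA : (1 - δ / 12) * X ≤ (1 + δ / 12) * Y) (hB : Y ≤ (1 + δ / 24) * X)
    (hmup : r ≤ (1 + δ / 24) * X)
    (hmlow : (1 - δ / 12) * (1 - δ / 24) * X ≤ (1 + δ / 12) * r) : |r - Y| ≤ δ * Y := by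
  rw [abs_le]
  constructor
  · have h1 : (1 - δ / 8) * X ≤ (1 - δ / 12) * (1 - δ / 24) * X := by
      apply mul_le_mul_of_nonneg_right _ hX0.le
      nlinarith
    have h2 : (1 - δ) * ((1 + δ / 24) * X) * (1 + δ / 12) ≤ (1 - δ / 8) * X := by
      have e1 : (1 - δ) * ((1 + δ / 24) * X) * (1 + δ / 12) =
        ((1 - δ) * ((1 + δ / 24) * (1 + δ / 12))) * X := by ring
      rw [e1]
      apply mul_le_mul_of_nonneg_right _ hX0.le
      have e2 : (1 + δ / 24) * (1 + δ / 12) ≤ 1 + δ / 4 := by nlinarith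
      have e3 : (1 - δ) * ((1 + δ / 24) * (1 + δ / 12)) ≤ (1 - δ) * (1 + δ / 4) :=
        mul_le_mul_of_nonneg_left e2 (by linarith)
      nlinarith
    have h3 : (1 - δ) * ((1 + δ / 24) * X) * (1 + δ / 12) ≤ r * (1 + δ / 12) := by linarith
    have h4 : (1 - δ) * ((1 + δ / 24) * X) ≤ r := le_of_mul_le_mul_right h3 (by linarith)
    have h5 : (1 - δ) * Y ≤ (1 - δ) * ((1 + δ / 24) * X) :=
      mul_le_mul_of_nonneg_left hB (by linarith)
    have h6 : (1 - δ) * Y = Y - δ * Y := by ring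
    linarith
  · have h1 : (1 + δ / 24) * X * (1 - δ / 12) ≤ (1 + δ) * Y * (1 - δ / 12) := by
      have e1 : (1 + δ / 24) * X * (1 - δ / 12) = (1 + δ / 24) * ((1 - δ / 12) * X) := by ring
      have e2 : (1 + δ / 24) * ((1 - δ / 12) * X) ≤ (1 + δ / 24) * ((1 + δ / 12) * Y) :=
        mul_le_mul_of_nonneg_left hA (by linarith)
      have e3 : (1 + δ / 24) * ((1 + δ / 12) * Y) = ((1 + δ / 24) * (1 + δ / 12)) * Y := by ring
      have e4 : ((1 + δ / 24) * (1 + δ / 12)) * Y ≤ ((1 + δ) * (1 - δ / 12)) * Y := by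
        apply mul_le_mul_of_nonneg_right _ hY
        nlinarith
      have e5 : ((1 + δ) * (1 - δ / 12)) * Y = (1 + δ) * Y * (1 - δ / 12) := by ring
      linarith
    have h2 : (1 + δ / 24) * X ≤ (1 + δ) * Y := le_of_mul_le_mul_right h1 (by linarith)
    have h3 : (1 + δ) * Y = Y + δ * Y := by ring
    linarith

open Classical in
/-- For every `ε > 0` there is `C` such that for every `Λ ≥ 1` and every `K`, all but
`C (1 + log Λ) √K` of the dyadic scales `k < K` have the following property: for every `N` with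
`2^k ≤ N < 2^(k+1)` and every real `x` in `[1/Λ, Λ]`, `|r₃(⌊xN⌋) - x r₃(N)| ≤ ε x r₃(N)`. -/
theorem scale_linear (ε : ℝ) (hε : 0 < ε) :
    ∃ C : ℝ, ∀ Λ : ℝ, 1 ≤ Λ → ∀ K : ℕ,
      (((Finset.range K).filter (fun k => ¬ ∀ N : ℕ, 2 ^ k ≤ N → N < 2 ^ (k + 1) →
        ∀ x : ℝ, 1 / Λ ≤ x → x ≤ Λ →
          |(r3 ⌊x * N⌋₊ : ℝ) - x * r3 N| ≤ ε * (x * r3 N))).card : ℝ) ≤
        C * (1 + Real.log Λ) * √K := by
  set δ : ℝ := min ε 1 with hδ
  have hδ0 : 0 < δ := lt_min hε one_pos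
  have hδε : δ ≤ ε := min_le_left _ _
  have hδ1 : δ ≤ 1 := min_le_right _ _
  set η : ℝ := δ / 12 with hη
  have hη0 : 0 < η := by positivity
  obtain ⟨C, hC0, hC⟩ := card_not_good_unif η hη0 (by linarith)
  have hl2 : 0 < Real.log 2 := Real.log_pos (by norm_num)
  have h24 : 0 ≤ Real.log (24 / δ) := by
    apply Real.log_nonneg
    rw [le_div_iff₀ hδ0]; linarith
  set C1 : ℝ := Real.log (24 / δ) / Real.log 2 + 1 + 1 / Real.log 2 with hC1
  refine ⟨C * C1, ?_⟩
  intro Λ hΛ K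
  have hΛ0 : 0 < Λ := by linarith
  have hlΛ : 0 ≤ Real.log Λ := Real.log_nonneg hΛ
  set y : ℝ := Real.log (24 / δ * Λ) / Real.log 2 with hy
  have hylog : Real.log (24 / δ * Λ) = Real.log (24 / δ) + Real.log Λ :=
    Real.log_mul (by positivity) hΛ0.ne'
  have hy0 : 0 ≤ y := by rw [hy, hylog]; positivity
  set s : ℕ := ⌊y⌋₊ + 1 with hs
  have hs1 : 1 ≤ s := by omega
  have hsC : (s : ℝ) ≤ C1 * (1 + Real.log Λ) := by
    have h1 : (s : ℝ) ≤ y + 1 := by
      rw [hs]; push_cast; linarith [Nat.floor_le hy0]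
    have h2 : y + 1 = Real.log (24 / δ) / Real.log 2 + 1 + Real.log Λ / Real.log 2 := by
      rw [hy, hylog]; ring
    have h3 : C1 * (1 + Real.log Λ) = Real.log (24 / δ) / Real.log 2 + 1 +
        Real.log Λ / Real.log 2 + (1 / Real.log 2 +
        (Real.log (24 / δ) / Real.log 2 + 1) * Real.log Λ) := by
      rw [hC1]; ring
    have h4 : 0 ≤ 1 / Real.log 2 + (Real.log (24 / δ) / Real.log 2 + 1) * Real.log Λ := by
      positivity
    linarith
  set t : ℝ := (1 / 2) ^ s with ht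
  have ht0 : 0 < t := by positivity
  have hΛt : Λ * t ≤ δ / 24 := by
    have h1 : y < s := by
      rw [hs]; push_cast; exact Nat.lt_floor_add_one y
    have h2 : Real.log (24 / δ * Λ) < s * Real.log 2 := by
      rw [hy, div_lt_iff₀ hl2] at h1; exact h1
    have h3 : 24 / δ * Λ < 2 ^ s := by
      have h4 : Real.log (24 / δ * Λ) < Real.log (2 ^ s) := by rw [Real.log_pow]; exact h2
      exact (Real.log_lt_log_iff (by positivity) (by positivity)).1 h4
    have h5 : t * 2 ^ s = 1 := by rw [ht, ← mul_pow]; norm_num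
    have h6 : 24 / δ * Λ * t ≤ 2 ^ s * t := mul_le_mul_of_nonneg_right h3.le ht0.le
    have h7 : 24 / δ * Λ * t ≤ 1 := by linarith
    have h8 : Λ * t = δ / 24 * (24 / δ * Λ * t) := by field_simp
    rw [h8]
    calc δ / 24 * (24 / δ * Λ * t) ≤ δ / 24 * 1 := mul_le_mul_of_nonneg_left h7 (by positivity)
      _ = δ / 24 := mul_one _
  have ht1 : t ≤ δ / 24 := (le_mul_of_one_le_left ht0.le hΛ).trans hΛt
  have hbound : C * s * √K ≤ C * C1 * (1 + Real.log Λ) * √K := by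
    have : C * s ≤ C * (C1 * (1 + Real.log Λ)) := mul_le_mul_of_nonneg_left hsC hC0
    have h2 := mul_le_mul_of_nonneg_right this (Real.sqrt_nonneg (K : ℝ))
    calc C * s * √K ≤ C * (C1 * (1 + Real.log Λ)) * √K := h2
      _ = _ := by ring
  refine (hC s hs1 K _ (Finset.filter_subset _ _) ?_).trans hbound
  intro k hk hgood
  apply (Finset.mem_filter.1 hk).2
  intro N hN hN2 x hx hx2
  obtain ⟨R, hR0, hR1, hup, hlow, hN1⟩ := good_bounds ht hgood hN hN2
  have hNpos : 1 ≤ N := Nat.one_le_two_pow.trans hN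
  have hNr : (0 : ℝ) < N := by exact_mod_cast hNpos
  have hx0 : 0 < x := lt_of_lt_of_le (by positivity) hx
  have htx : t ≤ δ / 24 * x := by
    have h1 : 1 ≤ Λ * x := by
      rw [div_le_iff₀ hΛ0] at hx; linarith
    have h2 : t ≤ t * (Λ * x) := le_mul_of_one_le_right ht0.le h1
    have h3 : t * (Λ * x) = (Λ * t) * x := by ring
    have h4 : (Λ * t) * x ≤ δ / 24 * x := mul_le_mul_of_nonneg_right hΛt hx0.le
    linarith
  set m : ℕ := ⌊x * N⌋₊ with hm
  have hmx : (m : ℝ) ≤ x * N := Nat.floor_le (by positivity)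
  have hmx2 : x * N < m + 1 := Nat.lt_floor_add_one _
  have hmN : (m : ℝ) / N ≤ x := by rw [div_le_iff₀ hNr]; exact hmx
  have hmN2 : (1 - δ / 24) * x ≤ (m : ℝ) / N := by
    have h1 : x < (m : ℝ) / N + 1 / N := by
      rw [← add_div, lt_div_iff₀ hNr]; exact hmx2
    have h2 : (1 - δ / 24) * x = x - δ / 24 * x := by ring
    linarith
  have hrN0 : (0 : ℝ) ≤ r3 N := Nat.cast_nonneg _
  have hrNup : (r3 N : ℝ) ≤ (1 + δ / 24) * R := by
    have h1 := hup N
    rw [div_self hNr.ne'] at h1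
    refine h1.trans (mul_le_mul_of_nonneg_right (by linarith) hR0.le)
  have hrNlow : (1 - δ / 12) * R ≤ (1 + δ / 12) * r3 N := by
    refine hR1.trans (mul_le_mul_of_nonneg_right (by linarith) hrN0)
  have hrm0 : (0 : ℝ) ≤ r3 m := Nat.cast_nonneg _
  have hmup : (r3 m : ℝ) ≤ (1 + δ / 24) * x * R := by
    refine (hup m).trans (mul_le_mul_of_nonneg_right ?_ hR0.le)
    have : (1 + δ / 24) * x = x + δ / 24 * x := by ring
    linarith
  have hmlow : (1 - δ / 12) * ((1 - δ / 24) * x) * R ≤ (1 + δ / 12) * r3 m := by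
    have hmpos : 1 ≤ m := by
      by_contra h0
      have h1 : m = 0 := by omega
      rw [h1] at hmN2
      simp only [Nat.cast_zero, zero_div] at hmN2
      have : 0 < (1 - δ / 24) * x := mul_pos (by linarith) hx0
      linarith
    have h1 := hlow m hmpos
    have h2 : (1 - δ / 12) * ((1 - δ / 24) * x) * R ≤ (1 - η) * ((m : ℝ) / N) * R := by
      apply mul_le_mul_of_nonneg_right _ hR0.le
      exact mul_le_mul_of_nonneg_left hmN2 (by linarith)
    have h3 : (1 + 2 * t * ((m : ℝ) / N)) * r3 m ≤ (1 + δ / 12) * r3 m := by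
      apply mul_le_mul_of_nonneg_right _ hrm0
      have h4 : t * ((m : ℝ) / N) ≤ t * Λ := mul_le_mul_of_nonneg_left (hmN.trans hx2) ht0.le
      have h5 : t * Λ = Λ * t := mul_comm _ _
      linarith
    linarith
  have hxr : 0 ≤ x * (r3 N : ℝ) := by positivity
  have hδr : δ * (x * (r3 N : ℝ)) ≤ ε * (x * r3 N) := mul_le_mul_of_nonneg_right hδε hxr
  -- upper: r3 m ≤ (1+δ/24) x R,  (1-δ/12) x R ≤ (1+δ/12) x r3 N
  have hA : (1 - δ / 12) * (x * R) ≤ (1 + δ / 12) * (x * r3 N) := by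
    have := mul_le_mul_of_nonneg_left hrNlow hx0.le
    calc (1 - δ / 12) * (x * R) = x * ((1 - δ / 12) * R) := by ring
      _ ≤ x * ((1 + δ / 12) * r3 N) := this
      _ = _ := by ring
  have hB : x * (r3 N : ℝ) ≤ (1 + δ / 24) * (x * R) := by
    have := mul_le_mul_of_nonneg_left hrNup hx0.le
    calc x * (r3 N : ℝ) ≤ x * ((1 + δ / 24) * R) := this
      _ = _ := by ring
  set X : ℝ := x * R with hX
  set Y : ℝ := x * (r3 N : ℝ) with hY
  have hX0 : 0 < X := mul_pos hx0 hR0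
  have hmup' : (r3 m : ℝ) ≤ (1 + δ / 24) * X := by
    rw [hX]; linarith [mul_assoc (1 + δ / 24) x R]
  have hmlow' : (1 - δ / 12) * (1 - δ / 24) * X ≤ (1 + δ / 12) * r3 m := by
    have : (1 - δ / 12) * (1 - δ / 24) * X = (1 - δ / 12) * ((1 - δ / 24) * x) * R := by
      rw [hX]; ring
    rw [this]; exact hmlow
  exact (final_ineq hδ0 hδ1 hX0 hxr hA hB hmup' hmlow').trans hδr

end Pool.Agent.MP_0f71ae_nt.Cnt
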