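import Pool.Agent.MP_0f71ae_nt.Cnt.Cont

/-!
# Counting subsets without three-term progressions from supersaturation
-/

set_option autoImplicit false

namespace Pool.Agent.MP_0f71ae_nt.Cnt

open Finset Pool.Agent.MP_0f71ae_nt.Reg

theorem apCount_eq (N : ℕ) : apCount N = nI (Finset.Icc 1 N) ⊥ := by
  classical
  unfold apCount nI
  congr 1
  apply filter_congr
  intro A _
  constructor
  · intro h
    exact ⟨h, by intro y _ z _; simp⟩
  · intro h
    exact h.1

theorem dg_bot (A : Finset ℕ) (v : ℕ) : dg A ⊥ v = 0 := by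
  unfold dg
  rw [card_eq_zero, eq_empty_iff_forall_notMem]
  intro w hw
  rw [mem_dgS] at hw
  simp at hw

theorem rounds (N s0 b E0 : ℕ) (hb : 2 ≤ b) (hs0 : 1 ≤ s0) (hE : 4 * b * (b + 1) * s0 ≤ E0)
    (hsat : ∀ A ⊆ Icc 1 N, A.card = s0 → E0 ≤ (aps A).card) (i : ℕ) :
    ∀ A ⊆ Icc 1 N, A.card < 2 ^ i * s0 → nI A ⊥ ≤ (N + 1) ^ (i * (4 * s0 / b)) * 2 ^ s0 := by
  induction i with
  | zero =>
    intro A hA hc
    rw [pow_zero, one_mul] at hc
    rw [zero_mul, pow_zero, one_mul]
    exact (nI_le_two_pow A ⊥).trans (Nat.pow_le_pow_right (by norm_num) hc.le)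
  | succ i ih =>
    intro A hA hc
    set q := 4 * s0 / b with hq
    set X := (N + 1) ^ (i * q) * 2 ^ s0 with hX
    set P := 2 ^ i with hP
    have hP1 : 1 ≤ P := Nat.one_le_two_pow
    have e4 : 4 ^ i = P * P := by
      rw [hP, ← mul_pow]; norm_num
    have e8 : 8 ^ i = P * P * P := by
      rw [hP, ← mul_pow, ← mul_pow]; norm_num
    have e2 : 2 ^ (i + 1) = 2 * P := by rw [hP, pow_succ]; ring
    set G0 := b * (b + 1) with hG0
    have hE' : 4 * (G0 * s0) ≤ E0 := by
      have : 4 * b * (b + 1) * s0 = 4 * (G0 * s0) := by rw [hG0]; ring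
      omega
    have hbG : b ≤ G0 := by rw [hG0]; exact Nat.le_mul_of_pos_right _ (by omega)
    have key := recursion (Icc 1 N) (P * s0) (2 * P * s0) (P * b) (P * P * G0)
      (P * P * P * E0) X (Nat.mul_pos hP1 hs0)
      (by intro A hA hc; exact ih A hA hc)
      (by
        intro A hA hc
        have := amplify' (Icc 1 N) s0 E0 hs0 hsat A hA i hc
        rw [e8] at this
        exact this)
      (by
        have h1 : 2 * (2 * P * s0) * (P * b) = P * P * (4 * (b * s0)) := by ring
        have h2 : 4 * (b * s0) ≤ 4 * (G0 * s0) :=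
          Nat.mul_le_mul_left _ (Nat.mul_le_mul_right _ hbG)
        rw [h1]
        calc P * P * (4 * (b * s0)) ≤ P * P * E0 := Nat.mul_le_mul_left _ (h2.trans hE')
          _ ≤ P * P * P * E0 := Nat.mul_le_mul_right _ (Nat.le_mul_of_pos_right _ hP1))
      (by
        have h1 : 2 * (P * P * G0) * (2 * P * s0) = P * P * P * (4 * (G0 * s0)) := by ring
        rw [h1]
        exact Nat.mul_le_mul_left _ hE')
      A.card A hA rfl (by rw [e2] at hc; omega) ⊥ (by intro v _; rw [dg_bot]; omega) q (by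
        rw [e2] at hc
        have h1 : (P * b) * (P * b + 1) ≤ P * P * G0 := by
          have : P * P * G0 = (P * b) * (P * b + P) := by rw [hG0]; ring
          rw [this]
          exact Nat.mul_le_mul_left _ (by omega)
        have h2 : A.card * (P * P * G0 + P * b * (P * b + 1)) ≤
            (2 * P * s0) * (2 * (P * P * G0)) :=
          Nat.mul_le_mul (by omega) (by omega)
        have h3 : 4 * s0 < (q + 1) * b := by
          rw [hq]
          have := Nat.lt_div_mul_add (a := 4 * s0) (b := b) (by omega)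
          rw [Nat.add_mul, one_mul]
          exact this
        have h4 : (2 * P * s0) * (2 * (P * P * G0)) = (4 * s0) * (P * (P * P * G0)) := by ring
        have h5 : (q + 1) * (P * b * (P * P * G0)) = ((q + 1) * b) * (P * (P * P * G0)) := by ring
        have h6 : 0 < P * (P * P * G0) := by
          have : 0 < G0 := by omega
          positivity
        have h7 := Nat.mul_lt_mul_of_pos_right h3 h6
        rw [h5]
        omega)
    have hAN : A.card ≤ N := by
      have := card_le_card hA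
      simpa using this
    calc nI A ⊥ ≤ (A.card + 1) ^ q * X := key
      _ ≤ (N + 1) ^ q * X := Nat.mul_le_mul_right _ (Nat.pow_le_pow_left (by omega) _)
      _ = (N + 1) ^ ((i + 1) * q) * 2 ^ s0 := by
        rw [hX, ← mul_assoc, ← pow_add]
        congr 2
        ring

theorem count_le (N s0 b E0 : ℕ) (hb : 2 ≤ b) (hs0 : 1 ≤ s0) (hE : 4 * b * (b + 1) * s0 ≤ E0)
    (hsat : ∀ A ⊆ Icc 1 N, A.card = s0 → E0 ≤ (aps A).card) :
    apCount N ≤ (N + 1) ^ ((Nat.log 2 N + 1) * (4 * s0 / b)) * 2 ^ s0 := by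
  rw [apCount_eq]
  apply rounds N s0 b E0 hb hs0 hE hsat
  · exact Subset.refl _
  · rw [Nat.card_Icc, Nat.add_sub_cancel]
    calc N < 2 ^ (Nat.log 2 N + 1) := Nat.lt_pow_succ_log_self (by norm_num) N
      _ ≤ 2 ^ (Nat.log 2 N + 1) * s0 := Nat.le_mul_of_pos_right _ hs0

theorem two_pow_le_apCount (N : ℕ) : 2 ^ r3 N ≤ apCount N := by
  classical
  obtain ⟨A, hA, hf, hc⟩ := exists_r3 N
  rw [← hc, ← card_powerset]
  unfold apCount
  apply card_le_card
  intro B hB
  rw [mem_powerset] at hB
  rw [mem_filter, mem_powerset]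
  exact ⟨hB.trans hA, fun a d hd h => hf a d hd ⟨hB h.1, hB h.2.1, hB h.2.2⟩⟩

end Pool.Agent.MP_0f71ae_nt.Cnt
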