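import Pool.Agent.MP_0f71ae_nt.Cnt.Defs

/-!
# Supersaturation for three-term progressions by sampling along progressions
-/

set_option autoImplicit false

namespace Pool.Agent.MP_0f71ae_nt.Cnt

open Finset Pool.Agent.MP_0f71ae_nt.Reg

/-- Those with difference divisible by `d`. -/
def apsd (d : ℕ) (A : Finset ℕ) : Finset (ℕ × ℕ) :=
  (aps A).filter (fun p => d ∣ p.2 - p.1)

theorem mem_aps {A : Finset ℕ} {p : ℕ × ℕ} :
    p ∈ aps A ↔ (p.1 ∈ A ∧ p.2 ∈ A) ∧ p.1 < p.2 ∧ 2 * p.2 - p.1 ∈ A := by
  rw [aps, mem_filter, mem_product]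

theorem aps_mono {A B : Finset ℕ} (h : A ⊆ B) : aps A ⊆ aps B := by
  intro p hp
  rw [mem_aps] at hp ⊢
  exact ⟨⟨h hp.1.1, h hp.1.2⟩, hp.2.1, h hp.2.2⟩

/-- Deleting the first term of every progression. -/
theorem card_le_aps (X : Finset ℕ) (α : ℕ) (h : ∀ Y ⊆ X, APFree Y → Y.card ≤ α) :
    X.card ≤ (aps X).card + α := by
  classical
  set Z := (aps X).image Prod.fst with hZ
  have h1 : (X \ Z).card ≤ α := by
    apply h _ sdiff_subset
    intro a d hd hcon
    obtain ⟨h0, h1, h2⟩ := hcon
    rw [mem_sdiff] at h0 h1 h2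
    apply h0.2
    rw [hZ, mem_image]
    refine ⟨(a, a + d), ?_, rfl⟩
    rw [mem_aps]
    refine ⟨⟨h0.1, h1.1⟩, by simp only; omega, ?_⟩
    have e : 2 * (a + d) - a = a + 2 * d := by omega
    simp only [e]
    exact h2.1
  have h2 : X.card ≤ Z.card + (X \ Z).card := by
    calc X.card ≤ (Z ∪ (X \ Z)).card := card_le_card (by
          intro x hx
          rw [mem_union, mem_sdiff]
          by_cases hz : x ∈ Z
          · exact Or.inl hz
          · exact Or.inr ⟨hx, hz⟩)
      _ ≤ _ := card_union_le _ _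
  have h3 : Z.card ≤ (aps X).card := card_image_le
  omega

/-- `x` lies in the progression `b - dM, …, b - d`. -/
def InW (d M x b : ℕ) : Prop := ∃ j ∈ Finset.Icc 1 M, x + d * j = b

open Classical in
/-- The part of `A` in the progression `b - dM, …, b - d`. -/
noncomputable def pw (A : Finset ℕ) (d M b : ℕ) : Finset ℕ :=
  A.filter (fun x => InW d M x b)

theorem pw_card_le (A : Finset ℕ) (d M b : ℕ) (hd : 1 ≤ d) :
    (pw A d M b).card ≤ (apsd d (pw A d M b)).card + r3 M := by
  classical
  have h1 : apsd d (pw A d M b) = aps (pw A d M b) := by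
    rw [apsd, filter_eq_self]
    intro p hp
    rw [mem_aps] at hp
    obtain ⟨⟨h1, h2⟩, h3, -⟩ := hp
    rw [pw, mem_filter] at h1 h2
    obtain ⟨-, j1, hj1, e1⟩ := h1
    obtain ⟨-, j2, hj2, e2⟩ := h2
    refine ⟨j1 - j2, ?_⟩
    rw [Nat.mul_sub]
    omega
  rw [h1]
  apply card_le_aps
  intro Y hY hYf
  set f : ℕ → ℕ := fun x => (b - x) / d with hf
  have hmem : ∀ x ∈ Y, 1 ≤ f x ∧ f x ≤ M ∧ x + d * f x = b := by
    intro x hx
    have h := hY hx
    rw [pw, mem_filter] at h
    obtain ⟨-, j, hj, e⟩ := h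
    have e2 : f x = j := by
      simp only [hf]
      have : b - x = d * j := by omega
      rw [this, Nat.mul_div_cancel_left _ (by omega)]
    rw [e2]
    exact ⟨(mem_Icc.1 hj).1, (mem_Icc.1 hj).2, e⟩
  have hinj : Set.InjOn f (Y : Set ℕ) := by
    intro x hx y hy hxy
    have a := (hmem x hx).2.2
    have b := (hmem y hy).2.2
    rw [hxy] at a
    omega
  rw [← card_image_of_injOn hinj]
  apply card_le_r3
  · intro z hz
    rw [mem_image] at hz
    obtain ⟨x, hx, rfl⟩ := hz
    exact mem_Icc.2 ⟨(hmem x hx).1, (hmem x hx).2.1⟩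
  · intro a e he hcon
    obtain ⟨h0, h1, h2⟩ := hcon
    rw [mem_image] at h0 h1 h2
    obtain ⟨x0, hx0, e0⟩ := h0
    obtain ⟨x1, hx1, e1⟩ := h1
    obtain ⟨x2, hx2, e2⟩ := h2
    have a0 := (hmem x0 hx0).2.2
    have a1 := (hmem x1 hx1).2.2
    have a2 := (hmem x2 hx2).2.2
    rw [e0] at a0
    rw [e1, Nat.mul_add] at a1
    rw [e2, Nat.mul_add, show d * (2 * e) = 2 * (d * e) by ring] at a2
    refine hYf x2 (d * e) (Nat.mul_pos (by omega) (by omega)) ⟨hx2, ?_, ?_⟩
    · have : x2 + d * e = x1 := by omega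
      rw [this]; exact hx1
    · have : x2 + 2 * (d * e) = x0 := by omega
      rw [this]; exact hx0

/-- Double counting over the windows. -/
theorem sample (A : Finset ℕ) (N d M : ℕ) (hA : A ⊆ Icc 1 N) (hd : 1 ≤ d) :
    M * A.card ≤ M * (apsd d A).card + (N + d * M) * r3 M := by
  classical
  -- windows containing `x`
  have hcard : ∀ x : ℕ, x ≤ N → ((Icc 1 (N + d * M)).filter
      (fun b => InW d M x b)).card ≤ M := by
    intro x _
    calc ((Icc 1 (N + d * M)).filter (fun b => InW d M x b)).card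
        ≤ ((Icc 1 M).image (fun j => x + d * j)).card := by
          apply card_le_card
          intro b hb
          rw [mem_filter] at hb
          obtain ⟨-, j, hj, e⟩ := hb
          exact mem_image.2 ⟨j, hj, e⟩
      _ ≤ (Icc 1 M).card := card_image_le
      _ = M := by simp
  have hcard2 : ∀ x ∈ A, M ≤ ((Icc 1 (N + d * M)).filter
      (fun b => InW d M x b)).card := by
    intro x hx
    have hxN := mem_Icc.1 (hA hx)
    have e : (Icc 1 M).card = M := by simp
    have e2 : ((Icc 1 M).image (fun j => x + d * j)).card = (Icc 1 M).card := by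
      apply card_image_of_injective
      intro i j hij
      have : d * i = d * j := by simpa using hij
      exact Nat.eq_of_mul_eq_mul_left (by omega) this
    calc M = ((Icc 1 M).image (fun j => x + d * j)).card := by rw [e2, e]
      _ ≤ _ := by
        apply card_le_card
        intro b hb
        rw [mem_image] at hb
        obtain ⟨j, hj, rfl⟩ := hb
        rw [mem_filter, mem_Icc]
        have hj2 := mem_Icc.1 hj
        have : d * j ≤ d * M := Nat.mul_le_mul_left _ hj2.2
        exact ⟨⟨by omega, by omega⟩, j, hj, rfl⟩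
  have h1 : M * A.card ≤ ∑ b ∈ Icc 1 (N + d * M), (pw A d M b).card := by
    calc M * A.card = ∑ x ∈ A, M := by rw [sum_const, smul_eq_mul, mul_comm]
      _ ≤ ∑ x ∈ A, ((Icc 1 (N + d * M)).filter
          (fun b => InW d M x b)).card := sum_le_sum hcard2
      _ = ∑ b ∈ Icc 1 (N + d * M), (pw A d M b).card := by
          simp only [pw, card_filter]
          rw [sum_comm]
  have h2 : ∑ b ∈ Icc 1 (N + d * M), (pw A d M b).card ≤
      ∑ b ∈ Icc 1 (N + d * M), ((apsd d (pw A d M b)).card + r3 M) :=
    sum_le_sum (fun b _ => pw_card_le A d M b hd)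
  rw [sum_add_distrib, sum_const, smul_eq_mul, Nat.card_Icc, Nat.add_sub_cancel] at h2
  have h3 : ∑ b ∈ Icc 1 (N + d * M), (apsd d (pw A d M b)).card ≤ M * (apsd d A).card := by
    calc ∑ b ∈ Icc 1 (N + d * M), (apsd d (pw A d M b)).card
        ≤ ∑ b ∈ Icc 1 (N + d * M), ((apsd d A).filter
            (fun p => InW d M p.1 b)).card := by
          apply sum_le_sum
          intro b _
          apply card_le_card
          intro p hp
          rw [apsd, mem_filter] at hp
          have hp1 := hp.1
          rw [mem_aps] at hp1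
          have hsub : pw A d M b ⊆ A := filter_subset _ _
          rw [mem_filter, apsd, mem_filter]
          refine ⟨⟨aps_mono hsub hp.1, hp.2⟩, ?_⟩
          have := hp1.1.1
          rw [pw, mem_filter] at this
          exact this.2
      _ = ∑ p ∈ apsd d A, ((Icc 1 (N + d * M)).filter
          (fun b => InW d M p.1 b)).card := by
          simp only [card_filter]
          rw [sum_comm]
      _ ≤ ∑ p ∈ apsd d A, M := by
          apply sum_le_sum
          intro p hp
          rw [apsd, mem_filter] at hp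
          have hp1 := hp.1
          rw [mem_aps] at hp1
          exact hcard p.1 (mem_Icc.1 (hA hp1.1.1)).2
      _ = M * (apsd d A).card := by rw [sum_const, smul_eq_mul, mul_comm]
  omega

/-- The number of primes of a set dividing `m` is at most `log₂ m`. -/
theorem card_primes_dvd (D : Finset ℕ) (hD : ∀ p ∈ D, p.Prime) (m : ℕ) (hm : 1 ≤ m) :
    (D.filter (fun p => p ∣ m)).card ≤ Nat.log 2 m := by
  have h1 : (D.filter (fun p => p ∣ m)) ⊆ m.primeFactors := by
    intro p hp
    rw [mem_filter] at hp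
    exact Nat.mem_primeFactors.2 ⟨hD p hp.1, hp.2, by omega⟩
  refine le_trans (card_le_card h1) ?_
  apply Nat.le_log_of_pow_le (by norm_num)
  calc 2 ^ m.primeFactors.card ≤ ∏ p ∈ m.primeFactors, p :=
        Finset.pow_card_le_prod _ _ _ (fun p hp => (Nat.prime_of_mem_primeFactors hp).two_le)
    _ ≤ m := Nat.le_of_dvd (by omega) (Nat.prod_primeFactors_dvd m)

/-- Supersaturation from the scale `M`. -/
theorem supersat (N M s : ℕ) (D : Finset ℕ) (hD : ∀ p ∈ D, p.Prime) (hM : 1 ≤ M)
    (hs : ∀ d ∈ D, (N + d * M) * r3 M ≤ M * s) (A : Finset ℕ) (hA : A ⊆ Icc 1 N) :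
    D.card * (A.card - s) ≤ Nat.log 2 N * (aps A).card := by
  classical
  have h1 : ∀ d ∈ D, A.card - s ≤ (apsd d A).card := by
    intro d hd
    have h := sample A N d M hA (hD d hd).one_le
    have h2 := hs d hd
    have h3 : M * A.card ≤ M * ((apsd d A).card + s) := by rw [Nat.mul_add]; omega
    have h4 := Nat.le_of_mul_le_mul_left h3 (by omega)
    omega
  calc D.card * (A.card - s) = ∑ d ∈ D, (A.card - s) := by rw [sum_const, smul_eq_mul]
    _ ≤ ∑ d ∈ D, (apsd d A).card := sum_le_sum h1
    _ = ∑ p ∈ aps A, (D.filter (fun d => d ∣ p.2 - p.1)).card := by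
        simp only [apsd, card_filter]
        rw [sum_comm]
    _ ≤ ∑ p ∈ aps A, Nat.log 2 N := by
        apply sum_le_sum
        intro p hp
        rw [mem_aps] at hp
        have hp2 := mem_Icc.1 (hA hp.1.2)
        refine (card_primes_dvd D hD (p.2 - p.1) (by omega)).trans ?_
        exact Nat.log_mono_right (by omega)
    _ = Nat.log 2 N * (aps A).card := by rw [sum_const, smul_eq_mul, mul_comm]

end Pool.Agent.MP_0f71ae_nt.Cnt
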