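import Pool.Agent.MP_0f71ae_nt.Cnt.All
import Pool.Agent.MP_0f71ae_nt.Cnt.Linear

/-!
# Supersaturation and counting at almost all scales
-/

set_option autoImplicit false

namespace Pool.Agent.MP_0f71ae_nt.Cnt

open Finset Pool.Agent.MP_0f71ae_nt.Reg

theorem supersat_real (N M : ℕ) (σ : ℝ) (D : Finset ℕ) (hD : ∀ p ∈ D, p.Prime) (hM : 1 ≤ M)
    (hs : ∀ d ∈ D, ((N : ℝ) + d * M) * r3 M ≤ M * σ) (A : Finset ℕ) (hA : A ⊆ Icc 1 N) :
    (D.card : ℝ) * (A.card - σ) ≤ (Nat.log 2 N : ℝ) * (aps A).card := by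
  classical
  have h1 : ∀ d ∈ D, (A.card : ℝ) - σ ≤ (apsd d A).card := by
    intro d hd
    have h := sample A N d M hA (hD d hd).one_le
    have h2 := hs d hd
    have h3 : (M : ℝ) * A.card ≤ M * (apsd d A).card + ((N : ℝ) + d * M) * r3 M := by
      exact_mod_cast h
    have hM' : (0 : ℝ) < M := by exact_mod_cast hM
    have h4 : (M : ℝ) * A.card ≤ M * ((apsd d A).card + σ) := by rw [mul_add]; linarith
    have h5 := le_of_mul_le_mul_left h4 hM'
    linarith
  have h2 : ∑ d ∈ D, (apsd d A).card ≤ Nat.log 2 N * (aps A).card := by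
    calc ∑ d ∈ D, (apsd d A).card = ∑ p ∈ aps A, (D.filter (fun d => d ∣ p.2 - p.1)).card := by
          simp only [apsd, card_filter]
          rw [sum_comm]
      _ ≤ ∑ p ∈ aps A, Nat.log 2 N := by
          apply sum_le_sum
          intro p hp
          rw [mem_aps] at hp
          have hp2 := mem_Icc.1 (hA hp.1.2)
          refine (card_primes_dvd D hD (p.2 - p.1) (by omega)).trans ?_
          exact Nat.log_mono_right (by omega)
      _ = Nat.log 2 N * (aps A).card := by rw [sum_const, smul_eq_mul, mul_comm]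
  calc (D.card : ℝ) * (A.card - σ) = ∑ d ∈ D, ((A.card : ℝ) - σ) := by
        rw [sum_const, nsmul_eq_mul]
    _ ≤ ∑ d ∈ D, ((apsd d A).card : ℝ) := sum_le_sum h1
    _ = ((∑ d ∈ D, (apsd d A).card : ℕ) : ℝ) := by push_cast; rfl
    _ ≤ ((Nat.log 2 N * (aps A).card : ℕ) : ℝ) := by exact_mod_cast h2
    _ = _ := by push_cast; ring

/-- Supersaturation for one `N`. -/
theorem sat_one {ε η Λ : ℝ} (hε : 0 < ε) (hη0 : 0 < η) (hη1 : η ≤ 1 / 10) (hηε : η ≤ ε / 10)
    (hΛ : 1 ≤ Λ) (N : ℕ) (hN1 : 1 ≤ N) (hN : Λ * (2 / η) ≤ N)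
    (hlin : |(r3 ⌊1 / Λ * N⌋₊ : ℝ) - 1 / Λ * r3 N| ≤ η * (1 / Λ * r3 N))
    (A : Finset ℕ) (hA : A ⊆ Icc 1 N) (hAc : (1 + ε) * r3 N ≤ A.card) :
    η * ε / 32 * Λ * r3 N ≤ (1 + Real.log Λ) * (1 + Real.log N) * (aps A).card := by
  have hΛ0 : 0 < Λ := by linarith
  have hN1' : (1 : ℝ) ≤ N := by exact_mod_cast hN1
  have hlΛ : 0 ≤ Real.log Λ := Real.log_nonneg hΛ
  have hlN : 0 ≤ Real.log N := Real.log_nonneg hN1'
  have hr0 : (0 : ℝ) ≤ r3 N := by positivity
  set y : ℕ := ⌊η * Λ⌋₊ with hy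
  rcases Nat.lt_or_ge y 4 with hy4 | hy4
  · -- trivial range
    have h1 : η * Λ < 4 := by
      have := Nat.lt_floor_add_one (η * Λ)
      rw [← hy] at this
      have h2 : (y : ℝ) + 1 ≤ 4 := by exact_mod_cast hy4
      linarith
    have h2 : A.card ≤ (aps A).card + r3 N :=
      card_le_aps A (r3 N) (fun Y hY hf => card_le_r3 (hY.trans hA) hf)
    have h3 : (A.card : ℝ) ≤ (aps A).card + r3 N := by exact_mod_cast h2
    have h4 : ε * r3 N ≤ (aps A).card := by linarith
    have h5 : η * ε / 32 * Λ * r3 N ≤ ε * r3 N := by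
      have : η * ε / 32 * Λ = ε * (η * Λ / 32) := by ring
      rw [this]
      apply mul_le_mul_of_nonneg_right _ hr0
      nlinarith
    have h6 : ((aps A).card : ℝ) ≤ (1 + Real.log Λ) * (1 + Real.log N) * (aps A).card := by
      apply le_mul_of_one_le_left (by positivity)
      nlinarith [mul_nonneg hlΛ hlN]
    linarith
  · set M : ℕ := ⌊1 / Λ * N⌋₊ with hM
    have hMle : (M : ℝ) ≤ 1 / Λ * N := Nat.floor_le (by positivity)
    have hMge : 1 / Λ * N < M + 1 := Nat.lt_floor_add_one _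
    have hNΛ : 2 / η ≤ 1 / Λ * N := by
      rw [one_div, inv_mul_eq_div, le_div_iff₀ hΛ0]
      linarith
    have hη2 : 1 ≤ 1 / η := by
      rw [le_div_iff₀ hη0]; linarith
    have hMη : 1 / η ≤ M := by
      have : 2 / η = 1 / η + 1 / η := by ring
      linarith
    have hM1 : 1 ≤ M := by
      have : (1 : ℝ) ≤ M := hη2.trans hMη
      exact_mod_cast this
    have hM0 : (0 : ℝ) < M := by exact_mod_cast hM1
    have hM2 : (M : ℝ) + 1 ≤ (1 + η) * M := by
      have : 1 ≤ η * M := by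
        rw [div_le_iff₀ hη0] at hMη
        linarith
      linarith
    have hrM : (r3 M : ℝ) ≤ (1 + η) * (1 / Λ * r3 N) := by
      have := (abs_le.1 hlin).2
      linarith
    have hs : ∀ d ∈ pr y, ((N : ℝ) + d * M) * r3 M ≤ M * ((1 + η) ^ 3 * r3 N) := by
      intro d hd
      have hdy : (d : ℝ) ≤ η * Λ := by
        have h1 : (d : ℝ) ≤ y := by exact_mod_cast pr_le y d hd
        exact h1.trans (Nat.floor_le (by positivity))
      have h1 : (N : ℝ) + d * M ≤ (1 + η) * N := by
        have h2 : (d : ℝ) * M ≤ (η * Λ) * (1 / Λ * N) :=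
          mul_le_mul hdy hMle (by positivity) (by positivity)
        have h3 : (η * Λ) * (1 / Λ * N) = η * N := by field_simp
        linarith
      calc ((N : ℝ) + d * M) * r3 M ≤ ((1 + η) * N) * ((1 + η) * (1 / Λ * r3 N)) :=
            mul_le_mul h1 hrM (by positivity) (by positivity)
        _ = (1 / Λ * N) * ((1 + η) ^ 2 * r3 N) := by ring
        _ ≤ ((1 + η) * M) * ((1 + η) ^ 2 * r3 N) := by
            apply mul_le_mul_of_nonneg_right _ (by positivity)
            linarith
        _ = M * ((1 + η) ^ 3 * r3 N) := by ring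
    have h1 := supersat_real N M ((1 + η) ^ 3 * r3 N) (pr y) (pr_prime y) hM1 hs A hA
    have h2 : ε / 2 * r3 N ≤ (A.card : ℝ) - (1 + η) ^ 3 * r3 N := by
      have h3 : (1 + η) ^ 3 ≤ 1 + ε / 2 := by
        have : (1 + η) ^ 3 = 1 + 3 * η + 3 * η ^ 2 + η ^ 3 := by ring
        have e2 : η ^ 2 ≤ η * (1 / 10) := by rw [sq]; exact mul_le_mul_of_nonneg_left hη1 hη0.le
        have e3 : η ^ 3 ≤ η * (1 / 100) := by
          have : η ^ 3 = η * (η * η) := by ring
          rw [this]
          apply mul_le_mul_of_nonneg_left _ hη0.le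
          nlinarith
        linarith
      have h4 := mul_le_mul_of_nonneg_right h3 hr0
      linarith
    have hy4' : (4 : ℝ) ≤ y := by exact_mod_cast hy4
    have hyle : (y : ℝ) ≤ η * Λ := Nat.floor_le (by positivity)
    have hyge : η * Λ / 2 ≤ y := by
      have := Nat.lt_floor_add_one (η * Λ)
      rw [← hy] at this
      linarith
    have hly : Real.log y ≤ 1 + Real.log Λ := by
      have : Real.log y ≤ Real.log Λ := by
        apply Real.log_le_log (by linarith)
        nlinarith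
      linarith
    have hly0 : 0 < Real.log y := Real.log_pos (by linarith)
    have h5 := pr_ge y hy4
    have h6 : η * Λ / 8 ≤ (pr y).card * (1 + Real.log Λ) := by
      have : ((pr y).card : ℝ) * Real.log y ≤ (pr y).card * (1 + Real.log Λ) :=
        mul_le_mul_of_nonneg_left hly (by positivity)
      linarith
    have h7 : ((pr y).card : ℝ) * (ε / 2 * r3 N) ≤ (Nat.log 2 N : ℝ) * (aps A).card :=
      (mul_le_mul_of_nonneg_left h2 (by positivity)).trans h1
    have h8 : (Nat.log 2 N : ℝ) ≤ 2 * (1 + Real.log N) := by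
      have h2n : 2 ^ Nat.log 2 N ≤ N := Nat.pow_log_le_self 2 (by omega)
      have h3 : Real.log ((2 : ℝ) ^ Nat.log 2 N) ≤ Real.log N :=
        Real.log_le_log (by positivity) (by exact_mod_cast h2n)
      rw [Real.log_pow] at h3
      have hl2 := Real.log_two_gt_d9
      have h0 : (0 : ℝ) ≤ (Nat.log 2 N : ℝ) := by positivity
      nlinarith
    have h9 : (0 : ℝ) ≤ (aps A).card := by positivity
    calc η * ε / 32 * Λ * r3 N = (η * Λ / 8) * (ε / 2 * r3 N) / 2 := by ring
      _ ≤ ((pr y).card * (1 + Real.log Λ)) * (ε / 2 * r3 N) / 2 := by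
          apply div_le_div_of_nonneg_right _ (by norm_num)
          exact mul_le_mul_of_nonneg_right h6 (by positivity)
      _ = (1 + Real.log Λ) * (((pr y).card : ℝ) * (ε / 2 * r3 N)) / 2 := by ring
      _ ≤ (1 + Real.log Λ) * ((2 * (1 + Real.log N)) * (aps A).card) / 2 := by
          apply div_le_div_of_nonneg_right _ (by norm_num)
          apply mul_le_mul_of_nonneg_left _ (by linarith)
          exact h7.trans (mul_le_mul_of_nonneg_right h8 h9)
      _ = (1 + Real.log Λ) * (1 + Real.log N) * (aps A).card := by ring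

/-- The property (linearity and supersaturation) at the scale `k`. -/
def GoodAt (ε c Λ : ℝ) (k : ℕ) : Prop :=
  ∀ N : ℕ, 2 ^ k ≤ N → N < 2 ^ (k + 1) →
    (∀ x : ℝ, 1 / Λ ≤ x → x ≤ Λ → |(r3 ⌊x * N⌋₊ : ℝ) - x * r3 N| ≤ ε * (x * r3 N)) ∧
    (∀ A ⊆ Finset.Icc 1 N, (1 + ε) * r3 N ≤ A.card →
      c * Λ * r3 N ≤ (1 + Real.log Λ) * (1 + Real.log N) * (aps A).card)

open Classical in
theorem scales (ε : ℝ) (hε : 0 < ε) : ∃ C c : ℝ, 0 < C ∧ 0 < c ∧ ∀ Λ : ℝ, 1 ≤ Λ → ∀ K : ℕ,
    (((Finset.range K).filter (fun k => ¬ GoodAt ε c Λ k)).card : ℝ) ≤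
      C * (1 + Real.log Λ) * √K := by
  set η : ℝ := min (ε / 10) (1 / 10) with hη
  have hη0 : 0 < η := lt_min (by positivity) (by norm_num)
  have hη1 : η ≤ 1 / 10 := min_le_right _ _
  have hηε : η ≤ ε / 10 := min_le_left _ _
  obtain ⟨C1, hC1⟩ := scale_linear η hη0
  have hl2 : 0 < Real.log 2 := Real.log_pos (by norm_num)
  have h2η : 0 ≤ Real.log (2 / η) := by
    apply Real.log_nonneg
    rw [le_div_iff₀ hη0]; linarith
  set C2 : ℝ := (Real.log (2 / η) + 1) / Real.log 2 + 1 with hC2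
  have hC20 : 0 < C2 := by positivity
  refine ⟨|C1| + C2, η * ε / 32, by positivity, by positivity, ?_⟩
  intro Λ hΛ K
  have hΛ0 : 0 < Λ := by linarith
  have hlΛ : 0 ≤ Real.log Λ := Real.log_nonneg hΛ
  rcases Nat.eq_zero_or_pos K with rfl | hK
  · simp
  have hK1 : (1 : ℝ) ≤ √K := by
    rw [Real.one_le_sqrt]; exact_mod_cast hK
  set E1 := (Finset.range K).filter (fun k => ¬ ∀ N : ℕ, 2 ^ k ≤ N → N < 2 ^ (k + 1) →
        ∀ x : ℝ, 1 / Λ ≤ x → x ≤ Λ →
          |(r3 ⌊x * N⌋₊ : ℝ) - x * r3 N| ≤ η * (x * r3 N)) with hE1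
  set E2 := (Finset.range K).filter (fun k => (2 : ℝ) ^ k < Λ * (2 / η)) with hE2
  have hsub : (Finset.range K).filter (fun k => ¬ GoodAt ε (η * ε / 32) Λ k) ⊆ E1 ∪ E2 := by
    intro k hk
    rw [mem_filter] at hk
    rw [mem_union, hE1, mem_filter, hE2, mem_filter]
    by_contra hcon
    rw [not_or] at hcon
    have h1 := hcon.1
    have h2 := hcon.2
    rw [not_and, not_not] at h1
    rw [not_and, not_lt] at h2
    apply hk.2
    intro N hN1 hN2
    have hN0 : 1 ≤ N := le_trans (Nat.one_le_two_pow) hN1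
    have hlin := h1 hk.1 N hN1 hN2
    refine ⟨?_, ?_⟩
    · intro x hx1 hx2
      refine (hlin x hx1 hx2).trans ?_
      apply mul_le_mul_of_nonneg_right
      · linarith
      · have : 0 < x := lt_of_lt_of_le (by positivity) hx1
        positivity
    · intro A hA hAc
      refine sat_one hε hη0 hη1 hηε hΛ N hN0 ?_ ?_ A hA hAc
      · have h3 : ((2 : ℝ)) ^ k ≤ N := by exact_mod_cast hN1
        exact (h2 hk.1).trans h3
      · apply hlin
        · exact le_rfl
        · rw [div_le_iff₀ hΛ0]; nlinarith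
  have hE1c : (E1.card : ℝ) ≤ |C1| * (1 + Real.log Λ) * √K := by
    refine (hC1 Λ hΛ K).trans ?_
    apply mul_le_mul_of_nonneg_right _ (by positivity)
    apply mul_le_mul_of_nonneg_right (le_abs_self _) (by linarith)
  have hE2c : (E2.card : ℝ) ≤ C2 * (1 + Real.log Λ) := by
    set T : ℝ := Real.log (Λ * (2 / η)) / Real.log 2 with hT
    have hlog : Real.log (Λ * (2 / η)) = Real.log Λ + Real.log (2 / η) :=
      Real.log_mul hΛ0.ne' (by positivity)
    have hT0 : 0 ≤ T := by rw [hT, hlog]; positivity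
    have h1 : E2 ⊆ Finset.range ⌈T⌉₊ := by
      intro k hk
      rw [hE2, mem_filter] at hk
      rw [mem_range, Nat.lt_ceil, hT, lt_div_iff₀ hl2]
      have := Real.log_lt_log (by positivity) hk.2
      rw [Real.log_pow] at this
      exact this
    have h2 : (E2.card : ℝ) ≤ T + 1 := by
      have h3 := card_le_card h1
      rw [card_range] at h3
      have h4 : (E2.card : ℝ) ≤ (⌈T⌉₊ : ℝ) := by exact_mod_cast h3
      exact h4.trans (Nat.ceil_lt_add_one hT0).le
    refine h2.trans ?_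
    have e : T = (Real.log Λ + Real.log (2 / η)) / Real.log 2 := by rw [hT, hlog]
    rw [e, hC2]
    have e2 : ((Real.log (2 / η) + 1) / Real.log 2 + 1) * (1 + Real.log Λ) =
        (Real.log Λ + Real.log (2 / η)) / Real.log 2 + 1 + (1 / Real.log 2 +
          Real.log (2 / η) * Real.log Λ / Real.log 2 + Real.log Λ) := by
      field_simp
      ring
    rw [e2]
    have : 0 ≤ 1 / Real.log 2 + Real.log (2 / η) * Real.log Λ / Real.log 2 + Real.log Λ := by
      positivity
    linarith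
  have h3 := card_le_card hsub
  have h4 := card_union_le E1 E2
  have h5 : (((Finset.range K).filter (fun k => ¬ GoodAt ε (η * ε / 32) Λ k)).card : ℝ) ≤
      E1.card + E2.card := by exact_mod_cast h3.trans h4
  have h6 : C2 * (1 + Real.log Λ) ≤ C2 * (1 + Real.log Λ) * √K :=
    le_mul_of_one_le_right (by positivity) hK1
  calc _ ≤ (E1.card : ℝ) + E2.card := h5
    _ ≤ |C1| * (1 + Real.log Λ) * √K + C2 * (1 + Real.log Λ) * √K :=
        add_le_add hE1c (hE2c.trans h6)
    _ = (|C1| + C2) * (1 + Real.log Λ) * √K := by ring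

theorem r3_ge_log (k : ℕ) : k + 1 ≤ r3 (2 ^ k) := by
  induction k with
  | zero => exact r3_pos (by norm_num)
  | succ k ih =>
    have := growth_one (N := 2 ^ k) Nat.one_le_two_pow
    rw [pow_succ, mul_comm]
    omega

open Classical in
theorem count_scales (ε : ℝ) (hε : 0 < ε) : ∃ C : ℝ, ∀ K : ℕ,
    (((Finset.range K).filter (fun k => ¬ ∀ N : ℕ, 2 ^ k ≤ N → N < 2 ^ (k + 1) →
      (apCount N : ℝ) ≤ (2 : ℝ) ^ ((1 + ε) * (r3 N : ℝ)))).card : ℝ) ≤
      C * (√K * Real.log (K + 2)) := by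
  set δ : ℝ := min ε 1 / 4 with hδ
  have hδ0 : 0 < δ := by have := lt_min hε one_pos; positivity
  have hδ1 : δ ≤ 1 / 4 := by
    have := min_le_right ε 1
    rw [hδ]; linarith
  have hδε : 4 * δ ≤ ε := by
    have := min_le_left ε 1
    rw [hδ]; linarith
  obtain ⟨C, c, hC0, hc0, hC⟩ := scales δ hδ0
  obtain ⟨k0, hk0⟩ := exists_nat_ge (2 / δ)
  obtain ⟨K1, hK1⟩ := exists_nat_ge (4 / δ + 624 / c + 2)
  refine ⟨13 * C + k0 + K1, ?_⟩
  intro K
  rcases Nat.eq_zero_or_pos K with rfl | hK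
  · simp
  have hKr : (1 : ℝ) ≤ K := by exact_mod_cast hK
  have hsK : (1 : ℝ) ≤ √K := by
    rw [Real.one_le_sqrt]; exact hKr
  have hlK : (1 : ℝ) ≤ Real.log (K + 2) := by
    rw [Real.le_log_iff_exp_le (by positivity)]
    have := Real.exp_one_lt_d9
    linarith
  have hprod : (1 : ℝ) ≤ √K * Real.log (K + 2) := by nlinarith
  set S := (Finset.range K).filter (fun k => ¬ ∀ N : ℕ, 2 ^ k ≤ N → N < 2 ^ (k + 1) →
      (apCount N : ℝ) ≤ (2 : ℝ) ^ ((1 + ε) * (r3 N : ℝ))) with hS
  rcases Nat.lt_or_ge K K1 with hlt | hge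
  · -- small `K`
    have h1 : S.card ≤ K := by
      refine (card_filter_le _ _).trans ?_
      rw [card_range]
    have h2 : (S.card : ℝ) ≤ K1 := by
      have : S.card ≤ K1 := by omega
      exact_mod_cast this
    have h3 : (0 : ℝ) ≤ 13 * C + k0 := by positivity
    have h4 : (K1 : ℝ) ≤ (13 * C + k0 + K1) * (√K * Real.log (K + 2)) := by
      have h0 : (0 : ℝ) ≤ K1 := by positivity
      nlinarith
    linarith
  · -- large `K`
    have hK1' : (K1 : ℝ) ≤ K := by exact_mod_cast hge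
    have hKδ : 4 / δ ≤ K := by
      have : 0 < 624 / c := by positivity
      linarith
    have hKc : 624 / c ≤ K := by
      have : 0 < 4 / δ := by positivity
      linarith
    have hK2 : (2 : ℝ) ≤ K := by
      have : 0 < 4 / δ := by positivity
      have : 0 < 624 / c := by positivity
      linarith
    have hK2' : 2 ≤ K := by exact_mod_cast hK2
    set Λ : ℝ := (K : ℝ) ^ 12 with hΛ
    have hΛ1 : 1 ≤ Λ := one_le_pow₀ hKr
    have hlogΛ : Real.log Λ = 12 * Real.log K := by rw [hΛ, Real.log_pow]; norm_num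
    have hlK0 : 0 ≤ Real.log K := Real.log_nonneg hKr
    have hlKK : Real.log K ≤ K := by
      have := Real.log_le_sub_one_of_pos (x := (K : ℝ)) (by linarith)
      linarith
    have hlK2 : Real.log K ≤ Real.log (K + 2) := Real.log_le_log (by linarith) (by linarith)
    have hsub : S ⊆ ((Finset.range K).filter (fun k => ¬ GoodAt δ c Λ k)) ∪ Finset.range k0 := by
      intro k hk
      rw [hS, mem_filter] at hk
      rw [mem_union, mem_filter]
      by_contra hcon
      rw [not_or, not_and, not_not] at hcon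
      have hk0k : k0 ≤ k := by
        by_contra hlt
        exact hcon.2 (mem_range.2 (by omega))
      apply hk.2
      intro N hN1 hN2
      have hkK := mem_range.1 hk.1
      have hgood := hcon.1 hk.1 N hN1 hN2
      have hN0 : 1 ≤ N := le_trans Nat.one_le_two_pow hN1
      have hN0' : (1 : ℝ) ≤ N := by exact_mod_cast hN0
      have hr : (2 / δ : ℝ) ≤ r3 N := by
        have h1 : k + 1 ≤ r3 N := (r3_ge_log k).trans (r3_mono hN1)
        have h2 : (k0 : ℝ) ≤ r3 N := by
          have : k0 ≤ r3 N := by omega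
          exact_mod_cast this
        linarith
      have hrδ : 2 ≤ δ * r3 N := by
        rw [div_le_iff₀ hδ0] at hr
        linarith
      have hr8 : (8 : ℝ) ≤ r3 N := by nlinarith
      set s0 : ℕ := ⌈(1 + δ) * r3 N⌉₊ with hs0
      have hs0le : (s0 : ℝ) ≤ (1 + δ) * r3 N + 1 := (Nat.ceil_lt_add_one (by positivity)).le
      have hs0ge : (1 + δ) * r3 N ≤ s0 := Nat.le_ceil _
      have hs01 : 1 ≤ s0 := by
        have : (1 : ℝ) ≤ s0 := by nlinarith
        exact_mod_cast this
      have hs03 : (s0 : ℝ) ≤ 3 * r3 N := by nlinarith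
      have hlogN : Real.log N ≤ K := by
        have h1 : (N : ℝ) ≤ 2 ^ (k + 1) := by exact_mod_cast hN2.le
        have h2 : Real.log N ≤ Real.log ((2 : ℝ) ^ (k + 1)) := Real.log_le_log (by linarith) h1
        rw [Real.log_pow] at h2
        have h3 : ((k + 1 : ℕ) : ℝ) ≤ K := by exact_mod_cast hkK
        have := Real.log_two_lt_d9
        have h0 : (0 : ℝ) ≤ ((k + 1 : ℕ) : ℝ) := by positivity
        nlinarith
      have hlogN0 : 0 ≤ Real.log N := Real.log_nonneg hN0'
      have hsat : ∀ A ⊆ Icc 1 N, A.card = s0 → 4 * (K ^ 3) * (K ^ 3 + 1) * s0 ≤ (aps A).card := by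
        intro A hA hc'
        have h1 := hgood.2 A hA (by rw [hc']; exact hs0ge)
        have h0 : (0 : ℝ) ≤ (aps A).card := by positivity
        have h2 : (1 + Real.log Λ) * (1 + Real.log N) ≤ 26 * (K : ℝ) ^ 2 := by
          have e1 : 1 + Real.log Λ ≤ 13 * K := by rw [hlogΛ]; linarith
          have e2 : 1 + Real.log N ≤ 2 * K := by linarith
          calc (1 + Real.log Λ) * (1 + Real.log N) ≤ (13 * K) * (2 * K) :=
                mul_le_mul e1 e2 (by linarith) (by positivity)
            _ = 26 * (K : ℝ) ^ 2 := by ring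
        have h3 : c * (K : ℝ) ^ 12 * r3 N ≤ 26 * (K : ℝ) ^ 2 * (aps A).card :=
          h1.trans (mul_le_mul_of_nonneg_right h2 h0)
        have h4 : c * (K : ℝ) ^ 10 * r3 N ≤ 26 * (aps A).card := by
          have e : c * (K : ℝ) ^ 12 * r3 N = (K : ℝ) ^ 2 * (c * (K : ℝ) ^ 10 * r3 N) := by ring
          have e' : 26 * (K : ℝ) ^ 2 * (aps A).card = (K : ℝ) ^ 2 * (26 * (aps A).card) := by ring
          rw [e, e'] at h3
          exact le_of_mul_le_mul_left h3 (by positivity)
        have h5 : 624 ≤ c * (K : ℝ) ^ 4 := by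
          rw [div_le_iff₀ hc0] at hKc
          have : (K : ℝ) ≤ (K : ℝ) ^ 4 := le_self_pow₀ hKr (by norm_num)
          nlinarith
        have h6 : (((4 * (K ^ 3) * (K ^ 3 + 1) * s0 : ℕ) : ℝ)) ≤ (aps A).card := by
          push_cast
          have e1 : (K : ℝ) ^ 3 + 1 ≤ 2 * (K : ℝ) ^ 3 := by
            have : (1 : ℝ) ≤ (K : ℝ) ^ 3 := one_le_pow₀ hKr
            linarith
          have e2 : 4 * (K : ℝ) ^ 3 * ((K : ℝ) ^ 3 + 1) * s0 ≤ 24 * (K : ℝ) ^ 6 * r3 N := by
            calc 4 * (K : ℝ) ^ 3 * ((K : ℝ) ^ 3 + 1) * s0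
                ≤ 4 * (K : ℝ) ^ 3 * (2 * (K : ℝ) ^ 3) * (3 * r3 N) :=
                  mul_le_mul (mul_le_mul_of_nonneg_left e1 (by positivity)) hs03
                    (by positivity) (by positivity)
              _ = 24 * (K : ℝ) ^ 6 * r3 N := by ring
          have e3 : 26 * (24 * (K : ℝ) ^ 6 * r3 N) ≤ c * (K : ℝ) ^ 10 * r3 N := by
            have e4 : 26 * (24 * (K : ℝ) ^ 6 * r3 N) = 624 * ((K : ℝ) ^ 6 * r3 N) := by ring
            have e5 : c * (K : ℝ) ^ 10 * r3 N = (c * (K : ℝ) ^ 4) * ((K : ℝ) ^ 6 * r3 N) := by ring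
            rw [e4, e5]
            exact mul_le_mul_of_nonneg_right h5 (by positivity)
          linarith
        exact_mod_cast h6
      have hcount := count_le N s0 (K ^ 3) _ (by
        calc 2 ≤ K := hK2'
          _ ≤ K ^ 3 := Nat.le_self_pow (by norm_num) K) hs01 le_rfl hsat
      have hlog2 : Nat.log 2 N = k := by
        apply Nat.log_eq_of_pow_le_of_lt_pow hN1 hN2
      rw [hlog2] at hcount
      set t : ℕ := 4 * s0 / K ^ 3 with ht
      have h1 : (N + 1) ^ ((k + 1) * t) ≤ 2 ^ (K * (K * t)) := by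
        calc (N + 1) ^ ((k + 1) * t) ≤ (2 ^ (k + 1)) ^ ((k + 1) * t) :=
              Nat.pow_le_pow_left (by omega) _
          _ = 2 ^ ((k + 1) * ((k + 1) * t)) := by rw [← pow_mul]
          _ ≤ 2 ^ (K * (K * t)) := by
            apply Nat.pow_le_pow_right (by norm_num)
            exact Nat.mul_le_mul hkK (Nat.mul_le_mul_right _ hkK)
      have h2 : apCount N ≤ 2 ^ (K * (K * t) + s0) := by
        rw [pow_add]
        exact hcount.trans (Nat.mul_le_mul_right _ h1)
      have h3 : (apCount N : ℝ) ≤ (2 : ℝ) ^ ((K * (K * t) + s0 : ℕ) : ℝ) := by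
        rw [Real.rpow_natCast]
        exact_mod_cast h2
      refine h3.trans (Real.rpow_le_rpow_of_exponent_le (by norm_num) ?_)
      have h4 : (K : ℝ) * (K * (K * t)) ≤ 4 * s0 := by
        have : K ^ 3 * t ≤ 4 * s0 := Nat.mul_div_le _ _
        have h5 : (K : ℝ) ^ 3 * t ≤ 4 * s0 := by exact_mod_cast this
        nlinarith
      have h5 : (K : ℝ) * (K * t) ≤ δ * s0 := by
        have h6 : 4 ≤ δ * K := by
          rw [div_le_iff₀ hδ0] at hKδ
          linarith
        have h7 : (K : ℝ) * (K * (K * t)) ≤ K * (δ * s0) := by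
          have : (4 : ℝ) * s0 ≤ (δ * K) * s0 := mul_le_mul_of_nonneg_right h6 (by positivity)
          calc (K : ℝ) * (K * (K * t)) ≤ 4 * s0 := h4
            _ ≤ (δ * K) * s0 := this
            _ = K * (δ * s0) := by ring
        exact le_of_mul_le_mul_left h7 (by linarith)
      push_cast
      have h8 : δ * s0 + s0 ≤ (1 + δ) * ((1 + δ) * r3 N + 1) := by
        have : δ * s0 + s0 = (1 + δ) * s0 := by ring
        rw [this]
        exact mul_le_mul_of_nonneg_left hs0le (by positivity)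
      have h9 : (1 + δ) * ((1 + δ) * r3 N + 1) ≤ (1 + 4 * δ) * r3 N := by
        have e1 : (1 + δ) * ((1 + δ) * r3 N + 1) =
            r3 N + 2 * (δ * r3 N) + δ * (δ * r3 N) + 1 + δ := by ring
        have e2 : (1 + 4 * δ) * (r3 N : ℝ) = r3 N + 4 * (δ * r3 N) := by ring
        rw [e1, e2]
        have e3 : δ * (δ * r3 N) ≤ 1 / 4 * (δ * r3 N) :=
          mul_le_mul_of_nonneg_right hδ1 (by positivity)
        linarith
      have h10 : (1 + 4 * δ) * (r3 N : ℝ) ≤ (1 + ε) * r3 N :=
        mul_le_mul_of_nonneg_right (by linarith) (by positivity)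
      linarith
    have h1 : (S.card : ℝ) ≤ C * (1 + Real.log Λ) * √K + k0 := by
      have h2 := (card_le_card hsub).trans (card_union_le _ _)
      rw [card_range] at h2
      have h3 := hC Λ hΛ1 K
      have h4 : (S.card : ℝ) ≤ (((Finset.range K).filter (fun k => ¬ GoodAt δ c Λ k)).card : ℝ) +
          k0 := by exact_mod_cast h2
      linarith
    rw [hlogΛ] at h1
    have h2 : C * (1 + 12 * Real.log K) * √K ≤ 13 * C * (√K * Real.log (K + 2)) := by
      have e1 : 1 + 12 * Real.log K ≤ 13 * Real.log (K + 2) := by linarith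
      have e2 : 13 * C * (√K * Real.log (K + 2)) = C * (13 * Real.log (K + 2)) * √K := by ring
      rw [e2]
      apply mul_le_mul_of_nonneg_right _ (by positivity)
      exact mul_le_mul_of_nonneg_left e1 hC0.le
    have h3 : (k0 : ℝ) ≤ k0 * (√K * Real.log (K + 2)) := le_mul_of_one_le_right (by positivity) hprod
    have h4 : (0 : ℝ) ≤ K1 * (√K * Real.log (K + 2)) := by positivity
    have e : (13 * C + k0 + K1) * (√K * Real.log (K + 2)) = 13 * C * (√K * Real.log (K + 2)) +
        k0 * (√K * Real.log (K + 2)) + K1 * (√K * Real.log (K + 2)) := by ring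
    rw [e]
    linarith

end Pool.Agent.MP_0f71ae_nt.Cnt
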