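import Pool.Agent.MP_0f71ae_nt.Cnt.Lin2
import Pool.Agent.MP_0f71ae_nt.Cnt.Scales

/-!
# Linearity, supersaturation and counting at almost all scales of every window
-/

set_option autoImplicit false

namespace Pool.Agent.MP_0f71ae_nt.Cnt

open Finset Pool.Agent.MP_0f71ae_nt.Reg

theorem regular_of_lin {ε L : ℝ} (hε : 0 < ε) (hε1 : ε ≤ 1) (hL : 1 ≤ L) (k T N : ℕ)
    (hkT : k + 1 ≤ T) (hTε : 100 / ε ≤ T) (hN1 : 2 ^ k ≤ N) (hN2 : N < 2 ^ (k + 1))
    (hlin : LinAt (ε / 40) ((L * T) ^ 12) N) (hNΛ : (L * T) ^ 12 * (2 / (ε / 40)) ≤ N)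
    (hkε : 8 / ε ≤ k) : Regular ε L N := by
  set y : ℝ := L * T with hy
  set Λ : ℝ := y ^ 12 with hΛ
  have hT100 : (100 : ℝ) ≤ T := by
    have : 100 ≤ 100 / ε := by rw [le_div_iff₀ hε]; linarith
    linarith
  have hT0 : (0 : ℝ) < T := by linarith
  have hT2 : 2 ≤ T := by
    have : (2 : ℝ) ≤ T := by linarith
    exact_mod_cast this
  have hTy : (T : ℝ) ≤ y := by rw [hy]; nlinarith
  have hy100 : 100 ≤ y := hT100.trans hTy
  have hy1 : 1 ≤ y := by linarith
  have hy0 : 0 < y := by linarith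
  have hLy : L ≤ y := by rw [hy]; nlinarith
  have hΛ1 : 1 ≤ Λ := one_le_pow₀ hy1
  have hyΛ : y ≤ Λ := le_self_pow₀ hy1 (by norm_num)
  have hL0 : 0 < L := by linarith
  have hN0 : 1 ≤ N := le_trans Nat.one_le_two_pow hN1
  have hN0' : (1 : ℝ) ≤ N := by exact_mod_cast hN0
  have hlogΛ : Real.log Λ = 12 * Real.log y := by rw [hΛ, Real.log_pow]; norm_num
  have hly0 : 0 ≤ Real.log y := Real.log_nonneg hy1
  have hlyy : Real.log y ≤ y := by
    have := Real.log_le_sub_one_of_pos hy0
    linarith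
  have hlogN0 : 0 ≤ Real.log N := Real.log_nonneg hN0'
  have hlogN : Real.log N ≤ T := by
    have h1 : (N : ℝ) ≤ 2 ^ (k + 1) := by exact_mod_cast hN2.le
    have h2 : Real.log N ≤ Real.log ((2 : ℝ) ^ (k + 1)) := Real.log_le_log (by linarith) h1
    rw [Real.log_pow] at h2
    have h3 : ((k + 1 : ℕ) : ℝ) ≤ T := by exact_mod_cast hkT
    have := Real.log_two_lt_d9
    have h0 : (0 : ℝ) ≤ ((k + 1 : ℕ) : ℝ) := by positivity
    nlinarith
  -- supersaturation just above `r₃`
  have hsup : ∀ A ⊆ Icc 1 N, (1 + ε / 4) * r3 N ≤ A.card → y ^ 7 * r3 N ≤ (aps A).card := by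
    intro A hA hAc
    have h1 := sat_one (ε := ε / 4) (η := ε / 40) (Λ := Λ) (by positivity) (by positivity)
      (by linarith) (by linarith) hΛ1 N hN0 hNΛ
      (hlin (1 / Λ) le_rfl (by rw [div_le_iff₀ (by linarith)]; nlinarith)) A hA hAc
    have h0 : (0 : ℝ) ≤ (aps A).card := by positivity
    have hr0 : (0 : ℝ) ≤ r3 N := by positivity
    have h2 : (1 + Real.log Λ) * (1 + Real.log N) ≤ 26 * y ^ 2 := by
      have e1 : 1 + Real.log Λ ≤ 13 * y := by rw [hlogΛ]; linarith
      have e2 : 1 + Real.log N ≤ 2 * y := by linarith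
      calc (1 + Real.log Λ) * (1 + Real.log N) ≤ (13 * y) * (2 * y) :=
            mul_le_mul e1 e2 (by linarith) (by positivity)
        _ = 26 * y ^ 2 := by ring
    have h3 : ε / 40 * (ε / 4) / 32 * Λ * r3 N ≤ 26 * y ^ 2 * (aps A).card :=
      h1.trans (mul_le_mul_of_nonneg_right h2 h0)
    have hεy : 100 ≤ ε * y := by
      rw [div_le_iff₀ hε] at hTε
      have : (T : ℝ) * ε ≤ y * ε := mul_le_mul_of_nonneg_right hTy hε.le
      linarith
    have h4 : 133120 * (y ^ 9 * r3 N) ≤ 133120 * (y ^ 2 * (aps A).card) := by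
      calc 133120 * (y ^ 9 * r3 N) ≤ (1000000 : ℝ) * (y ^ 9 * r3 N) := by
            apply mul_le_mul_of_nonneg_right (by norm_num) (by positivity)
        _ = (100 * 100) * (100 * (y ^ 9 * r3 N)) := by ring
        _ ≤ ((ε * y) * (ε * y)) * (y * (y ^ 9 * r3 N)) := by
            apply mul_le_mul
            · exact mul_le_mul hεy hεy (by norm_num) (by positivity)
            · exact mul_le_mul_of_nonneg_right hy100 (by positivity)
            · positivity
            · positivity
        _ = 5120 * (ε / 40 * (ε / 4) / 32 * Λ * r3 N) := by rw [hΛ]; ring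
        _ ≤ 5120 * (26 * y ^ 2 * (aps A).card) := mul_le_mul_of_nonneg_left h3 (by norm_num)
        _ = 133120 * (y ^ 2 * (aps A).card) := by ring
    have h5 : y ^ 2 * (y ^ 7 * r3 N) ≤ y ^ 2 * (aps A).card := by
      have e : y ^ 2 * (y ^ 7 * r3 N) = y ^ 9 * r3 N := by ring
      rw [e]
      linarith
    exact le_of_mul_le_mul_left h5 (by positivity)
  refine ⟨?_, ?_, ?_⟩
  · intro x hx1 hx2
    have hx0 : 0 < x := lt_of_lt_of_le (by positivity) hx1
    have h1 := hlin x (by
      refine le_trans ?_ hx1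
      apply one_div_le_one_div_of_le hL0
      exact hLy.trans hyΛ) (hx2.trans (hLy.trans hyΛ))
    refine h1.trans ?_
    apply mul_le_mul_of_nonneg_right (by linarith) (by positivity)
  · intro A hA hAc
    have h1 := hsup A hA (by
      refine le_trans ?_ hAc
      apply mul_le_mul_of_nonneg_right (by linarith) (by positivity))
    refine le_trans ?_ h1
    apply mul_le_mul_of_nonneg_right _ (by positivity)
    exact hLy.trans (le_self_pow₀ hy1 (by norm_num))
  · -- counting
    set δ : ℝ := ε / 4 with hδ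
    have hδ0 : 0 < δ := by positivity
    have hδ1 : δ ≤ 1 / 4 := by rw [hδ]; linarith
    have hr : (2 / δ : ℝ) ≤ r3 N := by
      have h1 : k + 1 ≤ r3 N := (r3_ge_log k).trans (r3_mono hN1)
      have h2 : ((k + 1 : ℕ) : ℝ) ≤ r3 N := by exact_mod_cast h1
      have h3 : 2 / δ = 8 / ε := by rw [hδ]; field_simp; norm_num
      rw [h3]
      push_cast at h2
      linarith
    have hrδ : 2 ≤ δ * r3 N := by
      rw [div_le_iff₀ hδ0] at hr
      linarith
    have hr8 : (8 : ℝ) ≤ r3 N := by nlinarith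
    set s0 : ℕ := ⌈(1 + δ) * r3 N⌉₊ with hs0
    have hs0le : (s0 : ℝ) ≤ (1 + δ) * r3 N + 1 := (Nat.ceil_lt_add_one (by positivity)).le
    have hs0ge : (1 + δ) * r3 N ≤ s0 := Nat.le_ceil _
    have hs01 : 1 ≤ s0 := by
      have : (1 : ℝ) ≤ s0 := by nlinarith
      exact_mod_cast this
    have hs03 : (s0 : ℝ) ≤ 3 * r3 N := by nlinarith
    have hsat : ∀ A ⊆ Icc 1 N, A.card = s0 → 4 * (T ^ 3) * (T ^ 3 + 1) * s0 ≤ (aps A).card := by
      intro A hA hc'
      have h1 := hsup A hA (by rw [hc']; exact hs0ge)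
      have h6 : (((4 * (T ^ 3) * (T ^ 3 + 1) * s0 : ℕ) : ℝ)) ≤ (aps A).card := by
        push_cast
        have e1 : (T : ℝ) ^ 3 + 1 ≤ 2 * (T : ℝ) ^ 3 := by
          have : (1 : ℝ) ≤ (T : ℝ) ^ 3 := one_le_pow₀ (by linarith)
          linarith
        have e2 : 4 * (T : ℝ) ^ 3 * ((T : ℝ) ^ 3 + 1) * s0 ≤ 24 * (T : ℝ) ^ 6 * r3 N := by
          calc 4 * (T : ℝ) ^ 3 * ((T : ℝ) ^ 3 + 1) * s0
              ≤ 4 * (T : ℝ) ^ 3 * (2 * (T : ℝ) ^ 3) * (3 * r3 N) :=
                mul_le_mul (mul_le_mul_of_nonneg_left e1 (by positivity)) hs03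
                  (by positivity) (by positivity)
            _ = 24 * (T : ℝ) ^ 6 * r3 N := by ring
        have e3 : 24 * (T : ℝ) ^ 6 * r3 N ≤ y ^ 7 * r3 N := by
          apply mul_le_mul_of_nonneg_right _ (by positivity)
          calc 24 * (T : ℝ) ^ 6 ≤ y * y ^ 6 := by
                apply mul_le_mul (by linarith) _ (by positivity) hy0.le
                exact pow_le_pow_left₀ hT0.le hTy 6
            _ = y ^ 7 := by ring
        linarith
      exact_mod_cast h6
    have hcount := count_le N s0 (T ^ 3) _ (by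
      calc 2 ≤ T := hT2
        _ ≤ T ^ 3 := Nat.le_self_pow (by norm_num) T) hs01 le_rfl hsat
    have hlog2 : Nat.log 2 N = k := by
      apply Nat.log_eq_of_pow_le_of_lt_pow hN1 hN2
    rw [hlog2] at hcount
    set t : ℕ := 4 * s0 / T ^ 3 with ht
    have h1 : (N + 1) ^ ((k + 1) * t) ≤ 2 ^ (T * (T * t)) := by
      calc (N + 1) ^ ((k + 1) * t) ≤ (2 ^ (k + 1)) ^ ((k + 1) * t) :=
            Nat.pow_le_pow_left (by omega) _
        _ = 2 ^ ((k + 1) * ((k + 1) * t)) := by rw [← pow_mul]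
        _ ≤ 2 ^ (T * (T * t)) := by
          apply Nat.pow_le_pow_right (by norm_num)
          exact Nat.mul_le_mul hkT (Nat.mul_le_mul_right _ hkT)
    have h2 : apCount N ≤ 2 ^ (T * (T * t) + s0) := by
      rw [pow_add]
      exact hcount.trans (Nat.mul_le_mul_right _ h1)
    have h3 : (apCount N : ℝ) ≤ (2 : ℝ) ^ ((T * (T * t) + s0 : ℕ) : ℝ) := by
      rw [Real.rpow_natCast]
      exact_mod_cast h2
    refine h3.trans (Real.rpow_le_rpow_of_exponent_le (by norm_num) ?_)
    have h4 : (T : ℝ) * (T * (T * t)) ≤ 4 * s0 := by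
      have : T ^ 3 * t ≤ 4 * s0 := Nat.mul_div_le _ _
      have h5 : (T : ℝ) ^ 3 * t ≤ 4 * s0 := by exact_mod_cast this
      nlinarith
    have h5 : (T : ℝ) * (T * t) ≤ δ * s0 := by
      have h6 : 4 ≤ δ * T := by
        rw [div_le_iff₀ hε] at hTε
        rw [hδ]
        linarith
      have h7 : (T : ℝ) * (T * (T * t)) ≤ T * (δ * s0) := by
        have : (4 : ℝ) * s0 ≤ (δ * T) * s0 := mul_le_mul_of_nonneg_right h6 (by positivity)
        calc (T : ℝ) * (T * (T * t)) ≤ 4 * s0 := h4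
          _ ≤ (δ * T) * s0 := this
          _ = T * (δ * s0) := by ring
      exact le_of_mul_le_mul_left h7 hT0
    push_cast
    have h8 : δ * s0 + s0 ≤ (1 + δ) * ((1 + δ) * r3 N + 1) := by
      have : δ * s0 + s0 = (1 + δ) * s0 := by ring
      rw [this]
      exact mul_le_mul_of_nonneg_left hs0le (by positivity)
    have h9 : (1 + δ) * ((1 + δ) * r3 N + 1) ≤ (1 + 4 * δ) * r3 N := by
      have e1 : (1 + δ) * ((1 + δ) * r3 N + 1) =
          r3 N + 2 * (δ * r3 N) + δ * (δ * r3 N) + 1 + δ := by ring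
      have e2 : (1 + 4 * δ) * (r3 N : ℝ) = r3 N + 4 * (δ * r3 N) := by ring
      rw [e1, e2]
      have e3 : δ * (δ * r3 N) ≤ 1 / 4 * (δ * r3 N) :=
        mul_le_mul_of_nonneg_right hδ1 (by positivity)
      linarith
    have h10 : (1 + 4 * δ) * (r3 N : ℝ) = (1 + ε) * r3 N := by rw [hδ]; ring
    linarith

/-- In every window of consecutive scales almost all scales are regular. -/
theorem regular_win (ε : ℝ) (hε : 0 < ε) (hε1 : ε ≤ 1) (L : ℝ) (hL : 1 ≤ L) (a K : ℕ) :
    ((badScales (Regular ε L) a K).card : ℝ) ≤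
      10 ^ 7 * Real.log (L * (a + K + 2) / ε) / ε * √K := by
  classical
  rcases Nat.eq_zero_or_pos K with rfl | hK
  · simp [badScales]
  have hKr : (1 : ℝ) ≤ K := by exact_mod_cast hK
  have hsK : (1 : ℝ) ≤ √K := by rw [Real.one_le_sqrt]; exact hKr
  have ha0 : (0 : ℝ) ≤ a := Nat.cast_nonneg _
  have hl2 : 0 < Real.log 2 := Real.log_pos (by norm_num)
  have hl2g := Real.log_two_gt_d9
  have hl2l := Real.log_two_lt_d9
  have hL0 : 0 < L := by linarith
  set T : ℕ := a + K + ⌈100 / ε⌉₊ with hT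
  have hTε : 100 / ε ≤ T := by
    have := Nat.le_ceil (100 / ε)
    rw [hT]; push_cast
    linarith
  set y : ℝ := L * T with hy
  set Λ : ℝ := y ^ 12 with hΛ
  have hT100 : (100 : ℝ) ≤ T := by
    have : 100 ≤ 100 / ε := by rw [le_div_iff₀ hε]; linarith
    linarith
  have hy1 : 1 ≤ y := by rw [hy]; nlinarith
  have hy0 : 0 < y := by linarith
  have hΛ1 : 1 ≤ Λ := one_le_pow₀ hy1
  set Z : ℝ := L * (a + K + 2) / ε with hZ
  have hZ2 : 3 ≤ Z := by
    rw [hZ, le_div_iff₀ hε]
    nlinarith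
  have hZ1 : 1 ≤ Z := by linarith
  have hZ0 : 0 < Z := by linarith
  have hlZ : 1 ≤ Real.log Z := by
    rw [Real.le_log_iff_exp_le hZ0]
    have := Real.exp_one_lt_d9
    linarith
  have hZε : 1 / ε ≤ Z := by
    rw [hZ]
    apply div_le_div_of_nonneg_right _ hε.le
    nlinarith
  have hyZ : y ≤ 101 * Z := by
    have h1 : (T : ℝ) ≤ 101 * ((a + K + 2) / ε) := by
      have h2 : (T : ℝ) ≤ a + K + (100 / ε + 1) := by
        rw [hT]; push_cast
        have := (Nat.ceil_lt_add_one (show 0 ≤ 100 / ε by positivity)).le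
        linarith
      have h3 : a + K + (100 / ε + 1) ≤ 101 * (((a : ℝ) + K + 2) / ε) := by
        have h4 : (a : ℝ) + K + 1 ≤ ((a : ℝ) + K + 2) / ε := by
          rw [le_div_iff₀ hε]
          nlinarith
        have h5 : 100 / ε ≤ 100 * (((a : ℝ) + K + 2) / ε) := by
          rw [← mul_div_assoc]
          apply div_le_div_of_nonneg_right _ hε.le
          linarith
        linarith
      linarith
    calc y = L * T := hy
      _ ≤ L * (101 * ((a + K + 2) / ε)) := mul_le_mul_of_nonneg_left h1 hL0.le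
      _ = 101 * Z := by rw [hZ]; ring
  have hl101 : Real.log 101 ≤ 5 := by
    have e : Real.log 101 ≤ Real.log 128 := Real.log_le_log (by norm_num) (by norm_num)
    rw [show (128 : ℝ) = 2 ^ 7 by norm_num, Real.log_pow] at e
    push_cast at e
    linarith
  have hly : Real.log y ≤ 6 * Real.log Z := by
    have h1 : Real.log y ≤ Real.log (101 * Z) := Real.log_le_log hy0 hyZ
    rw [Real.log_mul (by norm_num) hZ0.ne'] at h1
    linarith
  have hly0 : 0 ≤ Real.log y := Real.log_nonneg hy1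
  have hlogΛ : Real.log Λ = 12 * Real.log y := by rw [hΛ, Real.log_pow]; norm_num
  have hlΛη : Real.log (Λ / (ε / 40)) ≤ 80 * Real.log Z := by
    have e : Λ / (ε / 40) = Λ * (40 * (1 / ε)) := by field_simp
    rw [e, Real.log_mul (by positivity) (by positivity), Real.log_mul (by norm_num) (by positivity),
      hlogΛ]
    have h1 : Real.log (1 / ε) ≤ Real.log Z := Real.log_le_log (by positivity) hZε
    have h40 : Real.log 40 ≤ 5 := by
      have : Real.log 40 ≤ Real.log 101 := Real.log_le_log (by norm_num) (by norm_num)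
      linarith
    linarith
  have hlΛη0 : 0 ≤ Real.log (Λ / (ε / 40)) := by
    apply Real.log_nonneg
    rw [le_div_iff₀ (by positivity)]
    linarith
  set E1 := badScales (LinAt (ε / 40) Λ) a K with hE1
  set E2 := (Finset.Ico a (a + K)).filter (fun k => (2 : ℝ) ^ k < Λ * (2 / (ε / 40))) with hE2
  set E3 := (Finset.Ico a (a + K)).filter (fun k : ℕ => (k : ℝ) < 8 / ε) with hE3
  have hsub : badScales (Regular ε L) a K ⊆ E1 ∪ (E2 ∪ E3) := by
    intro k hk
    rw [badScales, mem_filter] at hk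
    rw [mem_union, mem_union, hE1, hE2, hE3, badScales, mem_filter, mem_filter, mem_filter]
    by_contra hcon
    rw [not_or, not_or] at hcon
    obtain ⟨h1, h2, h3⟩ := hcon
    rw [not_and, not_not] at h1
    rw [not_and, not_lt] at h2 h3
    apply hk.2
    intro N hN1 hN2
    have hkK := (mem_Ico.1 hk.1).2
    refine regular_of_lin hε hε1 hL k T N (by omega) hTε hN1 hN2 (h1 hk.1 N hN1 hN2) ?_ (h3 hk.1)
    have h4 : ((2 : ℝ)) ^ k ≤ N := by exact_mod_cast hN1
    exact (h2 hk.1).trans h4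
  have hE1c : (E1.card : ℝ) ≤ 5443200 * (Real.log Z / ε * √K) := by
    have h1 := scale_linear_win (ε / 40) (by positivity) (by linarith) Λ hΛ1 a K
    refine h1.trans ?_
    have h2 : 1680 * (1 + Real.log (Λ / (ε / 40))) / (ε / 40) * √K =
        67200 * ((1 + Real.log (Λ / (ε / 40))) * (1 / ε * √K)) := by field_simp; ring
    have h3 : 5443200 * (Real.log Z / ε * √K) = 67200 * ((81 * Real.log Z) * (1 / ε * √K)) := by ring
    rw [h2, h3]
    apply mul_le_mul_of_nonneg_left _ (by norm_num)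
    apply mul_le_mul_of_nonneg_right _ (by positivity)
    linarith
  have hbig : Real.log Z ≤ Real.log Z / ε * √K := by
    have h1 : Real.log Z ≤ Real.log Z / ε := by
      rw [le_div_iff₀ hε]
      nlinarith
    have h2 : Real.log Z / ε ≤ Real.log Z / ε * √K :=
      le_mul_of_one_le_right (by positivity) hsK
    linarith
  have hE2c : (E2.card : ℝ) ≤ 200 * (Real.log Z / ε * √K) := by
    have hΛ2 : Λ * (2 / (ε / 40)) = 2 * (Λ / (ε / 40)) := by ring
    set W : ℝ := Real.log (Λ * (2 / (ε / 40))) / Real.log 2 with hW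
    have hlog : Real.log (Λ * (2 / (ε / 40))) = Real.log 2 + Real.log (Λ / (ε / 40)) := by
      rw [hΛ2, Real.log_mul (by norm_num) (by positivity)]
    have hW0 : 0 ≤ W := by rw [hW, hlog]; positivity
    have h1 : E2 ⊆ Finset.range ⌈W⌉₊ := by
      intro k hk
      rw [hE2, mem_filter] at hk
      rw [mem_range, Nat.lt_ceil, hW, lt_div_iff₀ hl2]
      have := Real.log_lt_log (by positivity) hk.2
      rw [Real.log_pow] at this
      exact this
    have h2 : (E2.card : ℝ) ≤ W + 1 := by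
      have h3 := card_le_card h1
      rw [card_range] at h3
      have h4 : (E2.card : ℝ) ≤ (⌈W⌉₊ : ℝ) := by exact_mod_cast h3
      exact h4.trans (Nat.ceil_lt_add_one hW0).le
    have h3 : W ≤ 150 * Real.log Z := by
      rw [hW, div_le_iff₀ hl2, hlog]
      nlinarith
    linarith
  have hE3c : (E3.card : ℝ) ≤ 9 * (Real.log Z / ε * √K) := by
    have h1 : E3 ⊆ Finset.range ⌈8 / ε⌉₊ := by
      intro k hk
      rw [hE3, mem_filter] at hk
      rw [mem_range, Nat.lt_ceil]
      exact hk.2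
    have h2 : (E3.card : ℝ) ≤ 8 / ε + 1 := by
      have h3 := card_le_card h1
      rw [card_range] at h3
      have h4 : (E3.card : ℝ) ≤ (⌈8 / ε⌉₊ : ℝ) := by exact_mod_cast h3
      exact h4.trans (Nat.ceil_lt_add_one (by positivity)).le
    have h3 : 1 ≤ 1 / ε := by rw [le_div_iff₀ hε]; linarith
    have h4 : 1 / ε ≤ Real.log Z / ε := div_le_div_of_nonneg_right hlZ hε.le
    have h5 : Real.log Z / ε ≤ Real.log Z / ε * √K :=
      le_mul_of_one_le_right (by positivity) hsK
    have h6 : 8 / ε = 8 * (1 / ε) := by ring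
    linarith
  have h3 := card_le_card hsub
  have h4 := (card_union_le E1 (E2 ∪ E3)).trans (Nat.add_le_add_left (card_union_le E2 E3) _)
  have h5 : ((badScales (Regular ε L) a K).card : ℝ) ≤ E1.card + (E2.card + E3.card) := by
    exact_mod_cast h3.trans h4
  have h6 : 10 ^ 7 * Real.log Z / ε * √K = 10 ^ 7 * (Real.log Z / ε * √K) := by ring
  have h7 : 0 ≤ Real.log Z / ε * √K := by positivity
  rw [h6]
  linarith

end Pool.Agent.MP_0f71ae_nt.Cnt
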