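import Pool.Agent.MP_0f71ae_nt.Cnt.Sat

/-!
# Supersaturation for three-term progressions at every scale, by dilating modulo a prime
-/

set_option autoImplicit false

namespace Pool.Agent.MP_0f71ae_nt.Cnt

open Finset Pool.Agent.MP_0f71ae_nt.Reg

/-- The positions `u < M` with `a + q u` in `A` modulo `p`, for `t = (a, q)`. -/
def posB (p M : ℕ) (A : Finset ℕ) (t : ZMod p × ZMod p) : Finset ℕ :=
  (range M).filter (fun u => (t.1 + t.2 * (u : ZMod p)).val ∈ A)

theorem posB_card_le (p M : ℕ) (A : Finset ℕ) (t : ZMod p × ZMod p) :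
    (posB p M A t).card ≤ (aps (posB p M A t)).card + r3 M := by
  classical
  apply card_le_aps
  intro Y hY hf
  have h := card_inter_ap_le hf 0 1 M le_rfl
  refine le_trans (card_le_card ?_) h
  intro x hx
  rw [mem_filter]
  refine ⟨hx, x, ?_, by ring⟩
  have := hY hx
  rw [posB, mem_filter, mem_range] at this
  exact this.1

theorem card_shift (p N : ℕ) [Fact p.Prime] (hp : N < p) (A : Finset ℕ) (hA : A ⊆ Icc 1 N)
    (c : ZMod p) : ((univ : Finset (ZMod p)).filter (fun a => (a + c).val ∈ A)).card = A.card := by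
  classical
  refine card_bij (fun a _ => (a + c).val) ?_ ?_ ?_
  · intro a ha
    exact (mem_filter.1 ha).2
  · intro a _ b _ h
    have := ZMod.val_injective p h
    exact add_right_cancel this
  · intro n hn
    have hnp : n < p := by
      have := mem_Icc.1 (hA hn)
      omega
    refine ⟨(n : ZMod p) - c, ?_, ?_⟩
    · rw [mem_filter]
      refine ⟨mem_univ _, ?_⟩
      rw [sub_add_cancel, ZMod.val_natCast_of_lt hnp]
      exact hn
    · rw [sub_add_cancel, ZMod.val_natCast_of_lt hnp]

/-- The pairs `(x, d)`, `d ≠ 0`, with `x, x + d, x + 2d` in `A` modulo `p`. -/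
def tri (p : ℕ) [Fact p.Prime] (A : Finset ℕ) : Finset (ZMod p × ZMod p) :=
  univ.filter (fun t => t.2 ≠ 0 ∧ t.1.val ∈ A ∧ (t.1 + t.2).val ∈ A ∧ (t.1 + 2 * t.2).val ∈ A)

theorem tri_eq (p N : ℕ) [Fact p.Prime] (hp : 2 * N ≤ p) (A : Finset ℕ) (hA : A ⊆ Icc 1 N)
    (t : ZMod p × ZMod p) (ht : t ∈ tri p A) :
    t.1.val + (t.1 + 2 * t.2).val = 2 * (t.1 + t.2).val ∧ t.1.val ≠ (t.1 + t.2).val := by
  rw [tri, mem_filter] at ht
  obtain ⟨-, hd, h0, h1, h2⟩ := ht
  have b0 := mem_Icc.1 (hA h0)
  have b1 := mem_Icc.1 (hA h1)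
  have b2 := mem_Icc.1 (hA h2)
  constructor
  · have h : ((t.1.val + (t.1 + 2 * t.2).val : ℕ) : ZMod p) = ((2 * (t.1 + t.2).val : ℕ) : ZMod p) := by
      push_cast
      rw [ZMod.natCast_zmod_val, ZMod.natCast_zmod_val, ZMod.natCast_zmod_val]
      ring
    rw [ZMod.natCast_eq_natCast_iff] at h
    have h' := h
    rcases le_total (t.1.val + (t.1 + 2 * t.2).val) (2 * (t.1 + t.2).val) with hle | hle
    · rw [Nat.modEq_iff_dvd' hle] at h
      have : 2 * (t.1 + t.2).val - (t.1.val + (t.1 + 2 * t.2).val) = 0 :=
        Nat.eq_zero_of_dvd_of_lt h (by omega)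
      omega
    · have h := h.symm
      rw [Nat.modEq_iff_dvd' hle] at h
      have : (t.1.val + (t.1 + 2 * t.2).val) - 2 * (t.1 + t.2).val = 0 :=
        Nat.eq_zero_of_dvd_of_lt h (by omega)
      omega
  · intro h
    have := ZMod.val_injective p h
    apply hd
    have h3 : t.1 + t.2 - t.1 = 0 := by rw [← this]; ring
    simpa using h3

theorem tri_card (p N : ℕ) [Fact p.Prime] (hp : 2 * N ≤ p) (A : Finset ℕ) (hA : A ⊆ Icc 1 N) :
    (tri p A).card ≤ 2 * (aps A).card := by
  classical
  rw [← card_filter_add_card_filter_not (s := tri p A)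
    (fun t : ZMod p × ZMod p => t.1.val < (t.1 + t.2).val), two_mul]
  refine Nat.add_le_add ?_ ?_
  · refine card_le_card_of_injOn (fun t => (t.1.val, (t.1 + t.2).val)) ?_ ?_
    · intro t ht
      rw [mem_coe, mem_filter] at ht
      have h := tri_eq p N hp A hA t ht.1
      have ht1 := ht.1
      rw [tri, mem_filter] at ht1
      rw [mem_coe, mem_aps]
      refine ⟨⟨ht1.2.2.1, ht1.2.2.2.1⟩, ht.2, ?_⟩
      have : 2 * (t.1 + t.2).val - t.1.val = (t.1 + 2 * t.2).val := by omega
      simp only [this]
      exact ht1.2.2.2.2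
    · intro t _ s _ h
      simp only [Prod.mk.injEq] at h
      have h1 := ZMod.val_injective p h.1
      have h2 := ZMod.val_injective p h.2
      rw [h1] at h2
      exact Prod.ext h1 (add_left_cancel h2)
  · refine card_le_card_of_injOn (fun t => ((t.1 + 2 * t.2).val, (t.1 + t.2).val)) ?_ ?_
    · intro t ht
      rw [mem_coe, mem_filter] at ht
      have h := tri_eq p N hp A hA t ht.1
      have ht1 := ht.1
      rw [tri, mem_filter] at ht1
      rw [mem_coe, mem_aps]
      refine ⟨⟨ht1.2.2.2.2, ht1.2.2.2.1⟩, by simp only; omega, ?_⟩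
      have : 2 * (t.1 + t.2).val - (t.1 + 2 * t.2).val = t.1.val := by omega
      simp only [this]
      exact ht1.2.2.1
    · intro t _ s _ h
      simp only [Prod.mk.injEq] at h
      have h1 := ZMod.val_injective p h.1
      have h2 := ZMod.val_injective p h.2
      have h3 : t.2 = s.2 := by
        have e1 : t.2 = (t.1 + 2 * t.2) - (t.1 + t.2) := by ring
        have e2 : s.2 = (s.1 + 2 * s.2) - (s.1 + s.2) := by ring
        rw [e1, e2, h1, h2]
      rw [h3] at h2
      exact Prod.ext (add_right_cancel h2) h3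

/-- Double counting over all `(a, q)` with `q ≠ 0`. -/
theorem zp (p N M : ℕ) [Fact p.Prime] (hp : 2 * N ≤ p) (hN : 1 ≤ N) (hM : M ≤ p) (A : Finset ℕ)
    (hA : A ⊆ Icc 1 N) :
    (p - 1) * (M * A.card) ≤ (p - 1) * (p * r3 M) +
      (aps (range M)).card * (2 * (aps A).card) := by
  classical
  set Q : Finset (ZMod p × ZMod p) :=
    (univ : Finset (ZMod p)) ×ˢ ((univ : Finset (ZMod p)).erase 0) with hQ
  have hQc : Q.card = p * (p - 1) := by
    rw [hQ, card_product, card_erase_of_mem (mem_univ _), card_univ, ZMod.card]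
  have h1 : ∑ t ∈ Q, (posB p M A t).card = (p - 1) * (M * A.card) := by
    have e1 : ∀ t, (posB p M A t).card =
        ∑ u ∈ range M, if (t.1 + t.2 * (u : ZMod p)).val ∈ A then 1 else 0 := by
      intro t
      rw [posB, card_filter]
    simp only [e1]
    rw [hQ, sum_product_right]
    calc ∑ q ∈ (univ : Finset (ZMod p)).erase 0, ∑ a : ZMod p,
          ∑ u ∈ range M, (if (a + q * (u : ZMod p)).val ∈ A then 1 else 0)
        = ∑ q ∈ (univ : Finset (ZMod p)).erase 0, M * A.card := by
          apply sum_congr rfl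
          intro q _
          rw [sum_comm]
          calc ∑ u ∈ range M, ∑ a : ZMod p, (if (a + q * (u : ZMod p)).val ∈ A then 1 else 0)
              = ∑ u ∈ range M, A.card := by
                apply sum_congr rfl
                intro u _
                rw [← card_filter]
                exact card_shift p N (by omega) A hA _
            _ = M * A.card := by rw [sum_const, card_range, smul_eq_mul]
      _ = (p - 1) * (M * A.card) := by
          rw [sum_const, card_erase_of_mem (mem_univ _), card_univ, ZMod.card, smul_eq_mul]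
  have h2 : ∑ t ∈ Q, (posB p M A t).card ≤ ∑ t ∈ Q, (aps (posB p M A t)).card + Q.card * r3 M := by
    rw [← smul_eq_mul, ← sum_const, ← sum_add_distrib]
    exact sum_le_sum (fun t _ => posB_card_le p M A t)
  have h3 : ∑ t ∈ Q, (aps (posB p M A t)).card ≤
      (aps (range M)).card * (2 * (aps A).card) := by
    calc ∑ t ∈ Q, (aps (posB p M A t)).card
        ≤ ∑ t ∈ Q, ((aps (range M)).filter (fun w =>
            (t.1 + t.2 * (w.1 : ZMod p)).val ∈ A ∧ (t.1 + t.2 * (w.2 : ZMod p)).val ∈ A ∧
              (t.1 + t.2 * ((2 * w.2 - w.1 : ℕ) : ZMod p)).val ∈ A)).card := by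
          apply sum_le_sum
          intro t _
          apply card_le_card
          intro w hw
          have hsub : posB p M A t ⊆ range M := filter_subset _ _
          rw [mem_filter]
          refine ⟨aps_mono hsub hw, ?_⟩
          rw [mem_aps] at hw
          simp only [posB, mem_filter] at hw
          exact ⟨hw.1.1.2, hw.1.2.2, hw.2.2.2⟩
      _ = ∑ w ∈ aps (range M), (Q.filter (fun t =>
            (t.1 + t.2 * (w.1 : ZMod p)).val ∈ A ∧ (t.1 + t.2 * (w.2 : ZMod p)).val ∈ A ∧
              (t.1 + t.2 * ((2 * w.2 - w.1 : ℕ) : ZMod p)).val ∈ A)).card := by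
          simp only [card_filter]
          rw [sum_comm]
      _ ≤ ∑ w ∈ aps (range M), 2 * (aps A).card := by
          apply sum_le_sum
          intro w hw
          refine le_trans ?_ (tri_card p N hp A hA)
          rw [mem_aps] at hw
          obtain ⟨⟨hw1, hw2⟩, hw3, hw4⟩ := hw
          rw [mem_range] at hw1 hw2 hw4
          have hne : ((w.2 : ZMod p) - (w.1 : ZMod p)) ≠ 0 := by
            rw [← Nat.cast_sub hw3.le]
            intro h
            rw [ZMod.natCast_eq_zero_iff] at h
            have := Nat.le_of_dvd (by omega) h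
            omega
          refine card_le_card_of_injOn (fun t => (t.1 + t.2 * (w.1 : ZMod p),
            t.2 * ((w.2 : ZMod p) - (w.1 : ZMod p)))) ?_ ?_
          · intro t ht
            rw [mem_coe, mem_filter, hQ, mem_product, mem_erase] at ht
            rw [mem_coe, tri, mem_filter]
            refine ⟨mem_univ _, mul_ne_zero ht.1.2.1 hne, ht.2.1, ?_, ?_⟩
            · have : t.1 + t.2 * (w.1 : ZMod p) + t.2 * ((w.2 : ZMod p) - (w.1 : ZMod p)) =
                  t.1 + t.2 * (w.2 : ZMod p) := by ring
              simp only [this]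
              exact ht.2.2.1
            · have : t.1 + t.2 * (w.1 : ZMod p) + 2 * (t.2 * ((w.2 : ZMod p) - (w.1 : ZMod p))) =
                  t.1 + t.2 * ((2 * w.2 - w.1 : ℕ) : ZMod p) := by
                rw [Nat.cast_sub (by omega)]
                push_cast
                ring
              simp only [this]
              exact ht.2.2.2
          · intro t _ s _ h
            simp only [Prod.mk.injEq] at h
            have h4 : t.2 = s.2 := mul_right_cancel₀ hne h.2
            have h5 := h.1
            rw [h4] at h5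
            exact Prod.ext (add_right_cancel h5) h4
      _ = (aps (range M)).card * (2 * (aps A).card) := by rw [sum_const, smul_eq_mul]
  have h4 : Q.card * r3 M = (p - 1) * (p * r3 M) := by rw [hQc]; ring
  omega

theorem aps_range_card (M : ℕ) : 2 * (aps (range M)).card ≤ M * M := by
  classical
  have h1 : (aps (range M)).card + (aps (range M)).card ≤ ((range M) ×ˢ (range M)).card := by
    have h2 : ((aps (range M)).image Prod.swap).card = (aps (range M)).card :=
      card_image_of_injective _ Prod.swap_injective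
    nth_rewrite 2 [← h2]
    rw [← card_union_of_disjoint]
    · apply card_le_card
      intro w hw
      rw [mem_product]
      rcases mem_union.1 hw with h | h
      · rw [mem_aps] at h
        exact h.1
      · rw [mem_image] at h
        obtain ⟨v, hv, rfl⟩ := h
        rw [mem_aps] at hv
        exact ⟨hv.1.2, hv.1.1⟩
    · rw [disjoint_left]
      intro w h1 h2
      rw [mem_image] at h2
      obtain ⟨v, hv, rfl⟩ := h2
      rw [mem_aps] at h1 hv
      simp only [Prod.fst_swap, Prod.snd_swap] at h1
      omega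
  rw [card_product, card_range] at h1
  omega

/-- Supersaturation at every scale. -/
theorem supersat_prime (N M : ℕ) (hN : 1 ≤ N) (hM1 : 1 ≤ M) (hM : M ≤ N) (A : Finset ℕ)
    (hA : A ⊆ Icc 1 N) (h : 8 * (N * r3 M) ≤ M * A.card) : N * A.card ≤ M * (aps A).card := by
  obtain ⟨p, hp, hp1, hp2⟩ := Nat.exists_prime_lt_and_le_two_mul (2 * N) (by omega)
  haveI : Fact p.Prime := ⟨hp⟩
  have h1 := zp p N M (by omega) hN (by omega) A hA
  have h2 := aps_range_card M
  have h3 : (aps (range M)).card * (2 * (aps A).card) ≤ M * (M * (aps A).card) := by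
    calc (aps (range M)).card * (2 * (aps A).card) = (2 * (aps (range M)).card) * (aps A).card := by
          ring
      _ ≤ (M * M) * (aps A).card := Nat.mul_le_mul_right _ h2
      _ = _ := by ring
  have h4 : 2 * (p * r3 M) ≤ M * A.card := by
    calc 2 * (p * r3 M) ≤ 2 * ((2 * (2 * N)) * r3 M) :=
          Nat.mul_le_mul_left _ (Nat.mul_le_mul_right _ hp2)
      _ = 8 * (N * r3 M) := by ring
      _ ≤ _ := h
  have h5 : (p - 1) * (M * A.card) ≤ 2 * (M * (M * (aps A).card)) := by
    have h6 : (p - 1) * (2 * (p * r3 M)) ≤ (p - 1) * (M * A.card) := Nat.mul_le_mul_left _ h4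
    have h7 : (p - 1) * (2 * (p * r3 M)) = 2 * ((p - 1) * (p * r3 M)) := by ring
    omega
  have h8 : 2 * (M * (N * A.card)) ≤ 2 * (M * (M * (aps A).card)) := by
    calc 2 * (M * (N * A.card)) = (2 * N) * (M * A.card) := by ring
      _ ≤ (p - 1) * (M * A.card) := Nat.mul_le_mul_right _ (by omega)
      _ ≤ _ := h5
  have h9 : M * (N * A.card) ≤ M * (M * (aps A).card) := by omega
  exact Nat.le_of_mul_le_mul_left h9 (by omega)

end Pool.Agent.MP_0f71ae_nt.Cnt
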